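import Pool.Agent.H75.MT.Phi

set_option autoImplicit false
set_option linter.unusedSectionVars false

/-! The extremal function. -/

open Finset ComplexConjugate MeasureTheory UnitAddTorus

open scoped ENNReal

namespace Pool.Agent.H75.MT

noncomputable section

local instance : MeasureSpace UnitAddCircle := ⟨AddCircle.haarAddCircle⟩

local instance : Measure.IsAddHaarMeasure (volume : Measure UnitAddCircle) :=
  inferInstanceAs (Measure.IsAddHaarMeasure AddCircle.haarAddCircle)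

local instance : IsProbabilityMeasure (volume : Measure UnitAddCircle) :=
  inferInstanceAs (IsProbabilityMeasure AddCircle.haarAddCircle)

/-- Fourier coefficients of the kernel -/
def cr (r : ℝ) (k : ℤ) : ℂ :=
  if k = 0 then 1 else ((|(k : ℝ)| ^ (-r) : ℝ) : ℂ) *
    Complex.exp ((-(Real.pi * r * (SignType.sign (k : ℝ) : ℝ) / 2) : ℝ) * Complex.I)

lemma cr_neg (r : ℝ) (k : ℤ) : cr r (-k) = conj (cr r k) := by
  unfold cr
  by_cases hk : k = 0
  · rw [if_pos hk, if_pos (by rw [hk, neg_zero]), map_one]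
  · rw [if_neg hk, if_neg (by simpa using hk), map_mul, Complex.conj_ofReal, ← Complex.exp_conj,
      map_mul, Complex.conj_ofReal, Complex.conj_I]
    congr 2
    · push_cast
      rw [abs_neg]
    · have h1 : (SignType.sign ((-k : ℤ) : ℝ) : ℝ) = -(SignType.sign (k : ℝ) : ℝ) := by
        rw [Int.cast_neg, Left.sign_neg, SignType.coe_neg]
      rw [h1]
      push_cast
      ring

lemma cr_mu (r : ℝ) (K : ℕ) (k : Fin 2 → ℤ) (h0 : 0 < k 0) (h1 : 0 < k 1) :
    cr r (k 0) * cr r (k 1) * mu r K k = (((8 ^ (K + 2) : ℝ) ^ (-r) : ℝ) : ℂ) := by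
  have a0 : (0 : ℝ) < k 0 := by exact_mod_cast h0
  have a1 : (0 : ℝ) < k 1 := by exact_mod_cast h1
  have hN : (0 : ℝ) < 8 ^ (K + 2) := by positivity
  unfold cr mu
  rw [if_neg h0.ne', if_neg h1.ne', abs_of_pos a0, abs_of_pos a1, sign_pos a0, sign_pos a1]
  have e1 : ((-(Real.pi * r * ((1 : SignType) : ℝ) / 2) : ℝ) : ℂ) * Complex.I
      + (((-(Real.pi * r * ((1 : SignType) : ℝ) / 2) : ℝ) : ℂ) * Complex.I
        + ((Real.pi * r : ℝ) : ℂ) * Complex.I) = 0 := by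
    rw [SignType.coe_one]
    push_cast
    ring
  have e2 : Complex.exp (((-(Real.pi * r * ((1 : SignType) : ℝ) / 2) : ℝ) : ℂ) * Complex.I)
      * (Complex.exp (((-(Real.pi * r * ((1 : SignType) : ℝ) / 2) : ℝ) : ℂ) * Complex.I)
        * Complex.exp (((Real.pi * r : ℝ) : ℂ) * Complex.I)) = 1 := by
    rw [← Complex.exp_add, ← Complex.exp_add, e1, Complex.exp_zero]
  have e3 : ((k 0 : ℝ)) ^ (-r) * ((k 1 : ℝ)) ^ (-r) * ((k 0 : ℝ) * (k 1 : ℝ) / 8 ^ (K + 2)) ^ r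
      = (8 ^ (K + 2) : ℝ) ^ (-r) := by
    rw [Real.div_rpow (by positivity) hN.le, Real.mul_rpow a0.le a1.le, Real.rpow_neg a0.le,
      Real.rpow_neg a1.le, Real.rpow_neg hN.le]
    have b0 : (k 0 : ℝ) ^ r ≠ 0 := (Real.rpow_pos_of_pos a0 r).ne'
    have b1 : (k 1 : ℝ) ^ r ≠ 0 := (Real.rpow_pos_of_pos a1 r).ne'
    have b2 : (8 ^ (K + 2) : ℝ) ^ r ≠ 0 := (Real.rpow_pos_of_pos hN r).ne'
    field_simp
  rw [← e3]
  push_cast
  push_cast at e2
  linear_combination (((((k 0 : ℝ)) ^ (-r) : ℝ) : ℂ) * ((((k 1 : ℝ)) ^ (-r) : ℝ) : ℂ)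
    * ((((k 0 : ℝ) * (k 1 : ℝ) / 8 ^ (K + 2)) ^ r : ℝ) : ℂ)) * e2

lemma co_TT (K n : ℕ) (a : ℕ → (Fin 2 → ℤ) → ℂ) (l : Fin 2 → ℤ) :
    co (TT K n a) l = ∑ b ∈ Finset.range n, (1 / 2 * (if l ∈ RB K b then a b l else 0)
      + 1 / 2 * (if -l ∈ RB K b then conj (a b (-l)) else 0)) := by
  unfold TT
  rw [co_sum]
  exact Finset.sum_congr rfl (fun b _ => co_rp _ _ _)

lemma RB_pos {K b : ℕ} {k : Fin 2 → ℤ} (hk : k ∈ RB K b) : 0 < k 0 ∧ 0 < k 1 := by
  unfold RB Rm at hk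
  rw [mem_bx] at hk
  have h1 : (0 : ℤ) < Zf b := by exact_mod_cast Zf_pos b
  have h2 : (0 : ℤ) < Zs K b := by exact_mod_cast Zs_pos K b
  exact ⟨by linarith [hk.1.1], by linarith [hk.2.1]⟩

lemma member (r : ℝ) (K n : ℕ) (ε : ℕ → Finset (YK K)) (l : Fin 2 → ℤ) :
    ((((8 ^ (K + 2) : ℝ) ^ (-r) : ℝ)) : ℂ) * co (TT K n (aa K ε)) l
      = (∏ i, cr r (l i)) * co (TT K n (pa r K ε)) l := by
  rw [co_TT, co_TT, Finset.mul_sum, Finset.mul_sum, Fin.prod_univ_two]
  refine Finset.sum_congr rfl (fun b _ => ?_)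
  have h1 : ((((8 ^ (K + 2) : ℝ) ^ (-r) : ℝ)) : ℂ) * (if l ∈ RB K b then aa K ε b l else 0)
      = cr r (l 0) * cr r (l 1) * (if l ∈ RB K b then pa r K ε b l else 0) := by
    split_ifs with h
    · obtain ⟨p0, p1⟩ := RB_pos h
      rw [← cr_mu r K l p0 p1]
      unfold pa
      ring
    · rw [mul_zero, mul_zero]
  have h2 : ((((8 ^ (K + 2) : ℝ) ^ (-r) : ℝ)) : ℂ)
        * (if -l ∈ RB K b then conj (aa K ε b (-l)) else 0)
      = cr r (l 0) * cr r (l 1) * (if -l ∈ RB K b then conj (pa r K ε b (-l)) else 0) := by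
    split_ifs with h
    · obtain ⟨p0, p1⟩ := RB_pos h
      have h3 := congrArg conj (cr_mu r K (-l) p0 p1)
      rw [map_mul, map_mul, Pi.neg_apply, Pi.neg_apply, cr_neg, cr_neg, Complex.conj_conj,
        Complex.conj_conj, Complex.conj_ofReal] at h3
      rw [← h3]
      unfold pa
      rw [map_mul]
      ring
    · rw [mul_zero, mul_zero]
  linear_combination (1 / 2) * h1 + (1 / 2) * h2

/-- pointwise bound by the essential supremum -/
lemma le_essSup (h : T2 → ℂ) (hc : Continuous h) (hfin : eLpNorm h ⊤ volume ≠ ⊤) (x : T2) :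
    ‖h x‖ ≤ (eLpNorm h ⊤ volume).toReal := by
  set C := (eLpNorm h ⊤ volume).toReal with hC
  by_contra hcon
  push Not at hcon
  have hopen : IsOpen {x : T2 | C < ‖h x‖} := isOpen_lt continuous_const hc.norm
  have hae : ∀ᵐ y : T2, ‖h y‖ ≤ C := by
    have h1 : ∀ᵐ y : T2, ‖h y‖ₑ ≤ eLpNorm h ⊤ volume := by
      rw [eLpNorm_exponent_top]
      exact ae_le_eLpNormEssSup
    filter_upwards [h1] with y hy
    have h2 := ENNReal.toReal_mono hfin hy
    rw [toReal_enorm] at h2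
    exact h2
  have hzero : volume {x : T2 | C < ‖h x‖} = 0 := by
    have h3 := ae_iff.1 hae
    have h4 : {y : T2 | ¬ ‖h y‖ ≤ C} = {x : T2 | C < ‖h x‖} := by
      ext y
      simp only [not_le]
    rwa [h4] at h3
  have hemp := (hopen.measure_eq_zero_iff volume).1 hzero
  have : x ∈ {x : T2 | C < ‖h x‖} := hcon
  rw [hemp] at this
  exact this

/-- the normalisation -/
def DD (r : ℝ) (m n : ℕ) : ℝ := 8 * m.factorial * (Real.sqrt n * 4 ^ r)

lemma DD_pos (r : ℝ) (m n : ℕ) (hn : 1 ≤ n) : 0 < DD r m n := by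
  unfold DD
  have : (0 : ℝ) < Real.sqrt n := Real.sqrt_pos.2 (by exact_mod_cast hn)
  positivity

lemma norm_le_one (r : ℝ) (K n m : ℕ) (hn : 1 ≤ n) (hm : 1 ≤ m) (a : ℕ → (Fin 2 → ℤ) → ℂ)
    (h : ∫ x : T2, |(TT K n a x).re| ^ m
      ≤ 2 * (4 * m.factorial * (Real.sqrt ((n : ℝ) * (4 ^ r) ^ 2)) ^ m)) :
    eLpNorm (fun x : T2 => (TT K n a x).re / DD r m n) (m : ℝ≥0∞) volume ≤ 1 := by
  have hD := DD_pos r m n hn
  have hcont : Continuous (fun x : T2 => (TT K n a x).re / DD r m n) := by fun_prop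
  have hmem : MemLp (fun x : T2 => (TT K n a x).re / DD r m n) (m : ℝ≥0∞) volume :=
    hcont.memLp_of_hasCompactSupport (HasCompactSupport.of_compactSpace _)
  have hm0 : (m : ℝ≥0∞) ≠ 0 := by
    simp only [ne_eq, Nat.cast_eq_zero]
    omega
  rw [hmem.eLpNorm_eq_integral_rpow_norm hm0 (ENNReal.natCast_ne_top m)]
  rw [ENNReal.toReal_natCast]
  have h1 : ∫ x : T2, ‖(TT K n a x).re / DD r m n‖ ^ (m : ℝ) ≤ 1 := by
    have h2 : ∀ x : T2, ‖(TT K n a x).re / DD r m n‖ ^ (m : ℝ)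
        = (1 / DD r m n ^ m) * |(TT K n a x).re| ^ m := by
      intro x
      rw [Real.rpow_natCast, Real.norm_eq_abs, abs_div, abs_of_pos hD, div_pow]
      ring
    simp only [h2]
    rw [integral_const_mul]
    have hs : Real.sqrt ((n : ℝ) * (4 ^ r) ^ 2) = Real.sqrt n * 4 ^ r := by
      rw [Real.sqrt_mul (Nat.cast_nonneg n), Real.sqrt_sq (by positivity)]
    rw [hs] at h
    have hsp : 0 < Real.sqrt n * (4 : ℝ) ^ r := by
      have : (0 : ℝ) < Real.sqrt n := Real.sqrt_pos.2 (by exact_mod_cast hn)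
      positivity
    have h3 : (1 / DD r m n ^ m) * ∫ x : T2, |(TT K n a x).re| ^ m
        ≤ (1 / DD r m n ^ m) * (2 * (4 * m.factorial * (Real.sqrt n * 4 ^ r) ^ m)) :=
      mul_le_mul_of_nonneg_left h (by positivity)
    refine h3.trans ?_
    have h4 : DD r m n ^ m = (8 * m.factorial : ℝ) ^ m * (Real.sqrt n * 4 ^ r) ^ m := by
      unfold DD
      rw [mul_pow]
    rw [h4]
    have hf : (1 : ℝ) ≤ 8 * m.factorial := by
      have : (1 : ℝ) ≤ m.factorial := by exact_mod_cast Nat.factorial_pos m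
      linarith
    have h5 : (8 * m.factorial : ℝ) ≤ (8 * m.factorial : ℝ) ^ m := by
      have := pow_le_pow_right₀ hf hm
      rwa [pow_one] at this
    rw [div_mul_eq_mul_div, one_mul, div_le_one (by positivity)]
    have h6 : 0 < (Real.sqrt n * (4 : ℝ) ^ r) ^ m := by positivity
    nlinarith
  have h7 : (∫ x : T2, ‖(TT K n a x).re / DD r m n‖ ^ (m : ℝ)) ^ ((m : ℝ))⁻¹ ≤ 1 := by
    refine Real.rpow_le_one (integral_nonneg (fun x => by positivity)) h1 (by positivity)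
  exact ENNReal.ofReal_le_one.2 h7

/-- the extremal function for given parameters -/
theorem construct (r : ℝ) (hr : 0 < r) (m : ℕ) (hm : 1 ≤ m) (K s : ℕ) (hK : 2 ≤ K)
    (hn : JJ K * s ≤ K + 1) (hs : 1 ≤ s) :
    ∃ F P : C(T2, ℂ), (∀ x, (F x).im = 0) ∧ (∀ x, (P x).im = 0) ∧
      (∀ l, co F l = (∏ i, cr r (l i)) * co P l) ∧
      eLpNorm (fun x : T2 => (P x).re) (m : ℝ≥0∞) volume ≤ 1 ∧
      ∀ (L : Finset (Fin 2 → ℤ)) (d : (Fin 2 → ℤ) → ℂ) (U : ℝ), 8 * #L ≤ n2 K * (JJ K * s) →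
        (∀ x, ‖F x - ∑ k ∈ L, d k * mFourier k x‖ ≤ U) →
        (8 ^ (K + 2) : ℝ) ^ (-r) / DD r m (JJ K * s) * (s / 98304) ≤ U := by
  obtain ⟨ε, hε, hint⟩ := exists_good r hr K s hK hn hs m
  have hn1 : 1 ≤ JJ K * s := Nat.mul_pos (by unfold JJ; omega) hs
  have hnorm := norm_le_one r K (JJ K * s) m hn1 hm (pa r K (ext ε)) hint
  clear hint
  have hD := DD_pos r m (JJ K * s) hn1
  set D := DD r m (JJ K * s) with hDdef
  set α : ℝ := (8 ^ (K + 2) : ℝ) ^ (-r) / D with hα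
  have hαpos : 0 < α := by positivity
  refine ⟨(α : ℂ) • TT K (JJ K * s) (aa K (ext ε)), ((1 / D : ℝ) : ℂ) • TT K (JJ K * s) (pa r K (ext ε)),
    ?_, ?_, ?_, ?_, ?_⟩
  · intro x
    rw [ContinuousMap.smul_apply, smul_eq_mul, Complex.im_ofReal_mul, TT_real, mul_zero]
  · intro x
    rw [ContinuousMap.smul_apply, smul_eq_mul, Complex.im_ofReal_mul, TT_real, mul_zero]
  · intro l
    rw [co_smul, co_smul]
    have h1 := member r K (JJ K * s) (ext ε) l
    have h2 : (α : ℂ) = ((1 / D : ℝ) : ℂ) * (((8 ^ (K + 2) : ℝ) ^ (-r) : ℝ) : ℂ) := by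
      rw [← Complex.ofReal_mul]
      congr 1
      rw [hα]
      ring
    rw [h2, mul_assoc, h1]
    ring
  · have h1 : (fun x : T2 => ((((1 / D : ℝ) : ℂ) • TT K (JJ K * s) (pa r K (ext ε))) x).re)
        = fun x : T2 => (TT K (JJ K * s) (pa r K (ext ε)) x).re / D := by
      funext x
      rw [ContinuousMap.smul_apply, smul_eq_mul, Complex.re_ofReal_mul]
      ring
    rw [h1]
    exact hnorm
  · intro L d U hL hU
    have h1 : ∀ x, ‖(TT K (JJ K * s) (aa K (ext ε)) - tp L (fun k => (α : ℂ)⁻¹ * d k)) x‖ ≤ U / α := by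
      intro x
      rw [le_div_iff₀ hαpos]
      have h2 := hU x
      have h3 : ((α : ℂ) • TT K (JJ K * s) (aa K (ext ε))) x - ∑ k ∈ L, d k * mFourier k x
          = (α : ℂ) * (TT K (JJ K * s) (aa K (ext ε)) - tp L (fun k => (α : ℂ)⁻¹ * d k)) x := by
        have hα' : (α : ℂ) ≠ 0 := by exact_mod_cast hαpos.ne'
        rw [ContinuousMap.smul_apply, smul_eq_mul, ContinuousMap.sub_apply, tp_apply, mul_sub,
          Finset.mul_sum]
        congr 1
        refine Finset.sum_congr rfl (fun k _ => ?_)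
        field_simp
      rw [h3, norm_mul, Complex.norm_real, Real.norm_eq_abs, abs_of_pos hαpos] at h2
      rw [mul_comm]
      exact h2
    have h4 := sup_lower K s hK hn hs ε hε L hL (fun k => (α : ℂ)⁻¹ * d k) (U / α) h1
    rw [le_div_iff₀ hαpos] at h4
    linarith

end

end Pool.Agent.H75.MT
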