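import Pool.Agent.H75.MT.Construct

set_option autoImplicit false
set_option linter.unusedSectionVars false

/-! Translation of the parameters. -/

open Finset

namespace Pool.Agent.H75.MT

noncomputable section

lemma pow_aux : ∀ k : ℕ, 3 * (k + 6) + 23 ≤ 2 ^ (k + 6) := by
  intro k
  induction k with
  | zero => norm_num
  | succ k ih =>
    have : 2 ^ (k + 1 + 6) = 2 ^ (k + 6) * 2 := by
      rw [← pow_succ]
    omega

lemma J_le (K : ℕ) (hK : 62 ≤ K) : JJ K ≤ K + 1 := by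
  unfold JJ
  have h1 : 6 ≤ Nat.log 2 (K + 2) := by
    refine Nat.le_log_of_pow_le (by norm_num) ?_
    norm_num
    omega
  have h2 : 2 ^ Nat.log 2 (K + 2) ≤ K + 2 := Nat.pow_log_le_self 2 (by omega)
  have h3 := pow_aux (Nat.log 2 (K + 2) - 6)
  have h4 : Nat.log 2 (K + 2) - 6 + 6 = Nat.log 2 (K + 2) := by omega
  rw [h4] at h3
  omega

lemma log_ge_one (K : ℕ) (hK : 3 ≤ K) : 1 ≤ Real.log K := by
  have hK' : (3 : ℝ) ≤ K := by exact_mod_cast hK
  rw [Real.le_log_iff_exp_le (by linarith)]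
  have := Real.exp_one_lt_d9
  linarith

lemma J_log (K : ℕ) (hK : 3 ≤ K) : (JJ K : ℝ) ≤ 31 * Real.log K := by
  have hK' : (3 : ℝ) ≤ K := by exact_mod_cast hK
  have h1 := log_ge_one K hK
  have h2 : ((Nat.log 2 (K + 2) : ℕ) : ℝ) ≤ Real.logb 2 ((K + 2 : ℕ) : ℝ) := by
    have := Real.natLog_le_logb (K + 2) 2
    exact_mod_cast this
  have h3 : Real.log ((K + 2 : ℕ) : ℝ) ≤ 2 * Real.log K := by
    have h4 : 2 * Real.log K = Real.log ((K : ℝ) ^ 2) := by
      rw [Real.log_pow]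
      norm_num
    rw [h4]
    refine Real.log_le_log (by positivity) ?_
    push_cast
    nlinarith
  have h5 := Real.log_two_gt_d9
  have h6 : Real.logb 2 ((K + 2 : ℕ) : ℝ) ≤ 3 * Real.log K := by
    unfold Real.logb
    rw [div_le_iff₀ (by linarith)]
    nlinarith
  unfold JJ
  push_cast
  linarith

lemma params (m : ℕ) (hm : 8 ^ 70 * 71 ≤ m) :
    ∃ K s : ℕ, 70 ≤ K ∧ JJ K * s ≤ K + 1 ∧ 1 ≤ s ∧ K + 1 ≤ 2 * (JJ K * s) ∧
      8 * m ≤ n2 K * (JJ K * s) ∧ 256 * m ≤ 8 ^ K * (K + 1) ∧ 8 ^ K * K ≤ 2048 * m := by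
  classical
  have hex : ∃ K : ℕ, 256 * m ≤ 8 ^ K * (K + 1) := by
    refine ⟨256 * m, ?_⟩
    have h1 : 1 ≤ 8 ^ (256 * m) := Nat.one_le_pow _ _ (by norm_num)
    nlinarith
  obtain ⟨K, hKspec, hKmin⟩ : ∃ K, 256 * m ≤ 8 ^ K * (K + 1)
      ∧ ∀ k < K, ¬ 256 * m ≤ 8 ^ k * (k + 1) :=
    ⟨Nat.find hex, Nat.find_spec hex, fun k hk => Nat.find_min hex hk⟩
  have hK70 : 70 < K := by
    by_contra hcon
    push Not at hcon
    have h1 : 8 ^ K * (K + 1) ≤ 8 ^ 70 * (70 + 1) :=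
      Nat.mul_le_mul (Nat.pow_le_pow_right (by norm_num) hcon) (by omega)
    have h2 : 0 < 8 ^ 70 * 71 := by positivity
    omega
  have hJ := J_le K (by omega)
  have hJpos : 0 < JJ K := by unfold JJ; omega
  have hprev := hKmin (K - 1) (by omega)
  push Not at hprev
  have e1 : K - 1 + 1 = K := by omega
  rw [e1] at hprev
  have e2 : 8 ^ K = 8 ^ (K - 1) * 8 := by
    rw [← pow_succ, e1]
  refine ⟨K, (K + 1) / JJ K, by omega, Nat.mul_div_le _ _, Nat.div_pos hJ hJpos, ?_, ?_,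
    hKspec, ?_⟩
  · have h3 := Nat.div_add_mod (K + 1) (JJ K)
    have h4 := Nat.mod_lt (K + 1) hJpos
    have h5 : 1 ≤ (K + 1) / JJ K := Nat.div_pos hJ hJpos
    have h6 : JJ K * 1 ≤ JJ K * ((K + 1) / JJ K) := Nat.mul_le_mul_left _ h5
    omega
  · have h3 := Nat.div_add_mod (K + 1) (JJ K)
    have h4 := Nat.mod_lt (K + 1) hJpos
    have h5 : 1 ≤ (K + 1) / JJ K := Nat.div_pos hJ hJpos
    have h6 : JJ K * 1 ≤ JJ K * ((K + 1) / JJ K) := Nat.mul_le_mul_left _ h5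
    have h7 : K + 1 ≤ 2 * (JJ K * ((K + 1) / JJ K)) := by omega
    have h8 : 8 ^ K = 16 * n2 K := by
      unfold n2
      have : K = K - 2 + 2 := by omega
      conv_lhs => rw [this, pow_add]
      ring
    have h9 : 8 ^ K * (K + 1) ≤ 8 ^ K * (2 * (JJ K * ((K + 1) / JJ K))) :=
      Nat.mul_le_mul_left _ h7
    rw [h8] at h9 hKspec
    have h10 : 16 * n2 K * (2 * (JJ K * ((K + 1) / JJ K)))
        = 32 * (n2 K * (JJ K * ((K + 1) / JJ K))) := by ring
    omega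
  · rw [e2]
    have : 8 ^ (K - 1) * 8 * K = 8 * (8 ^ (K - 1) * K) := by ring
    omega

/-- comparison of the two sides -/
lemma compare (r : ℝ) (hr : 0 < r) (mp m K s : ℕ) (hK : 70 ≤ K) (hs : 1 ≤ s)
    (h2 : K + 1 ≤ 2 * (JJ K * s)) (h3 : 256 * m ≤ 8 ^ K * (K + 1)) (h4 : 8 ^ K * K ≤ 2048 * m) :
    (64 : ℝ) ^ (-r) / (8 * mp.factorial * 4 ^ r * 98304 * 62 * (2048 ^ r * 4 ^ (r + 1 / 2)))
      * (m : ℝ) ^ (-r) * (Real.log m) ^ (r + 1 / 2) / Real.log (Real.log m)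
    ≤ (8 ^ (K + 2) : ℝ) ^ (-r) / DD r mp (JJ K * s) * (s / 98304) := by
  have hK' : (70 : ℝ) ≤ K := by exact_mod_cast hK
  have h4' : (8 : ℝ) ^ K * (K : ℝ) ≤ 2048 * m := by exact_mod_cast h4
  have h3' : 256 * (m : ℝ) ≤ 8 ^ K * ((K : ℝ) + 1) := by exact_mod_cast h3
  have h2'' : (K : ℝ) + 1 ≤ 2 * ((JJ K : ℝ) * s) := by exact_mod_cast h2
  set k : ℝ := (K : ℝ) with hk
  have hk0 : 0 < k := by linarith
  have hP : (0 : ℝ) < 8 ^ K := by positivity
  have hm0 : (0 : ℝ) < m := by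
    have : 0 < 8 ^ K * k := by positivity
    linarith
  have hlogk : 1 ≤ Real.log k := log_ge_one K (by omega)
  have hl2a := Real.log_two_gt_d9
  have hl2b := Real.log_two_lt_d9
  have hlog8 : Real.log ((8 : ℝ) ^ K) = k * (3 * Real.log 2) := by
    rw [Real.log_pow, show (8 : ℝ) = 2 ^ 3 by norm_num, Real.log_pow]
    norm_num
    rfl
  -- upper bound for the logarithm
  have hlogm : Real.log m ≤ 4 * k := by
    have h5 : (m : ℝ) ≤ 8 ^ K * (k + 1) := by linarith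
    have h6 := Real.log_le_log hm0 h5
    rw [Real.log_mul hP.ne' (by linarith), hlog8] at h6
    have h7 : Real.log (k + 1) ≤ k := by
      have := Real.log_le_sub_one_of_pos (show 0 < k + 1 by linarith)
      linarith
    nlinarith
  -- lower bound for the logarithm
  have hlogm2 : k ≤ Real.log m := by
    have h5 : 8 ^ K * k ≤ 2048 * (m : ℝ) := h4'
    have h6 := Real.log_le_log (by positivity) h5
    rw [Real.log_mul hP.ne' hk0.ne', Real.log_mul (by norm_num) hm0.ne', hlog8] at h6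
    have h7 : Real.log 2048 = 11 * Real.log 2 := by
      rw [show (2048 : ℝ) = 2 ^ 11 by norm_num, Real.log_pow]
      norm_num
    rw [h7] at h6
    nlinarith
  have hlogm0 : 0 < Real.log m := by linarith
  have hll : Real.log k ≤ Real.log (Real.log m) := Real.log_le_log hk0 hlogm2
  have hll0 : 0 < Real.log (Real.log m) := by linarith
  -- the power of `m`
  have hmr : (m : ℝ) ^ (-r) ≤ (8 ^ K : ℝ) ^ (-r) * k ^ (-r) * 2048 ^ r := by
    have h5 : (8 : ℝ) ^ K * k / 2048 ≤ m := by linarith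
    have h6 := Real.rpow_le_rpow_of_nonpos (z := -r) (show 0 < (8 : ℝ) ^ K * k / 2048 by positivity)
      h5 (by linarith)
    refine h6.trans (le_of_eq ?_)
    rw [Real.div_rpow (by positivity) (by norm_num), Real.mul_rpow hP.le hk0.le,
      Real.rpow_neg (show (0 : ℝ) ≤ 2048 by norm_num), div_inv_eq_mul]
  have hlr : (Real.log m) ^ (r + 1 / 2) ≤ 4 ^ (r + 1 / 2) * (k ^ r * Real.sqrt k) := by
    have h5 := Real.rpow_le_rpow hlogm0.le hlogm (show 0 ≤ r + 1 / 2 by linarith)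
    refine h5.trans (le_of_eq ?_)
    rw [Real.mul_rpow (by norm_num) hk0.le, Real.rpow_add hk0 r (1 / 2), Real.sqrt_eq_rpow]
  set A : ℝ := 2048 ^ r * 4 ^ (r + 1 / 2) with hA
  have hA0 : 0 < A := by positivity
  have hprod : (m : ℝ) ^ (-r) * (Real.log m) ^ (r + 1 / 2)
      ≤ (8 ^ K : ℝ) ^ (-r) * Real.sqrt k * A := by
    have h5 : (m : ℝ) ^ (-r) * (Real.log m) ^ (r + 1 / 2)
        ≤ ((8 ^ K : ℝ) ^ (-r) * k ^ (-r) * 2048 ^ r) * (4 ^ (r + 1 / 2) * (k ^ r * Real.sqrt k)) :=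
      mul_le_mul hmr hlr (by positivity) (by positivity)
    refine h5.trans (le_of_eq ?_)
    have h6 : k ^ (-r) * k ^ r = 1 := by
      rw [← Real.rpow_add hk0]
      simp
    rw [hA]
    linear_combination ((8 ^ K : ℝ) ^ (-r) * 2048 ^ r * 4 ^ (r + 1 / 2) * Real.sqrt k) * h6
  -- the other side
  set j : ℝ := (JJ K : ℝ) with hj
  have hj0 : 0 < j := by
    rw [hj]
    have : 0 < JJ K := by unfold JJ; omega
    exact_mod_cast this
  have hjlog : j ≤ 31 * Real.log k := J_log K (by omega)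
  have hs' : (1 : ℝ) ≤ s := by exact_mod_cast hs
  have hn : (((JJ K * s : ℕ)) : ℝ) = j * s := by push_cast; rfl
  have h2' : k + 1 ≤ 2 * (j * s) := h2''
  have hsq : Real.sqrt k * Real.sqrt (j * s) ≤ 2 * (j * s) := by
    rw [← Real.sqrt_mul hk0.le, Real.sqrt_le_left (by positivity)]
    have h5 : 0 < j * s := by positivity
    nlinarith
  have hsn : 0 < Real.sqrt (j * s) := Real.sqrt_pos.2 (by positivity)
  have hkey : Real.sqrt k / (62 * Real.log k) ≤ s / Real.sqrt (j * s) := by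
    rw [div_le_div_iff₀ (by positivity) hsn]
    refine hsq.trans ?_
    nlinarith
  have hRHS : (8 ^ (K + 2) : ℝ) ^ (-r) / DD r mp (JJ K * s) * (s / 98304)
      = (8 ^ K : ℝ) ^ (-r) * 64 ^ (-r) / (8 * mp.factorial * 4 ^ r * 98304)
        * (s / Real.sqrt (j * s)) := by
    unfold DD
    rw [hn]
    have h5 : (8 ^ (K + 2) : ℝ) = 8 ^ K * 64 := by
      rw [pow_add]
      norm_num
    rw [h5, Real.mul_rpow hP.le (by norm_num)]
    field_simp
  rw [hRHS]
  have hfac : (0 : ℝ) < mp.factorial := by exact_mod_cast Nat.factorial_pos mp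
  have hP2 : 0 < (8 ^ K : ℝ) ^ (-r) := Real.rpow_pos_of_pos hP _
  have h64 : (0 : ℝ) < 64 ^ (-r) := Real.rpow_pos_of_pos (by norm_num) _
  have h4r : (0 : ℝ) < 4 ^ r := Real.rpow_pos_of_pos (by norm_num) _
  have step1 : (64 : ℝ) ^ (-r) / (8 * mp.factorial * 4 ^ r * 98304 * 62 * A)
      * (m : ℝ) ^ (-r) * (Real.log m) ^ (r + 1 / 2) / Real.log (Real.log m)
      ≤ (64 : ℝ) ^ (-r) / (8 * mp.factorial * 4 ^ r * 98304 * 62 * A)
        * ((8 ^ K : ℝ) ^ (-r) * Real.sqrt k * A) / Real.log k := by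
    rw [mul_assoc ((64 : ℝ) ^ (-r) / (8 * mp.factorial * 4 ^ r * 98304 * 62 * A))]
    refine div_le_div₀ (by positivity) ?_ (by linarith) hll
    exact mul_le_mul_of_nonneg_left hprod (by positivity)
  refine step1.trans ?_
  have step2 : (64 : ℝ) ^ (-r) / (8 * mp.factorial * 4 ^ r * 98304 * 62 * A)
        * ((8 ^ K : ℝ) ^ (-r) * Real.sqrt k * A) / Real.log k
      = (8 ^ K : ℝ) ^ (-r) * 64 ^ (-r) / (8 * mp.factorial * 4 ^ r * 98304)
        * (Real.sqrt k / (62 * Real.log k)) := by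
    have : Real.log k ≠ 0 := by linarith
    field_simp
  rw [step2]
  exact mul_le_mul_of_nonneg_left hkey (by positivity)

end

end Pool.Agent.H75.MT
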