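import Mathlib

set_option autoImplicit false
set_option linter.unusedSectionVars false

/-! Sign vectors far from low dimensional spaces: separation, empirical averaging,
and the Sauer-Shelah bound. -/

open Finset

namespace Pool.Agent.H75.MT

variable {Y : Type*} [Fintype Y] [DecidableEq Y]

/-- the sign vector of a finite set -/
def sg (s : Finset Y) (y : Y) : ℝ := if y ∈ s then 1 else -1

/-- the sign pattern of a real vector -/
noncomputable def pat (f : Y → ℝ) : Finset Y := by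
  classical exact univ.filter (fun y => 0 < f y)

lemma mem_pat (f : Y → ℝ) (y : Y) : y ∈ pat f ↔ 0 < f y := by
  classical
  unfold pat
  simp

/-- sum of the first binomial coefficients -/
def bsum (N d : ℕ) : ℕ := ∑ k ∈ Finset.Iic d, N.choose k

lemma bsum_mono (N : ℕ) {d d' : ℕ} (h : d ≤ d') : bsum N d ≤ bsum N d' := by
  unfold bsum
  exact Finset.sum_le_sum_of_subset (Finset.Iic_subset_Iic.2 h)

lemma shatter_le (F : Submodule ℝ (Y → ℝ)) (𝒜 : Finset (Finset Y))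
    (h𝒜 : ∀ s ∈ 𝒜, ∃ f ∈ F, s = pat f) (T : Finset Y) (hT : 𝒜.Shatters T) :
    #T ≤ Module.finrank ℝ F := by
  classical
  by_contra hlt
  push Not at hlt
  let ρ : (Y → ℝ) →ₗ[ℝ] (T → ℝ) := LinearMap.funLeft ℝ ℝ (fun y : T => (y : Y))
  have h1 : Module.finrank ℝ (F.map ρ) ≤ Module.finrank ℝ F := Submodule.finrank_map_le ρ F
  have h2 : F.map ρ < ⊤ := by
    rw [lt_top_iff_ne_top]
    intro h
    rw [h, finrank_top] at h1
    simp at h1
    omega
  obtain ⟨φ, hφ0, hφ⟩ := Submodule.exists_le_ker_of_lt_top (F.map ρ) h2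
  let a : T → ℝ := fun y => φ (Pi.single y 1)
  have ha : ∀ g : T → ℝ, φ g = ∑ y, g y * a y := by
    intro g
    have : g = ∑ y, g y • (Pi.single y (1 : ℝ) : T → ℝ) := by
      ext z
      simp [Finset.sum_apply, Pi.single_apply]
    conv_lhs => rw [this]
    rw [map_sum]
    simp [a]
  have horth : ∀ f ∈ F, ∑ y : T, f y * a y = 0 := by
    intro f hf
    have h3 : φ (ρ f) = 0 := by
      have := hφ (Submodule.mem_map_of_mem hf)
      simpa using this
    rw [ha] at h3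
    exact h3
  have hex : ∃ y, a y ≠ 0 := by
    by_contra hcon
    push Not at hcon
    apply hφ0
    ext g
    simp [ha, hcon]
  -- choose a sign
  have key : ∀ b : T → ℝ, (∀ f ∈ F, ∑ y : T, f y * b y = 0) → (∃ y, 0 < b y) → False := by
    intro b hb hpos
    obtain ⟨y0, hy0⟩ := hpos
    let U : Finset Y := (univ.filter (fun y : T => 0 < b y)).image (fun y : T => (y : Y))
    have hU : U ⊆ T := by
      intro y hy
      simp only [U, mem_image, mem_filter, mem_univ, true_and] at hy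
      obtain ⟨z, -, rfl⟩ := hy
      exact z.2
    obtain ⟨s, hs, hsU⟩ := hT hU
    obtain ⟨f, hf, rfl⟩ := h𝒜 s hs
    have hmem : ∀ y : T, 0 < f y ↔ 0 < b y := by
      intro y
      have h4 : ((y : Y) ∈ T ∩ pat f) ↔ (y : Y) ∈ U := by rw [hsU]
      rw [mem_inter, mem_pat] at h4
      have h5 : (y : Y) ∈ U ↔ 0 < b y := by
        simp only [U, mem_image, mem_filter, mem_univ, true_and]
        constructor
        · rintro ⟨z, hz, hzy⟩
          have : z = y := Subtype.ext hzy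
          rwa [this] at hz
        · intro h
          exact ⟨y, h, rfl⟩
      rw [← h5, ← h4]
      simp
    have hsum := hb f hf
    have hnn : ∀ y : T, 0 ≤ f y * b y := by
      intro y
      by_cases h : 0 < b y
      · exact mul_nonneg ((hmem y).2 h).le h.le
      · have h' : ¬ 0 < f y := fun h'' => h ((hmem y).1 h'')
        push Not at h h'
        exact mul_nonneg_of_nonpos_of_nonpos h' h
    have h6 := (Finset.sum_eq_zero_iff_of_nonneg (fun y _ => hnn y)).1 hsum y0 (mem_univ _)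
    have h7 : 0 < f y0 * b y0 := mul_pos ((hmem y0).2 hy0) hy0
    linarith
  obtain ⟨y, hy⟩ := hex
  rcases lt_or_gt_of_ne hy with h | h
  · refine key (fun y => - a y) (fun f hf => ?_) ⟨y, by simpa using h⟩
    have := horth f hf
    simp only [mul_neg, Finset.sum_neg_distrib, this, neg_zero]
  · exact key a horth ⟨y, h⟩

lemma card_pat_le (F : Submodule ℝ (Y → ℝ)) (d : ℕ) (hd : Module.finrank ℝ F ≤ d)
    (𝒜 : Finset (Finset Y)) (h𝒜 : ∀ s ∈ 𝒜, ∃ f ∈ F, s = pat f) :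
    #𝒜 ≤ bsum (Fintype.card Y) d := by
  refine (Finset.card_le_card_shatterer 𝒜).trans ((Finset.card_shatterer_le_sum_vcDim).trans ?_)
  refine bsum_mono _ ?_
  refine le_trans ?_ hd
  unfold Finset.vcDim
  refine Finset.sup_le ?_
  intro T hT
  exact shatter_le F 𝒜 h𝒜 T (Finset.mem_shatterer.1 hT)

section Separation

variable {ι : Type*} [Fintype ι]

/-- value of the dual problem -/
noncomputable def dval (F0 : Submodule ℝ (Y → ℝ)) (w : ι → Y → ℝ) (τ : ℝ) (u : Y → ℝ)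
    (z : F0 × (ι → ℝ)) : ℝ :=
  ∑ y, |u y - (z.1 : Y → ℝ) y - ∑ i, z.2 i * w i y| + τ * ∑ i, |z.2 i|

lemma dval_nonneg (F0 : Submodule ℝ (Y → ℝ)) (w : ι → Y → ℝ) (τ : ℝ) (hτ : 0 ≤ τ) (u : Y → ℝ)
    (z : F0 × (ι → ℝ)) : 0 ≤ dval F0 w τ u z := by
  unfold dval
  positivity

lemma dval_smul (F0 : Submodule ℝ (Y → ℝ)) (w : ι → Y → ℝ) (τ : ℝ) (u : Y → ℝ)
    (z : F0 × (ι → ℝ)) (c : ℝ) (hc : 0 ≤ c) : dval F0 w τ (c • u) (c • z) = c * dval F0 w τ u z := by
  unfold dval
  simp only [Pi.smul_apply, smul_eq_mul, Prod.smul_fst, Prod.smul_snd, Submodule.coe_smul]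
  have h1 : ∑ y, |c * u y - c * (z.1 : Y → ℝ) y - ∑ i, c * z.2 i * w i y|
      = c * ∑ y, |u y - (z.1 : Y → ℝ) y - ∑ i, z.2 i * w i y| := by
    rw [Finset.mul_sum]
    refine Finset.sum_congr rfl (fun y _ => ?_)
    have : c * u y - c * (z.1 : Y → ℝ) y - ∑ i, c * z.2 i * w i y
        = c * (u y - (z.1 : Y → ℝ) y - ∑ i, z.2 i * w i y) := by
      rw [mul_sub, mul_sub, Finset.mul_sum]
      simp only [mul_assoc]
    rw [this, abs_mul, abs_of_nonneg hc]
  have h2 : ∑ i, |c * z.2 i| = c * ∑ i, |z.2 i| := by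
    rw [Finset.mul_sum]
    refine Finset.sum_congr rfl (fun i _ => ?_)
    rw [abs_mul, abs_of_nonneg hc]
  rw [h1, h2]
  ring

lemma dval_add (F0 : Submodule ℝ (Y → ℝ)) (w : ι → Y → ℝ) (τ : ℝ) (hτ : 0 ≤ τ) (u v : Y → ℝ)
    (z z' : F0 × (ι → ℝ)) :
    dval F0 w τ (u + v) (z + z') ≤ dval F0 w τ u z + dval F0 w τ v z' := by
  unfold dval
  simp only [Pi.add_apply, Prod.fst_add, Prod.snd_add, Submodule.coe_add]
  have h1 : ∑ y, |u y + v y - ((z.1 : Y → ℝ) y + (z'.1 : Y → ℝ) y) - ∑ i, (z.2 i + z'.2 i) * w i y|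
      ≤ ∑ y, (|u y - (z.1 : Y → ℝ) y - ∑ i, z.2 i * w i y|
        + |v y - (z'.1 : Y → ℝ) y - ∑ i, z'.2 i * w i y|) := by
    refine Finset.sum_le_sum (fun y _ => ?_)
    have : u y + v y - ((z.1 : Y → ℝ) y + (z'.1 : Y → ℝ) y) - ∑ i, (z.2 i + z'.2 i) * w i y
        = (u y - (z.1 : Y → ℝ) y - ∑ i, z.2 i * w i y)
          + (v y - (z'.1 : Y → ℝ) y - ∑ i, z'.2 i * w i y) := by
      simp only [add_mul, Finset.sum_add_distrib]
      ring
    rw [this]
    exact abs_add_le _ _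
  have h2 : ∑ i, |z.2 i + z'.2 i| ≤ ∑ i, |z.2 i| + ∑ i, |z'.2 i| := by
    rw [← Finset.sum_add_distrib]
    exact Finset.sum_le_sum (fun i _ => abs_add_le _ _)
  rw [Finset.sum_add_distrib] at h1
  have h3 := mul_le_mul_of_nonneg_left h2 hτ
  linarith

/-- the dual sublinear functional -/
noncomputable def dinf (F0 : Submodule ℝ (Y → ℝ)) (w : ι → Y → ℝ) (τ : ℝ) (u : Y → ℝ) : ℝ :=
  ⨅ z : F0 × (ι → ℝ), dval F0 w τ u z

lemma dinf_le (F0 : Submodule ℝ (Y → ℝ)) (w : ι → Y → ℝ) (τ : ℝ) (hτ : 0 ≤ τ) (u : Y → ℝ)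
    (z : F0 × (ι → ℝ)) : dinf F0 w τ u ≤ dval F0 w τ u z := by
  unfold dinf
  refine ciInf_le ⟨0, ?_⟩ z
  rintro _ ⟨z', rfl⟩
  exact dval_nonneg F0 w τ hτ u z'

lemma dinf_nonneg (F0 : Submodule ℝ (Y → ℝ)) (w : ι → Y → ℝ) (τ : ℝ) (hτ : 0 ≤ τ) (u : Y → ℝ) :
    0 ≤ dinf F0 w τ u := le_ciInf (fun z => dval_nonneg F0 w τ hτ u z)

lemma dinf_smul_le (F0 : Submodule ℝ (Y → ℝ)) (w : ι → Y → ℝ) (τ : ℝ) (hτ : 0 ≤ τ) (u : Y → ℝ)
    (c : ℝ) (hc : 0 < c) : dinf F0 w τ (c • u) ≤ c * dinf F0 w τ u := by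
  have : c⁻¹ * dinf F0 w τ (c • u) ≤ dinf F0 w τ u := by
    refine le_ciInf (fun z => ?_)
    rw [inv_mul_le_iff₀ hc, ← dval_smul F0 w τ u z c hc.le]
    exact dinf_le F0 w τ hτ _ _
  rwa [inv_mul_le_iff₀ hc] at this

lemma dinf_smul (F0 : Submodule ℝ (Y → ℝ)) (w : ι → Y → ℝ) (τ : ℝ) (hτ : 0 ≤ τ) 
    (c : ℝ) (hc : 0 < c) (u : Y → ℝ) : dinf F0 w τ (c • u) = c * dinf F0 w τ u := by
  refine le_antisymm (dinf_smul_le F0 w τ hτ u c hc) ?_
  have h := dinf_smul_le F0 w τ hτ (c • u) c⁻¹ (inv_pos.2 hc)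
  rw [smul_smul, inv_mul_cancel₀ hc.ne', one_smul] at h
  rwa [← div_eq_inv_mul, le_div_iff₀ hc, mul_comm] at h

lemma sep (F0 : Submodule ℝ (Y → ℝ)) (w : ι → Y → ℝ) (e : Y → ℝ) (τ c : ℝ) (hτ : 0 ≤ τ)
    (hc : 0 < c)
    (hno : ¬ ∃ h : Y → ℝ, (∀ y, |h y| ≤ 1) ∧ (∀ f ∈ F0, ∑ y, h y * f y = 0) ∧
      (∀ i, |∑ y, h y * w i y| ≤ τ) ∧ c ≤ ∑ y, h y * e y) :
    ∃ f ∈ F0, ∃ l : ι → ℝ, ∑ y, |e y - f y - ∑ i, l i * w i y| + τ * ∑ i, |l i| < c := by
  classical
  by_contra hcon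
  push Not at hcon
  apply hno
  have hpe : c ≤ dinf F0 w τ e := by
    refine le_ciInf (fun z => ?_)
    exact hcon z.1 z.1.2 z.2
  have he : e ≠ 0 := by
    rintro rfl
    have h0 := hcon 0 (Submodule.zero_mem _) 0
    simp at h0
    linarith
  obtain ⟨g, hg1, hg2⟩ := exists_extension_of_le_sublinear
    (LinearPMap.mkSpanSingleton (K := ℝ) e (dinf F0 w τ e) he) (dinf F0 w τ)
    (fun c hc x => dinf_smul F0 w τ hτ c hc x)
    (fun x y => by
      unfold dinf
      refine le_ciInf_add_ciInf (fun z z' => ?_)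
      exact (dinf_le F0 w τ hτ (x + y) (z + z')).trans (dval_add F0 w τ hτ x y z z'))
    (by
      rintro ⟨x, hx⟩
      obtain ⟨a, rfl⟩ := Submodule.mem_span_singleton.1 hx
      have h0 : (LinearPMap.mkSpanSingleton (K := ℝ) e (dinf F0 w τ e) he) ⟨a • e, hx⟩
          = a • dinf F0 w τ e := LinearPMap.mkSpanSingleton'_apply e _ _ a hx
      rw [h0]
      show a • dinf F0 w τ e ≤ dinf F0 w τ (a • e)
      rcases lt_or_ge 0 a with ha | ha
      · rw [dinf_smul F0 w τ hτ a ha, smul_eq_mul]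
      · have h1 : a * dinf F0 w τ e ≤ 0 :=
          mul_nonpos_of_nonpos_of_nonneg ha (dinf_nonneg F0 w τ hτ e)
        exact h1.trans (dinf_nonneg F0 w τ hτ _))
  have hge : g e = dinf F0 w τ e := by
    have h1 := hg1 ⟨e, Submodule.mem_span_singleton_self e⟩
    rw [h1]
    exact LinearPMap.mkSpanSingleton'_apply_self e _ _ _
  have hneg : ∀ u : Y → ℝ, ∀ b : ℝ, dinf F0 w τ u ≤ b → dinf F0 w τ (-u) ≤ b → |g u| ≤ b := by
    intro u b h1 h2
    rw [abs_le]
    have h3 := (hg2 (-u)).trans h2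
    rw [map_neg] at h3
    exact ⟨by linarith, (hg2 u).trans h1⟩
  have hrep : ∀ u : Y → ℝ, g u = ∑ y, g (Pi.single y 1) * u y := by
    intro u
    have : u = ∑ y, u y • (Pi.single y (1 : ℝ) : Y → ℝ) := by
      ext z
      simp [Finset.sum_apply, Pi.single_apply]
    conv_lhs => rw [this]
    rw [map_sum]
    refine Finset.sum_congr rfl (fun y _ => ?_)
    rw [map_smul, smul_eq_mul, mul_comm]
  refine ⟨fun y => g (Pi.single y 1), ?_, ?_, ?_, ?_⟩
  · intro y
    refine hneg _ 1 ?_ ?_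
    · refine (dinf_le F0 w τ hτ _ 0).trans ?_
      unfold dval
      simp [Pi.single_apply, apply_ite abs, Finset.sum_ite_eq']
    · refine (dinf_le F0 w τ hτ _ 0).trans ?_
      unfold dval
      simp [Pi.single_apply, apply_ite abs, Finset.sum_ite_eq']
  · intro f hf
    rw [← hrep]
    have h1 : |g f| ≤ 0 := by
      refine hneg _ 0 ?_ ?_
      · refine (dinf_le F0 w τ hτ _ (⟨f, hf⟩, 0)).trans ?_
        unfold dval
        simp
      · refine (dinf_le F0 w τ hτ _ (-⟨f, hf⟩, 0)).trans ?_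
        unfold dval
        simp
    exact abs_nonpos_iff.1 h1
  · intro i
    rw [← hrep]
    refine hneg _ τ ?_ ?_
    · refine (dinf_le F0 w τ hτ _ (0, Pi.single i 1)).trans ?_
      unfold dval
      simp [Pi.single_apply, apply_ite abs, Finset.sum_ite_eq']
    · refine (dinf_le F0 w τ hτ _ (0, Pi.single i (-1))).trans ?_
      unfold dval
      simp [Pi.single_apply, apply_ite abs, Finset.sum_ite_eq']
  · rw [← hrep, hge]
    exact hpe

lemma maurey_step (w : ι → Y → ℝ) (W : ℝ) (hw : ∀ i, ∑ y, (w i y) ^ 2 ≤ W) (l : ι → ℝ)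
    (hl : 0 < ∑ i, |l i|) (r : Y → ℝ) :
    ∃ i, ∑ y, (r y + ∑ j, l j * w j y - SignType.sign (l i) * (∑ j, |l j|) * w i y) ^ 2
      ≤ ∑ y, (r y) ^ 2 + (∑ j, |l j|) ^ 2 * W := by
  set L := ∑ j, |l j| with hL
  clear_value L
  set v : Y → ℝ := fun y => ∑ j, l j * w j y with hv
  by_contra hcon
  push Not at hcon
  have h1 : ∑ i, |l i| * (∑ y, (r y) ^ 2 + L ^ 2 * W)
      < ∑ i, |l i| * ∑ y, (r y + v y - SignType.sign (l i) * L * w i y) ^ 2 := by
    refine Finset.sum_lt_sum (fun i _ => ?_) ?_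
    · exact mul_le_mul_of_nonneg_left (hcon i).le (abs_nonneg _)
    · obtain ⟨i, hi, hi2⟩ := Finset.exists_lt_of_sum_lt (s := univ) (f := fun _ : ι => (0 : ℝ))
        (g := fun i => |l i|) (by rw [← hL]; simpa using hl)
      exact ⟨i, hi, mul_lt_mul_of_pos_left (hcon i) hi2⟩
  rw [← Finset.sum_mul] at h1
  have h2 : ∑ i, |l i| * ∑ y, (r y + v y - SignType.sign (l i) * L * w i y) ^ 2
      = ∑ y, (L * (r y + v y) ^ 2 - 2 * (r y + v y) * (L * v y))
        + L ^ 2 * ∑ i, |l i| * ∑ y, (w i y) ^ 2 := by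
    have h3 : ∀ i, |l i| * ∑ y, (r y + v y - SignType.sign (l i) * L * w i y) ^ 2
        = ∑ y, (|l i| * (r y + v y) ^ 2 - 2 * (r y + v y) * (L * (l i * w i y)))
          + L ^ 2 * (|l i| * ∑ y, (w i y) ^ 2) := by
      intro i
      have e1 : L ^ 2 * (|l i| * ∑ y, (w i y) ^ 2) = ∑ y, L ^ 2 * (|l i| * (w i y) ^ 2) := by
        rw [Finset.mul_sum, Finset.mul_sum]
      rw [e1, ← Finset.sum_add_distrib, Finset.mul_sum univ _ |l i|]
      refine Finset.sum_congr rfl (fun y _ => ?_)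
      have h4 : |l i| * (SignType.sign (l i) : ℝ) = l i := abs_mul_sign (l i)
      have h5 : |l i| * (SignType.sign (l i) : ℝ) ^ 2 = |l i| := by
        rw [pow_two, ← mul_assoc, h4]
        exact self_mul_sign (l i)
      linear_combination (-2 * (r y + v y) * L * w i y) * h4 + (L ^ 2 * (w i y) ^ 2) * h5
    rw [Finset.sum_congr rfl (fun i _ => h3 i), Finset.sum_add_distrib, ← Finset.mul_sum]
    congr 1
    rw [Finset.sum_comm]
    refine Finset.sum_congr rfl (fun y _ => ?_)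
    rw [Finset.sum_sub_distrib, ← Finset.sum_mul, ← Finset.mul_sum, ← Finset.mul_sum, ← hL]
  rw [h2, ← hL] at h1
  have h6 : ∑ i, |l i| * ∑ y, (w i y) ^ 2 ≤ L * W := by
    rw [hL, Finset.sum_mul]
    exact Finset.sum_le_sum (fun i _ => mul_le_mul_of_nonneg_left (hw i) (abs_nonneg _))
  have h7 : ∑ y, (L * (r y + v y) ^ 2 - 2 * (r y + v y) * (L * v y))
      = L * ∑ y, (r y) ^ 2 - L * ∑ y, (v y) ^ 2 := by
    rw [Finset.mul_sum, Finset.mul_sum, ← Finset.sum_sub_distrib]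
    refine Finset.sum_congr rfl (fun y _ => ?_)
    ring
  rw [h7] at h1
  have h8 : 0 ≤ ∑ y, (v y) ^ 2 := Finset.sum_nonneg (fun y _ => sq_nonneg _)
  have h9 := mul_le_mul_of_nonneg_left h6 (sq_nonneg L)
  have h10 := mul_nonneg hl.le h8
  nlinarith

lemma maurey_iter (w : ι → Y → ℝ) (W : ℝ) (hw : ∀ i, ∑ y, (w i y) ^ 2 ≤ W) (l : ι → ℝ)
    (hl : 0 < ∑ i, |l i|) (k : ℕ) :
    ∃ σ : Fin k → ι, ∃ v ∈ Submodule.span ℝ (Set.range (fun a => w (σ a))),
      ∑ y, (k * (∑ j, l j * w j y) - v y) ^ 2 ≤ k * ((∑ j, |l j|) ^ 2 * W) := by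
  induction k with
  | zero =>
    refine ⟨Fin.elim0, 0, Submodule.zero_mem _, ?_⟩
    simp
  | succ k ih =>
    obtain ⟨σ, v, hv, hb⟩ := ih
    obtain ⟨i, hi⟩ := maurey_step w W hw l hl (fun y => k * (∑ j, l j * w j y) - v y)
    refine ⟨Fin.cons i σ, v + (SignType.sign (l i) * (∑ j, |l j|)) • w i, ?_, ?_⟩
    · refine Submodule.add_mem _ ?_ ?_
      · refine Submodule.span_mono ?_ hv
        rintro _ ⟨a, rfl⟩
        exact ⟨a.succ, by simp⟩
      · refine Submodule.smul_mem _ _ (Submodule.subset_span ⟨0, by simp⟩)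
    · have h1 : ∀ y, ((k + 1 : ℕ) : ℝ) * (∑ j, l j * w j y)
          - (v + (SignType.sign (l i) * (∑ j, |l j|)) • w i) y
          = (k * (∑ j, l j * w j y) - v y) + ∑ j, l j * w j y
            - SignType.sign (l i) * (∑ j, |l j|) * w i y := by
        intro y
        simp only [Pi.add_apply, Pi.smul_apply, smul_eq_mul]
        push_cast
        ring
      rw [Finset.sum_congr rfl (fun y _ => by rw [h1 y])]
      refine hi.trans ?_
      push_cast
      linarith

lemma maurey [Nonempty ι] (w : ι → Y → ℝ) (W : ℝ) (hw : ∀ i, ∑ y, (w i y) ^ 2 ≤ W) (τ : ℝ)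
    (hτ : 0 ≤ τ) (q : ℕ) (hq0 : 0 < q) (hq : (Fintype.card Y : ℝ) * W ≤ q * τ ^ 2)
    (l : ι → ℝ) :
    ∃ σ : Fin q → ι, ∃ v ∈ Submodule.span ℝ (Set.range (fun a => w (σ a))),
      ∑ y, |(∑ j, l j * w j y) - v y| ≤ τ * ∑ j, |l j| := by
  rcases (Finset.sum_nonneg (fun j (_ : j ∈ univ) => abs_nonneg (l j))).eq_or_lt with h0 | hpos
  · obtain ⟨i0⟩ := ‹Nonempty ι›
    refine ⟨fun _ => i0, 0, Submodule.zero_mem _, ?_⟩
    have h1 := (Finset.sum_eq_zero_iff_of_nonneg (fun j (_ : j ∈ univ) => abs_nonneg (l j))).1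
      h0.symm
    have h2 : ∀ j, l j = 0 := fun j => abs_eq_zero.1 (h1 j (mem_univ _))
    simp [h2]
  · obtain ⟨σ, v, hv, hb⟩ := maurey_iter w W hw l hpos q
    have hq0' : (0 : ℝ) < q := by exact_mod_cast hq0
    refine ⟨σ, (q : ℝ)⁻¹ • v, Submodule.smul_mem _ _ hv, ?_⟩
    have h1 : (∑ y, |(∑ j, l j * w j y) - ((q : ℝ)⁻¹ • v) y|) ^ 2 ≤ (τ * ∑ j, |l j|) ^ 2 := by
      have h2 := sq_sum_le_card_mul_sum_sq (s := (univ : Finset Y))
        (f := fun y => |(∑ j, l j * w j y) - ((q : ℝ)⁻¹ • v) y|)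
      refine h2.trans ?_
      have h3 : ∑ y, |(∑ j, l j * w j y) - ((q : ℝ)⁻¹ • v) y| ^ 2
          = ((q : ℝ)⁻¹) ^ 2 * ∑ y, (q * (∑ j, l j * w j y) - v y) ^ 2 := by
        rw [Finset.mul_sum]
        refine Finset.sum_congr rfl (fun y _ => ?_)
        rw [sq_abs, ← mul_pow]
        congr 1
        simp only [Pi.smul_apply, smul_eq_mul]
        field_simp
      rw [h3, Finset.card_univ]
      have h4 : ((q : ℝ)⁻¹) ^ 2 * ∑ y, (q * (∑ j, l j * w j y) - v y) ^ 2
          ≤ ((q : ℝ)⁻¹) ^ 2 * (q * ((∑ j, |l j|) ^ 2 * W)) :=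
        mul_le_mul_of_nonneg_left hb (by positivity)
      have h5 := mul_le_mul_of_nonneg_left h4 (Nat.cast_nonneg (α := ℝ) (Fintype.card Y))
      refine h5.trans ?_
      have h6 : (Fintype.card Y : ℝ) * (((q : ℝ)⁻¹) ^ 2 * (q * ((∑ j, |l j|) ^ 2 * W)))
          = (q : ℝ)⁻¹ * (∑ j, |l j|) ^ 2 * ((Fintype.card Y : ℝ) * W) := by
        field_simp
      rw [h6]
      have h7 := mul_le_mul_of_nonneg_left hq
        (show 0 ≤ (q : ℝ)⁻¹ * (∑ j, |l j|) ^ 2 by positivity)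
      refine h7.trans (le_of_eq ?_)
      field_simp
    exact abs_le_of_sq_le_sq' h1 (by positivity) |>.2

end Separation

/-- finite sets with few elements -/
lemma card_small (r : ℕ) (X : Finset Y) : #(X.powerset.filter (fun D => #D ≤ r)) ≤ bsum #X r := by
  have h1 : X.powerset.filter (fun D => #D ≤ r)
      ⊆ (Finset.Iic r).biUnion (fun k => X.powersetCard k) := by
    intro D hD
    simp only [mem_filter, mem_powerset] at hD
    simp only [mem_biUnion, mem_Iic, mem_powersetCard]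
    exact ⟨#D, hD.2, hD.1, rfl⟩
  refine (Finset.card_le_card h1).trans (Finset.card_biUnion_le.trans ?_)
  unfold bsum
  refine Finset.sum_le_sum (fun k _ => ?_)
  rw [Finset.card_powersetCard]

/-- the existence of a good bounded function for the sign vector `s` -/
def Witness {ι : Type*} (F0 : Submodule ℝ (Y → ℝ)) (w : ι → Y → ℝ) (τ : ℝ) (r : ℕ)
    (s : Finset Y) : Prop :=
  ∃ h : Y → ℝ, (∀ y, |h y| ≤ 1) ∧ (∀ f ∈ F0, ∑ y, h y * f y = 0) ∧
    (∀ i, |∑ y, h y * w i y| ≤ τ) ∧ (r : ℝ) ≤ ∑ y, h y * sg s y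

open Classical in
theorem bad_card {ι : Type*} [Fintype ι] [Nonempty ι] (F0 : Submodule ℝ (Y → ℝ)) (d0 : ℕ)
    (hd0 : Module.finrank ℝ F0 ≤ d0) (w : ι → Y → ℝ)
    (hw : ∀ i, ∑ y, (w i y) ^ 2 ≤ Fintype.card Y) (τ : ℝ) (hτ : 0 ≤ τ) (q : ℕ) (hq0 : 0 < q)
    (hq : (Fintype.card Y : ℝ) * Fintype.card Y ≤ q * τ ^ 2) (r : ℕ) (hr : 0 < r) :
    #(univ.filter (fun s : Finset Y => ¬ Witness F0 w τ r s))
      ≤ (Fintype.card ι) ^ q * (bsum (Fintype.card Y) (d0 + q) * bsum (Fintype.card Y) r) := by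
  let G : (Fin q → ι) → Submodule ℝ (Y → ℝ) :=
    fun σ => F0 ⊔ Submodule.span ℝ (Set.range (fun a => w (σ a)))
  let P : (Fin q → ι) → Finset (Finset Y) :=
    fun σ => univ.filter (fun s => ∃ f ∈ G σ, s = pat f)
  let D : Finset (Finset Y) := (univ : Finset Y).powerset.filter (fun D => #D ≤ r)
  have hsub : univ.filter (fun s : Finset Y => ¬ Witness F0 w τ r s)
      ⊆ (univ : Finset (Fin q → ι)).biUnion
        (fun σ => (P σ ×ˢ D).image (fun x => symmDiff x.1 x.2)) := by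
    intro s hs
    simp only [mem_filter, mem_univ, true_and] at hs
    obtain ⟨f, hf, l, hfl⟩ := sep F0 w (sg s) τ r hτ (by exact_mod_cast hr) hs
    obtain ⟨σ, v, hv, hσ⟩ := maurey w _ hw τ hτ q hq0 hq l
    have hsum : ∑ y, |sg s y - (f + v) y| < r := by
      have h1 : ∑ y, |sg s y - (f + v) y| ≤ ∑ y, |sg s y - f y - ∑ i, l i * w i y|
          + ∑ y, |(∑ j, l j * w j y) - v y| := by
        rw [← Finset.sum_add_distrib]
        refine Finset.sum_le_sum (fun y _ => ?_)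
        have : sg s y - (f + v) y = (sg s y - f y - ∑ i, l i * w i y)
            + ((∑ j, l j * w j y) - v y) := by
          simp only [Pi.add_apply]
          ring
        rw [this]
        exact abs_add_le _ _
      linarith
    simp only [mem_biUnion, mem_univ, true_and, mem_image, mem_product, Prod.exists]
    refine ⟨σ, pat (f + v), symmDiff (pat (f + v)) s, ⟨?_, ?_⟩, ?_⟩
    · simp only [P, mem_filter, mem_univ, true_and]
      exact ⟨f + v, Submodule.add_mem_sup hf hv, rfl⟩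
    · simp only [D, mem_filter, mem_powerset, subset_univ, true_and]
      have h2 : (#(symmDiff (pat (f + v)) s) : ℝ) ≤ ∑ y, |sg s y - (f + v) y| := by
        rw [Finset.card_eq_sum_ones]
        push_cast
        rw [← Finset.sum_filter_add_sum_filter_not univ (fun y => y ∈ symmDiff (pat (f + v)) s)
          (fun y => |sg s y - (f + v) y|)]
        have h3 : 0 ≤ ∑ y with y ∉ symmDiff (pat (f + v)) s, |sg s y - (f + v) y| :=
          Finset.sum_nonneg (fun y _ => abs_nonneg _)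
        have h4 : (univ.filter (fun y => y ∈ symmDiff (pat (f + v)) s))
            = symmDiff (pat (f + v)) s := by
          ext y
          simp
        rw [h4]
        have h5 : ∑ y ∈ symmDiff (pat (f + v)) s, (1 : ℝ)
            ≤ ∑ y ∈ symmDiff (pat (f + v)) s, |sg s y - (f + v) y| := by
          refine Finset.sum_le_sum (fun y hy => ?_)
          rw [Finset.mem_symmDiff, mem_pat] at hy
          rcases hy with ⟨h6, h7⟩ | ⟨h6, h7⟩
          · unfold sg
            rw [if_neg h7]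
            rw [abs_sub_comm]
            refine le_trans ?_ (le_abs_self _)
            linarith
          · unfold sg
            rw [if_pos h6]
            refine le_trans ?_ (le_abs_self _)
            linarith
        linarith
      have h8 : (#(symmDiff (pat (f + v)) s) : ℝ) < r := h2.trans_lt hsum
      have h9 : #(symmDiff (pat (f + v)) s) < r := by exact_mod_cast h8
      exact h9.le
    · rw [← symmDiff_assoc, symmDiff_self, bot_symmDiff]
  refine (Finset.card_le_card hsub).trans (Finset.card_biUnion_le.trans ?_)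
  have hD : #D ≤ bsum (Fintype.card Y) r := by
    have := card_small r (univ : Finset Y)
    rwa [Finset.card_univ] at this
  have hP : ∀ σ, #(P σ) ≤ bsum (Fintype.card Y) (d0 + q) := by
    intro σ
    refine card_pat_le (G σ) (d0 + q) ?_ (P σ) ?_
    · refine (Submodule.finrank_add_le_finrank_add_finrank _ _).trans ?_
      refine Nat.add_le_add hd0 ?_
      have := finrank_range_le_card (R := ℝ) (fun a => w (σ a))
      simpa [Set.finrank] using this
    · intro s hs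
      simpa [P] using hs
  have hc : ∀ σ ∈ (univ : Finset (Fin q → ι)),
      #((P σ ×ˢ D).image (fun x => symmDiff x.1 x.2))
        ≤ bsum (Fintype.card Y) (d0 + q) * bsum (Fintype.card Y) r := by
    intro σ _
    refine Finset.card_image_le.trans ?_
    rw [Finset.card_product]
    exact Nat.mul_le_mul (hP σ) hD
  refine (Finset.sum_le_sum hc).trans ?_
  rw [Finset.sum_const, Finset.card_univ, Fintype.card_fun, Fintype.card_fin, smul_eq_mul]

end Pool.Agent.H75.MT
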