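import Pool.Agent.H75.MT.Comb

set_option autoImplicit false
set_option linter.unusedSectionVars false

/-! Counting the sign sequences with many bad steps. -/

open Finset

namespace Pool.Agent.H75.MT

section Count

variable {Y : Type*} [Fintype Y] [DecidableEq Y]

/-- extension of a finite sequence -/
def ext {n : ℕ} (ε : Fin n → Finset Y) (i : ℕ) : Finset Y := if h : i < n then ε ⟨i, h⟩ else ∅

lemma ext_snoc_lt {n : ℕ} (ε : Fin n → Finset Y) (s : Finset Y) (i : ℕ) (hi : i < n) :
    ext (Fin.snoc ε s : Fin (n + 1) → Finset Y) i = ext ε i := by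
  unfold ext
  rw [dif_pos (Nat.lt_succ_of_lt hi), dif_pos hi]
  have : (⟨i, Nat.lt_succ_of_lt hi⟩ : Fin (n + 1)) = Fin.castSucc ⟨i, hi⟩ := rfl
  rw [this, Fin.snoc_castSucc]

lemma ext_snoc_last {n : ℕ} (ε : Fin n → Finset Y) (s : Finset Y) :
    ext (Fin.snoc ε s : Fin (n + 1) → Finset Y) n = s := by
  unfold ext
  rw [dif_pos (Nat.lt_succ_self n)]
  have : (⟨n, Nat.lt_succ_self n⟩ : Fin (n + 1)) = Fin.last n := rfl
  rw [this, Fin.snoc_last]

variable {S : Type*} (st : (ℕ → Finset Y) → ℕ → S)
  (hst : ∀ ε ε' b, (∀ i < b, ε i = ε' i) → st ε b = st ε' b)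
  (bad : ℕ → S → Finset Y → Prop)

open Classical in
/-- the number of bad steps -/
noncomputable def nbad (n : ℕ) (ε : ℕ → Finset Y) : ℕ :=
  #((Finset.range n).filter (fun b => bad b (st ε b) (ε b)))

include hst in
lemma nbad_snoc (n : ℕ) (ε : Fin n → Finset Y) (s : Finset Y) :
    nbad st bad (n + 1) (ext (Fin.snoc ε s : Fin (n + 1) → Finset Y))
      = nbad st bad n (ext ε) + (open Classical in if bad n (st (ext ε) n) s then 1 else 0) := by
  classical
  unfold nbad
  rw [Finset.range_add_one, Finset.filter_insert]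
  have h1 : st (ext (Fin.snoc ε s : Fin (n + 1) → Finset Y)) n = st (ext ε) n :=
    hst _ _ n (fun i hi => ext_snoc_lt ε s i hi)
  rw [h1, ext_snoc_last]
  have h2 : (Finset.range n).filter (fun b => bad b
      (st (ext (Fin.snoc ε s : Fin (n + 1) → Finset Y)) b)
      (ext (Fin.snoc ε s : Fin (n + 1) → Finset Y) b))
      = (Finset.range n).filter (fun b => bad b (st (ext ε) b) (ext ε b)) := by
    refine Finset.filter_congr (fun b hb => ?_)
    rw [mem_range] at hb
    rw [ext_snoc_lt ε s b hb, hst _ (ext ε) b (fun i hi => ext_snoc_lt ε s i (hi.trans hb))]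
  rw [h2]
  split_ifs with h3
  · rw [Finset.card_insert_of_notMem]
    simp
  · rfl

include hst in
open Classical in
theorem count_moment (Kb Zb : ℕ)
    (hK : ∀ b x, #(univ.filter (fun s : Finset Y => bad b x s)) ≤ Kb)
    (hKZ : Kb * Zb ≤ 2 ^ Fintype.card Y) (act : ℕ → Prop)
    (hact : ∀ b x s, bad b x s → act b) (n : ℕ) :
    ∑ ε : Fin n → Finset Y, Zb ^ nbad st bad n (ext ε)
      ≤ (2 ^ Fintype.card Y) ^ n * 2 ^ #((Finset.range n).filter act) := by
  induction n with
  | zero =>
    simp [nbad]
  | succ n ih =>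
    have h1 : ∑ ε : Fin (n + 1) → Finset Y, Zb ^ nbad st bad (n + 1) (ext ε)
        = ∑ ε : Fin n → Finset Y, ∑ s : Finset Y,
          Zb ^ nbad st bad (n + 1) (ext (Fin.snoc ε s : Fin (n + 1) → Finset Y)) := by
      rw [← Equiv.sum_comp (Fin.snocEquiv (fun _ : Fin (n + 1) => Finset Y)),
        Fintype.sum_prod_type, Finset.sum_comm]
      rfl
    rw [h1]
    have h2 : ∀ ε : Fin n → Finset Y, ∑ s : Finset Y,
        Zb ^ nbad st bad (n + 1) (ext (Fin.snoc ε s : Fin (n + 1) → Finset Y))
        ≤ Zb ^ nbad st bad n (ext ε) * (2 ^ Fintype.card Y * (if act n then 2 else 1)) := by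
      intro ε
      have h3 : ∀ s : Finset Y, Zb ^ nbad st bad (n + 1)
          (ext (Fin.snoc ε s : Fin (n + 1) → Finset Y))
          ≤ Zb ^ nbad st bad n (ext ε) * (if bad n (st (ext ε) n) s then Zb else 0)
            + Zb ^ nbad st bad n (ext ε) * 1 := by
        intro s
        rw [nbad_snoc st hst bad, pow_add]
        split_ifs
        · rw [pow_one]
          omega
        · rw [pow_zero]
          omega
      refine (Finset.sum_le_sum (fun s _ => h3 s)).trans ?_
      rw [Finset.sum_add_distrib, ← Finset.mul_sum, ← Finset.mul_sum, ← mul_add]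
      refine Nat.mul_le_mul_left _ ?_
      rw [← Finset.sum_filter, Finset.sum_const, Finset.sum_const, smul_eq_mul, smul_eq_mul,
        mul_one, Finset.card_univ, Fintype.card_finset]
      split_ifs with h4
      · have h5 := Nat.mul_le_mul_right Zb (hK n (st (ext ε) n))
        omega
      · have h6 : univ.filter (fun s : Finset Y => bad n (st (ext ε) n) s) = ∅ := by
          refine Finset.filter_false_of_mem ?_
          intro s _ hs
          exact h4 (hact _ _ _ hs)
        rw [h6]
        simp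
    refine (Finset.sum_le_sum (fun ε _ => h2 ε)).trans ?_
    rw [← Finset.sum_mul]
    refine (Nat.mul_le_mul_right _ ih).trans (le_of_eq ?_)
    rw [Finset.range_add_one, Finset.filter_insert]
    split_ifs with h4
    · rw [Finset.card_insert_of_notMem (by simp)]
      ring
    · ring

include hst in
open Classical in
theorem count_many (Kb Zb : ℕ)
    (hK : ∀ b x, #(univ.filter (fun s : Finset Y => bad b x s)) ≤ Kb)
    (hKZ : Kb * Zb ≤ 2 ^ Fintype.card Y) (act : ℕ → Prop)
    (hact : ∀ b x s, bad b x s → act b) (n q : ℕ) (hZb : 1 ≤ Zb) :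
    #(univ.filter (fun ε : Fin n → Finset Y => q ≤ nbad st bad n (ext ε))) * Zb ^ q
      ≤ (2 ^ Fintype.card Y) ^ n * 2 ^ #((Finset.range n).filter act) := by
  refine le_trans ?_ (count_moment st hst bad Kb Zb hK hKZ act hact n)
  rw [← smul_eq_mul, ← Finset.sum_const]
  refine le_trans (Finset.sum_le_sum (g := fun ε => Zb ^ nbad st bad n (ext ε)) ?_) ?_
  · intro ε hε
    rw [mem_filter] at hε
    exact Nat.pow_le_pow_right hZb hε.2
  · exact Finset.sum_le_sum_of_subset (Finset.filter_subset _ _)

end Count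

end Pool.Agent.H75.MT
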