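import Mathlib

set_option autoImplicit false
set_option linter.unusedSectionVars false

/-! Exponentials on a rectangular grid: orthogonality, a Bessel inequality with multiplicity and a
de la Vallee-Poussin type kernel. -/

open Finset ComplexConjugate

namespace Pool.Agent.H75.MT

/-- `exp (2 pi i t)` -/
noncomputable def ee (t : ℝ) : ℂ := Complex.exp (2 * Real.pi * t * Complex.I)

lemma ee_add (s t : ℝ) : ee (s + t) = ee s * ee t := by
  unfold ee
  rw [← Complex.exp_add]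
  congr 1
  push_cast
  ring

lemma ee_zero : ee 0 = 1 := by simp [ee]

lemma ee_int (n : ℤ) : ee n = 1 := by
  unfold ee
  rw [Complex.exp_eq_one_iff]
  exact ⟨n, by push_cast; ring⟩

lemma ee_conj (t : ℝ) : conj (ee t) = ee (-t) := by
  unfold ee
  rw [← Complex.exp_conj]
  congr 1
  simp only [map_mul, Complex.conj_ofReal, Complex.conj_I]
  rw [show (conj (2 : ℂ)) = 2 from Complex.conj_ofNat 2]
  push_cast
  ring

lemma ee_norm (t : ℝ) : ‖ee t‖ = 1 := by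
  unfold ee
  have : (2 * Real.pi * t * Complex.I : ℂ) = ((2 * Real.pi * t : ℝ) : ℂ) * Complex.I := by
    push_cast
    ring
  rw [this, Complex.norm_exp_ofReal_mul_I]

lemma ee_nat_mul (t : ℝ) (n : ℕ) : ee (n * t) = (ee t) ^ n := by
  unfold ee
  rw [← Complex.exp_nat_mul]
  congr 1
  push_cast
  ring

lemma ee_eq_one_iff (t : ℝ) : ee t = 1 ↔ ∃ n : ℤ, t = n := by
  constructor
  · intro h
    unfold ee at h
    rw [Complex.exp_eq_one_iff] at h
    obtain ⟨n, hn⟩ := h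
    refine ⟨n, ?_⟩
    have h1 : (2 * Real.pi * t * Complex.I : ℂ) = (t : ℂ) * (2 * Real.pi * Complex.I) := by ring
    rw [h1] at hn
    have h2 : (2 * Real.pi * Complex.I : ℂ) ≠ 0 := by
      simp [Real.pi_ne_zero, Complex.I_ne_zero]
    have h3 := mul_right_cancel₀ h2 hn
    exact_mod_cast h3
  · rintro ⟨n, rfl⟩
    exact ee_int n

/-- orthogonality on the grid -/
lemma sum_ee (A : ℕ) (hA : 0 < A) (k : ℤ) :
    ∑ p : Fin A, ee (k * (p : ℝ) / A) = if (A : ℤ) ∣ k then (A : ℂ) else 0 := by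
  have h0 : (A : ℝ) ≠ 0 := by positivity
  have h1 : ∀ p : Fin A, ee (k * (p : ℝ) / A) = (ee (k / A)) ^ (p : ℕ) := by
    intro p
    rw [← ee_nat_mul]
    congr 1
    ring
  rw [Finset.sum_congr rfl (fun p _ => h1 p), Fin.sum_univ_eq_sum_range (fun i => (ee (k / A)) ^ i)]
  split_ifs with hd
  · obtain ⟨m, rfl⟩ := hd
    have h2 : ((((A : ℤ) * m : ℤ) : ℝ) / A) = (m : ℤ) := by
      push_cast
      field_simp
    rw [h2, ee_int]
    simp
  · have hne : ee (k / A) ≠ 1 := by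
      intro h
      rw [ee_eq_one_iff] at h
      obtain ⟨n, hn⟩ := h
      apply hd
      refine ⟨n, ?_⟩
      rw [div_eq_iff h0] at hn
      have : (k : ℝ) = ((A * n : ℤ) : ℝ) := by
        rw [hn]
        push_cast
        ring
      exact_mod_cast this
    have hpow : (ee (k / A)) ^ A = 1 := by
      rw [← ee_nat_mul]
      have : (A : ℝ) * (k / A) = (k : ℤ) := by field_simp
      rw [this, ee_int]
    have h3 := geom_sum_mul (ee (k / A)) A
    rw [hpow, sub_self] at h3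
    rcases mul_eq_zero.1 h3 with h4 | h4
    · exact h4
    · exact absurd (sub_eq_zero.1 h4) hne

/-- the number of elements of a residue class in an interval -/
lemma mult_le (m : ℕ) (hm : 0 < m) (a b : ℤ) (c : ℕ) (hc : b - a ≤ c * m) (k : ℤ) :
    #((Finset.Ico a b).filter (fun k' => (m : ℤ) ∣ k - k')) ≤ c := by
  have hm' : (0 : ℤ) < m := by exact_mod_cast hm
  have h1 : #((Finset.Ico a b).filter (fun k' => (m : ℤ) ∣ k - k')) ≤ #(Finset.Ico (0 : ℤ) c) := by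
    refine Finset.card_le_card_of_injOn (fun k' => (k' - a) / m) ?_ ?_
    · intro k' hk'
      simp only [coe_filter, mem_Ico, Set.mem_ofPred_eq] at hk'
      simp only [coe_Ico, Set.mem_Ico]
      constructor
      · exact Int.ediv_nonneg (by omega) hm'.le
      · refine Int.ediv_lt_of_lt_mul hm' ?_
        omega
    · intro k1 h1 k2 h2 h
      simp only [coe_filter, mem_Ico, Set.mem_ofPred_eq] at h1 h2
      simp only at h
      have e1 := Int.emod_add_mul_ediv (k1 - a) m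
      have e2 := Int.emod_add_mul_ediv (k2 - a) m
      have e3 : (k1 - a) % m = (k2 - a) % m := by
        rw [Int.emod_eq_emod_iff_emod_sub_eq_zero]
        refine Int.emod_eq_zero_of_dvd ?_
        have h5 := dvd_sub h2.2 h1.2
        have h6 : k - k2 - (k - k1) = k1 - a - (k2 - a) := by ring
        rwa [h6] at h5
      rw [h, e3] at e1
      omega
  simpa using h1

/-- a Bessel inequality with multiplicity -/
lemma bessel {K Y : Type*} [Fintype Y] (χ : K → Y → ℂ) (S : Finset K) (R : K → K → Prop)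
    [DecidableRel R] (N : ℝ) (hN : 0 ≤ N) (c : ℕ)
    (hR : ∀ k ∈ S, ∀ k' ∈ S, ∑ y, χ k y * conj (χ k' y) = if R k k' then (N : ℂ) else 0)
    (hsymm : ∀ k k', R k k' ↔ R k' k) (hc : ∀ k ∈ S, #(S.filter (fun k' => R k k')) ≤ c)
    (a : K → ℂ) :
    ∑ y, ‖∑ k ∈ S, a k * χ k y‖ ^ 2 ≤ N * c * ∑ k ∈ S, ‖a k‖ ^ 2 := by
  have h1 : (((∑ y, ‖∑ k ∈ S, a k * χ k y‖ ^ 2 : ℝ)) : ℂ)
      = ∑ k ∈ S, ∑ k' ∈ S, a k * conj (a k') * (if R k k' then (N : ℂ) else 0) := by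
    push_cast
    have e1 : ∀ y, (‖∑ k ∈ S, a k * χ k y‖ : ℂ) ^ 2
        = ∑ k ∈ S, ∑ k' ∈ S, a k * conj (a k') * (χ k y * conj (χ k' y)) := by
      intro y
      rw [← Complex.mul_conj', map_sum, Finset.sum_mul_sum]
      refine Finset.sum_congr rfl (fun k _ => Finset.sum_congr rfl (fun k' _ => ?_))
      rw [map_mul]
      ring
    rw [Finset.sum_congr rfl (fun y _ => e1 y), Finset.sum_comm]
    refine Finset.sum_congr rfl (fun k hk => ?_)
    rw [Finset.sum_comm]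
    refine Finset.sum_congr rfl (fun k' hk' => ?_)
    rw [← Finset.mul_sum, hR k hk k' hk']
  have h2 : ∑ y, ‖∑ k ∈ S, a k * χ k y‖ ^ 2
      = ‖∑ k ∈ S, ∑ k' ∈ S, a k * conj (a k') * (if R k k' then (N : ℂ) else 0)‖ := by
    rw [← h1, Complex.norm_real, Real.norm_eq_abs, abs_of_nonneg (by positivity)]
  rw [h2]
  have h3 : ‖∑ k ∈ S, ∑ k' ∈ S, a k * conj (a k') * (if R k k' then (N : ℂ) else 0)‖
      ≤ ∑ k ∈ S, ∑ k' ∈ S, (if R k k' then N * ((‖a k‖ ^ 2 + ‖a k'‖ ^ 2) / 2) else 0) := by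
    refine (norm_sum_le _ _).trans (Finset.sum_le_sum (fun k _ => ?_))
    refine (norm_sum_le _ _).trans (Finset.sum_le_sum (fun k' _ => ?_))
    split_ifs
    · rw [norm_mul, norm_mul, RCLike.norm_conj, Complex.norm_real, Real.norm_eq_abs,
        abs_of_nonneg hN, mul_comm]
      refine mul_le_mul_of_nonneg_left ?_ hN
      nlinarith [sq_nonneg (‖a k‖ - ‖a k'‖)]
    · simp
  refine h3.trans ?_
  have h4 : ∑ k ∈ S, ∑ k' ∈ S, (if R k k' then N * ((‖a k‖ ^ 2 + ‖a k'‖ ^ 2) / 2) else 0)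
      = ∑ k ∈ S, ∑ k' ∈ S, (if R k k' then N * ‖a k‖ ^ 2 else 0) := by
    have e1 : ∑ k ∈ S, ∑ k' ∈ S, (if R k k' then N * ‖a k'‖ ^ 2 else 0)
        = ∑ k ∈ S, ∑ k' ∈ S, (if R k k' then N * ‖a k‖ ^ 2 else 0) := by
      rw [Finset.sum_comm]
      refine Finset.sum_congr rfl (fun k _ => Finset.sum_congr rfl (fun k' _ => ?_))
      simp only [hsymm k' k]
    have e2 : ∑ k ∈ S, ∑ k' ∈ S, (if R k k' then N * ((‖a k‖ ^ 2 + ‖a k'‖ ^ 2) / 2) else 0)
        = (1 / 2) * ∑ k ∈ S, ∑ k' ∈ S, (if R k k' then N * ‖a k‖ ^ 2 else 0)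
          + (1 / 2) * ∑ k ∈ S, ∑ k' ∈ S, (if R k k' then N * ‖a k'‖ ^ 2 else 0) := by
      rw [Finset.mul_sum, Finset.mul_sum, ← Finset.sum_add_distrib]
      refine Finset.sum_congr rfl (fun k _ => ?_)
      rw [Finset.mul_sum, Finset.mul_sum, ← Finset.sum_add_distrib]
      refine Finset.sum_congr rfl (fun k' _ => ?_)
      split_ifs <;> ring
    rw [e2, e1]
    ring
  rw [h4, Finset.mul_sum]
  refine Finset.sum_le_sum (fun k hk => ?_)
  rw [← Finset.sum_filter, Finset.sum_const, nsmul_eq_mul]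
  have h5 : (#(S.filter (fun k' => R k k')) : ℝ) ≤ c := by exact_mod_cast hc k hk
  have h6 : 0 ≤ N * ‖a k‖ ^ 2 := by positivity
  nlinarith

/-- one dimensional version -/
lemma bessel_one (A : ℕ) (hA : 0 < A) (a b : ℤ) (c : ℕ) (hc : b - a ≤ c * A) (t : ℝ) :
    ∑ p : Fin A, ‖∑ j ∈ Finset.Ico a b, ee (j * (t - (p : ℝ) / A))‖ ^ 2
      ≤ A * c * ((b - a).toNat : ℝ) := by
  have h := bessel (fun (j : ℤ) (p : Fin A) => ee (-(j * (p : ℝ) / A))) (Finset.Ico a b)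
    (fun k k' => (A : ℤ) ∣ k - k') A (by positivity) c ?_ ?_ ?_ (fun j => ee (j * t))
  · have h1 : ∀ p : Fin A, ∑ j ∈ Finset.Ico a b, ee (j * (t - (p : ℝ) / A))
        = ∑ j ∈ Finset.Ico a b, ee (j * t) * ee (-(j * (p : ℝ) / A)) := by
      intro p
      refine Finset.sum_congr rfl (fun j _ => ?_)
      rw [← ee_add]
      congr 1
      ring
    simp only [h1]
    refine h.trans (le_of_eq ?_)
    congr 1
    simp [ee_norm]
  · intro k _ k' _
    have h1 : ∀ p : Fin A, ee (-(k * (p : ℝ) / A)) * conj (ee (-(k' * (p : ℝ) / A)))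
        = ee ((k' - k : ℤ) * (p : ℝ) / A) := by
      intro p
      rw [ee_conj, ← ee_add]
      congr 1
      push_cast
      ring
    rw [Finset.sum_congr rfl (fun p _ => h1 p), sum_ee A hA]
    have h2 : (A : ℤ) ∣ k' - k ↔ (A : ℤ) ∣ k - k' := by
      rw [← dvd_neg, neg_sub]
    simp only [h2]
    push_cast
    rfl
  · intro k k'
    rw [← dvd_neg, neg_sub]
  · intro k _
    exact mult_le A hA a b c hc k

/-- the kernel coefficients -/
noncomputable def kap (Z : ℕ) (k : ℤ) : ℝ :=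
  #((Finset.Ico (0 : ℤ) Z).filter (fun b => k - b ∈ Finset.Ico (Z : ℤ) (4 * Z))) / Z

lemma kap_nonneg (Z : ℕ) (k : ℤ) : 0 ≤ kap Z k := by unfold kap; positivity

lemma kap_le_one (Z : ℕ) (k : ℤ) : kap Z k ≤ 1 := by
  unfold kap
  refine div_le_one_of_le₀ ?_ (by positivity)
  have h := Finset.card_filter_le (Finset.Ico (0 : ℤ) Z)
    (fun b => k - b ∈ Finset.Ico (Z : ℤ) (4 * Z))
  rw [Int.card_Ico, sub_zero, Int.toNat_natCast] at h
  exact_mod_cast h

lemma kap_eq_one (Z : ℕ) (hZ : 0 < Z) (k : ℤ) (h1 : 2 * (Z : ℤ) ≤ k) (h2 : k < 4 * Z) :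
    kap Z k = 1 := by
  unfold kap
  have : (Finset.Ico (0 : ℤ) Z).filter (fun b => k - b ∈ Finset.Ico (Z : ℤ) (4 * Z))
      = Finset.Ico (0 : ℤ) Z := by
    refine Finset.filter_true_of_mem ?_
    intro b hb
    rw [mem_Ico] at hb ⊢
    constructor <;> linarith
  rw [this, Int.card_Ico, sub_zero, Int.toNat_natCast]
  exact div_self (by positivity)

lemma kap_sum (Z : ℕ) (hZ : 0 < Z) (t : ℝ) :
    ∑ k ∈ Finset.Ico (Z : ℤ) (5 * Z), (kap Z k : ℂ) * ee (k * t)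
      = (1 / Z) * ((∑ b ∈ Finset.Ico (0 : ℤ) Z, ee (b * t))
        * ∑ j ∈ Finset.Ico (Z : ℤ) (4 * Z), ee (j * t)) := by
  have hZ' : (Z : ℂ) ≠ 0 := by exact_mod_cast hZ.ne'
  have h1 : ∀ b ∈ Finset.Ico (0 : ℤ) Z, ∑ j ∈ Finset.Ico (Z : ℤ) (4 * Z), ee (b * t) * ee (j * t)
      = ∑ k ∈ Finset.Ico (Z : ℤ) (5 * Z),
        (if k - b ∈ Finset.Ico (Z : ℤ) (4 * Z) then ee (k * t) else 0) := by
    intro b hb
    rw [mem_Ico] at hb
    rw [← Finset.sum_filter]
    refine Finset.sum_nbij' (fun j => j + b) (fun k => k - b) ?_ ?_ ?_ ?_ ?_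
    · intro j hj
      rw [mem_Ico] at hj
      rw [mem_filter, mem_Ico, mem_Ico]
      omega
    · intro k hk
      rw [mem_filter] at hk
      exact hk.2
    · intro j _
      simp
    · intro k _
      simp
    · intro j _
      rw [← ee_add]
      congr 1
      push_cast
      ring
  rw [Finset.sum_mul_sum, Finset.sum_congr rfl h1, Finset.sum_comm, Finset.mul_sum]
  refine Finset.sum_congr rfl (fun k _ => ?_)
  rw [← Finset.sum_filter, Finset.sum_const, nsmul_eq_mul]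
  unfold kap
  push_cast
  field_simp

lemma kernel_bound (Z : ℕ) (hZ : 0 < Z) (t : ℝ) :
    ∑ p : Fin (2 * Z), ‖∑ k ∈ Finset.Ico (Z : ℤ) (5 * Z),
      (kap Z k : ℂ) * ee (k * (t - (p : ℝ) / ((2 * Z : ℕ) : ℝ)))‖ ≤ (5 / 2) * (2 * Z) := by
  have hZ' : (0 : ℝ) < Z := by exact_mod_cast hZ
  have b1 := bessel_one (2 * Z) (by omega) 0 Z 1 (by push_cast; linarith) t
  have b2 := bessel_one (2 * Z) (by omega) Z (4 * Z) 2 (by push_cast; linarith) t
  have e1 : ((((Z : ℤ) - 0).toNat : ℕ) : ℝ) = Z := by simp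
  have e2 : (((4 * (Z : ℤ) - Z).toNat : ℕ) : ℝ) = 3 * Z := by
    have : (4 * (Z : ℤ) - Z).toNat = 3 * Z := by omega
    rw [this]
    push_cast
    ring
  rw [e1] at b1
  rw [e2] at b2
  set D1 : Fin (2 * Z) → ℝ := fun p =>
    ‖∑ j ∈ Finset.Ico (0 : ℤ) Z, ee (j * (t - (p : ℝ) / ((2 * Z : ℕ) : ℝ)))‖ with hD1
  set D2 : Fin (2 * Z) → ℝ := fun p =>
    ‖∑ j ∈ Finset.Ico (Z : ℤ) (4 * Z), ee (j * (t - (p : ℝ) / ((2 * Z : ℕ) : ℝ)))‖ with hD2
  have h1 : ∀ p : Fin (2 * Z), ‖∑ k ∈ Finset.Ico (Z : ℤ) (5 * Z),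
      (kap Z k : ℂ) * ee (k * (t - (p : ℝ) / ((2 * Z : ℕ) : ℝ)))‖
      ≤ (1 / Z) * (D1 p ^ 2 + (1 / 4) * D2 p ^ 2) := by
    intro p
    rw [kap_sum Z hZ, norm_mul, norm_mul]
    have : ‖(1 / (Z : ℂ))‖ = 1 / Z := by simp
    rw [this]
    refine mul_le_mul_of_nonneg_left ?_ (by positivity)
    have h2 : 0 ≤ (D1 p - (1 / 2) * D2 p) ^ 2 := sq_nonneg _
    simp only [hD1, hD2] at h2 ⊢
    nlinarith
  refine (Finset.sum_le_sum (fun p _ => h1 p)).trans ?_
  rw [← Finset.mul_sum, Finset.sum_add_distrib, ← Finset.mul_sum]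
  have b1' : ∑ p, D1 p ^ 2 ≤ 2 * (Z : ℝ) * Z := b1.trans (le_of_eq (by push_cast; ring))
  have b2' : ∑ p, D2 p ^ 2 ≤ 12 * (Z : ℝ) * Z := b2.trans (le_of_eq (by push_cast; ring))
  have h3 : ∑ p, D1 p ^ 2 + 1 / 4 * ∑ p, D2 p ^ 2 ≤ Z * ((5 / 2) * (2 * Z)) := by
    nlinarith
  calc 1 / (Z : ℝ) * (∑ p, D1 p ^ 2 + 1 / 4 * ∑ p, D2 p ^ 2)
      ≤ 1 / (Z : ℝ) * (Z * ((5 / 2) * (2 * Z))) := mul_le_mul_of_nonneg_left h3 (by positivity)
    _ = (5 / 2) * (2 * Z) := by field_simp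

end Pool.Agent.H75.MT
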