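import Pool.Agent.H75.MT.Comb

set_option autoImplicit false
set_option linter.unusedSectionVars false

/-! Moments of Rademacher sums. -/

open Finset

namespace Pool.Agent.H75.MT

noncomputable section

variable {Y : Type*} [Fintype Y] [DecidableEq Y]

/-- Rademacher sum -/
def rad {n : ℕ} (κ : Fin n → Y → ℝ) (ε : Fin n → Finset Y) : ℝ :=
  ∑ b, ∑ y, sg (ε b) y * κ b y

lemma sum_exp_one (κ : Y → ℝ) :
    ∑ s : Finset Y, Real.exp (∑ y, sg s y * κ y) = ∏ y, (Real.exp (κ y) + Real.exp (-κ y)) := by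
  rw [Finset.prod_add, Finset.powerset_univ]
  refine Finset.sum_congr rfl (fun s _ => ?_)
  rw [Real.exp_sum, ← Finset.prod_sdiff (Finset.subset_univ s), mul_comm]
  congr 1
  · refine Finset.prod_congr rfl (fun y hy => ?_)
    unfold sg
    rw [if_pos hy, one_mul]
  · refine Finset.prod_congr rfl (fun y hy => ?_)
    unfold sg
    rw [if_neg (Finset.mem_sdiff.1 hy).2, neg_one_mul]

lemma sum_exp_rad {n : ℕ} (κ : Fin n → Y → ℝ) :
    ∑ ε : Fin n → Finset Y, Real.exp (rad κ ε)
      = ∏ b, ∏ y, (Real.exp (κ b y) + Real.exp (-κ b y)) := by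
  have h1 := Finset.prod_univ_sum (fun _ : Fin n => (univ : Finset (Finset Y)))
    (fun b s => Real.exp (∑ y, sg s y * κ b y))
  rw [Fintype.piFinset_univ] at h1
  simp only [sum_exp_one] at h1
  rw [h1]
  refine Finset.sum_congr rfl (fun ε _ => ?_)
  unfold rad
  rw [Real.exp_sum]

lemma sum_exp_le {n : ℕ} (κ : Fin n → Y → ℝ) :
    ∑ ε : Fin n → Finset Y, Real.exp (rad κ ε)
      ≤ (2 ^ Fintype.card Y) ^ n * Real.exp ((∑ b, ∑ y, (κ b y) ^ 2) / 2) := by
  rw [sum_exp_rad]
  have h1 : ∀ b : Fin n, ∏ y, (Real.exp (κ b y) + Real.exp (-κ b y))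
      ≤ 2 ^ Fintype.card Y * Real.exp ((∑ y, (κ b y) ^ 2) / 2) := by
    intro b
    have h2 : ∀ y ∈ (univ : Finset Y), Real.exp (κ b y) + Real.exp (-κ b y)
        ≤ 2 * Real.exp ((κ b y) ^ 2 / 2) := by
      intro y _
      have h3 := Real.cosh_le_exp_half_sq (κ b y)
      rw [Real.cosh_eq] at h3
      linarith
    refine (Finset.prod_le_prod (fun y _ => by positivity) h2).trans (le_of_eq ?_)
    rw [Finset.prod_mul_distrib, Finset.prod_const, Finset.card_univ, ← Real.exp_sum,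
      ← Finset.sum_div]
  refine (Finset.prod_le_prod (fun b _ => by positivity) (fun b _ => h1 b)).trans (le_of_eq ?_)
  rw [Finset.prod_mul_distrib, Finset.prod_const, Finset.card_univ, Fintype.card_fin,
    ← Real.exp_sum, ← Finset.sum_div]

lemma moment {n : ℕ} (κ : Fin n → Y → ℝ) (V : ℝ) (hV : 0 < V)
    (hκ : ∑ b, ∑ y, (κ b y) ^ 2 ≤ V) (m : ℕ) :
    ∑ ε : Fin n → Finset Y, |rad κ ε| ^ m
      ≤ (2 ^ Fintype.card Y) ^ n * (4 * m.factorial * (Real.sqrt V) ^ m) := by
  have hs : 0 < Real.sqrt V := Real.sqrt_pos.2 hV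
  have key : ∀ a : ℝ, a ^ 2 = 1 → ∑ ε : Fin n → Finset Y, Real.exp (a * rad κ ε / Real.sqrt V)
      ≤ (2 ^ Fintype.card Y) ^ n * 2 := by
    intro a ha
    have h1 := sum_exp_le (fun b y => a * κ b y / Real.sqrt V)
    have h2 : ∀ ε : Fin n → Finset Y, rad (fun b y => a * κ b y / Real.sqrt V) ε
        = a * rad κ ε / Real.sqrt V := by
      intro ε
      unfold rad
      rw [Finset.mul_sum, Finset.sum_div]
      refine Finset.sum_congr rfl (fun b _ => ?_)
      rw [Finset.mul_sum, Finset.sum_div]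
      refine Finset.sum_congr rfl (fun y _ => ?_)
      ring
    simp only [h2] at h1
    refine h1.trans ?_
    refine mul_le_mul_of_nonneg_left ?_ (by positivity)
    have h3 : ∑ b, ∑ y, (a * κ b y / Real.sqrt V) ^ 2 = (∑ b, ∑ y, (κ b y) ^ 2) / V := by
      rw [Finset.sum_div]
      refine Finset.sum_congr rfl (fun b _ => ?_)
      rw [Finset.sum_div]
      refine Finset.sum_congr rfl (fun y _ => ?_)
      rw [div_pow, mul_pow, ha, one_mul, Real.sq_sqrt hV.le]
    rw [h3]
    have h4 : (∑ b, ∑ y, (κ b y) ^ 2) / V / 2 ≤ 1 / 2 := by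
      have : (∑ b, ∑ y, (κ b y) ^ 2) / V ≤ 1 := (div_le_one hV).2 hκ
      linarith
    refine (Real.exp_le_exp.2 h4).trans ?_
    have h5 : Real.exp (1 / 2) ^ 2 ≤ 2 ^ 2 := by
      rw [← Real.exp_nat_mul]
      norm_num
      have := Real.exp_one_lt_d9
      linarith
    exact le_of_sq_le_sq h5 (by norm_num)
  have h6 : ∀ ε : Fin n → Finset Y, |rad κ ε| ^ m ≤ (m.factorial * (Real.sqrt V) ^ m)
      * (Real.exp (1 * rad κ ε / Real.sqrt V) + Real.exp (-1 * rad κ ε / Real.sqrt V)) := by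
    intro ε
    have h7 := Real.pow_div_factorial_le_exp (|rad κ ε| / Real.sqrt V) (by positivity) m
    rw [div_le_iff₀ (by positivity), div_pow, div_le_iff₀ (by positivity)] at h7
    refine h7.trans ?_
    have h8 : Real.exp (|rad κ ε| / Real.sqrt V)
        ≤ Real.exp (1 * rad κ ε / Real.sqrt V) + Real.exp (-1 * rad κ ε / Real.sqrt V) := by
      rcases abs_choice (rad κ ε) with h | h
      · rw [h, one_mul]
        linarith [Real.exp_pos (-1 * rad κ ε / Real.sqrt V)]
      · rw [h, neg_one_mul]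
        linarith [Real.exp_pos (1 * rad κ ε / Real.sqrt V)]
    have h9 : (0 : ℝ) ≤ m.factorial * (Real.sqrt V) ^ m := by positivity
    have h10 := mul_le_mul_of_nonneg_left h8 h9
    linarith
  refine (Finset.sum_le_sum (fun ε _ => h6 ε)).trans ?_
  rw [← Finset.mul_sum, Finset.sum_add_distrib]
  have k1 := key 1 (by norm_num)
  have k2 := key (-1) (by norm_num)
  have h9 : (0 : ℝ) ≤ m.factorial * (Real.sqrt V) ^ m := by positivity
  have h11 := mul_le_mul_of_nonneg_left (add_le_add k1 k2) h9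
  refine h11.trans (le_of_eq ?_)
  ring

end

end Pool.Agent.H75.MT
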