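import Pool.Agent.H75.MT.Union

set_option autoImplicit false
set_option linter.unusedSectionVars false

/-! The lower bound for one sign sequence. -/

open Finset ComplexConjugate MeasureTheory UnitAddTorus

namespace Pool.Agent.H75.MT

noncomputable section

lemma hat_sq {Y : Type*} [Fintype Y] [DecidableEq Y] (Z Z' : ℕ) (hZ : 0 < Z) (hZ' : 0 < Z')
    (e : Y ≃ Fin (2 * Z) × Fin (2 * Z')) (s : Finset Y) :
    ∑ k ∈ Rm Z Z', ‖hat Z Z' e (sg s) k‖ ^ 2 ≤ 1 := by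
  set N : ℝ := ((2 * Z : ℕ) * (2 * Z' : ℕ) : ℝ) with hNdef
  have hN : 0 < N := by positivity
  have hcard : (Fintype.card Y : ℝ) = N := by
    rw [Fintype.card_congr e, Fintype.card_prod, Fintype.card_fin, Fintype.card_fin, hNdef]
    push_cast
    rfl
  have h := bessel (fun (y : Y) (k : Rm Z Z') => conj (chi Z Z' e k y)) univ
    (fun y y' => y = y') N hN.le 1 ?_ ?_ ?_ (fun y => (sg s y : ℂ))
  · have h1 : ∑ y, ‖((sg s y : ℝ) : ℂ)‖ ^ 2 = N := by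
      have : ∀ y, ‖((sg s y : ℝ) : ℂ)‖ ^ 2 = 1 := by
        intro y
        unfold sg
        split_ifs <;> simp
      simp only [this]
      rw [Finset.sum_const, Finset.card_univ, nsmul_eq_mul, mul_one, hcard]
    rw [h1] at h
    have h2 : ∀ k, ‖hat Z Z' e (sg s) k‖ ^ 2
        = (1 / N) ^ 2 * ‖∑ y, (sg s y : ℂ) * conj (chi Z Z' e k y)‖ ^ 2 := by
      intro k
      unfold hat
      rw [← hNdef, norm_mul, mul_pow, Complex.norm_real, Real.norm_eq_abs, sq_abs]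
    simp only [h2]
    rw [← Finset.mul_sum]
    have h3 : ∑ k ∈ Rm Z Z', ‖∑ y, (sg s y : ℂ) * conj (chi Z Z' e k y)‖ ^ 2 ≤ N * N := by
      rw [← Finset.sum_coe_sort]
      refine h.trans (le_of_eq ?_)
      push_cast
      ring
    have h4 : (1 / N) ^ 2 * (N * N) = 1 := by field_simp
    calc (1 / N) ^ 2 * ∑ k ∈ Rm Z Z', ‖∑ y, (sg s y : ℂ) * conj (chi Z Z' e k y)‖ ^ 2
        ≤ (1 / N) ^ 2 * (N * N) := mul_le_mul_of_nonneg_left h3 (by positivity)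
      _ = 1 := h4
  · intro y _ y' _
    have h5 := chi_dual Z Z' e hZ hZ' y' y
    rw [← hNdef] at h5
    have h6 : ∑ k : Rm Z Z', conj (chi Z Z' e k y) * conj (conj (chi Z Z' e k y'))
        = ∑ k ∈ Rm Z Z', chi Z Z' e k y' * conj (chi Z Z' e k y) := by
      rw [← Finset.sum_coe_sort (Rm Z Z')]
      refine Finset.sum_congr rfl (fun k _ => ?_)
      rw [Complex.conj_conj, mul_comm]
    rw [h6, h5]
    by_cases h7 : y = y'
    · rw [if_pos h7, if_pos h7.symm]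
    · rw [if_neg h7, if_neg (fun h => h7 h.symm)]
  · intro y y'
    exact eq_comm
  · intro y _
    have h8 : (univ : Finset Y).filter (fun y' => y = y') = {y} := by
      ext y'
      rw [mem_filter, mem_singleton]
      exact ⟨fun h => h.2.symm, fun h => ⟨mem_univ _, h.symm⟩⟩
    rw [h8, Finset.card_singleton]

lemma aa_sq (K : ℕ) (ε : ℕ → Finset (YK K)) (b : ℕ) : ∑ k ∈ RB K b, ‖aa K ε b k‖ ^ 2 ≤ 1 := by
  by_cases hb : b ≤ K
  · have h2 : ∀ k, aa K ε b k = hat (Zf b) (Zs K b) (eb K b hb) (sg (ε b)) k := by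
      intro k
      unfold aa
      rw [dif_pos hb]
    simp only [h2]
    exact hat_sq (Zf b) (Zs K b) (Zf_pos b) (Zs_pos K b) (eb K b hb) (ε b)
  · have h2 : ∀ k, aa K ε b k = 0 := by
      intro k
      unfold aa
      rw [dif_neg hb]
    simp [h2]

/-- the spacing -/
def JJ (K : ℕ) : ℕ := 3 * Nat.log 2 (K + 2) + 22

lemma JJ_pow (K : ℕ) : (2 : ℝ) ^ 57 * ((K : ℝ) + 2) ^ 9 ≤ 8 ^ JJ K := by
  have h1 : K + 2 < 2 ^ (Nat.log 2 (K + 2) + 1) := Nat.lt_pow_succ_log_self (by norm_num) _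
  have h2 : ((K : ℝ) + 2) ≤ 2 ^ (Nat.log 2 (K + 2) + 1) := by exact_mod_cast h1.le
  have h3 : ((K : ℝ) + 2) ^ 9 ≤ (2 ^ (Nat.log 2 (K + 2) + 1)) ^ 9 :=
    pow_le_pow_left₀ (by positivity) h2 9
  have h4 : (8 : ℝ) ^ JJ K = 2 ^ 57 * (2 ^ (Nat.log 2 (K + 2) + 1)) ^ 9 := by
    unfold JJ
    rw [show (8 : ℝ) = 2 ^ 3 by norm_num, ← pow_mul, ← pow_mul, ← pow_add]
    congr 1
    ring
  rw [h4]
  exact mul_le_mul_of_nonneg_left h3 (by positivity)

lemma et_bound (K : ℕ) (hK : 2 ≤ K) : 0 ≤ et K ∧ et K * 8 ^ K ≤ 32 * ((K : ℝ) + 2) := by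
  have hq := qq_pos K hK
  have hq' : (0 : ℝ) < qq K := by exact_mod_cast hq
  unfold et
  refine ⟨by positivity, ?_⟩
  have h1 : nn K ≤ 2 * (K + 2) * qq K := by
    have h2 := Nat.div_add_mod (nn K) (K + 2)
    have h3 : nn K % (K + 2) < K + 2 := Nat.mod_lt _ (by omega)
    have h4 : qq K = nn K / (K + 2) := rfl
    rw [← h4] at h2
    nlinarith
  have h5 : (nn K : ℝ) ≤ 2 * ((K : ℝ) + 2) * qq K := by exact_mod_cast h1
  have h6 : (8 : ℝ) ^ K = 8 * nn K := by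
    unfold nn
    push_cast
    rw [← pow_succ']
    congr 1
    omega
  rw [h6, div_mul_eq_mul_div, div_le_iff₀ hq']
  nlinarith

lemma final_num (X n et P s U g : ℝ) (l A : ℝ) (hX : 2 ≤ X) (hn1 : 1 ≤ n) (hn : n ≤ X)
    (het : 0 ≤ et) (hA : 0 < A) (hetA : et * A ≤ 32 * X) (hP : 2 ^ 57 * X ^ 9 ≤ P)
    (hl : l ≤ A * n) (hs : 1 ≤ s) (hU : 0 ≤ U) (hg : s ≤ 2 * g)
    (hmain : 1 / 8192 * g ≤ 2 * U + Real.sqrt (2 * n ^ 2 + 2 * U ^ 2)
      * Real.sqrt (l * n ^ 2 * (et * (16640 * n ^ 2 * et * A / P)))) :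
    s / 98304 ≤ U := by
  have hX0 : 0 < X := by linarith
  have hn0 : 0 < n := by linarith
  have hP0 : 0 < P := lt_of_lt_of_le (by positivity) hP
  have h1 : Real.sqrt (2 * n ^ 2 + 2 * U ^ 2) ≤ 2 * (n + U) := by
    rw [Real.sqrt_le_left (by positivity)]
    nlinarith
  have h2 : Real.sqrt (l * n ^ 2 * (et * (16640 * n ^ 2 * et * A / P))) ≤ 1 / (65536 * n) := by
    rw [Real.sqrt_le_left (by positivity)]
    have e1 : l * n ^ 2 * (et * (16640 * n ^ 2 * et * A / P))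
        = (16640 * n ^ 4 * et ^ 2 * A * l) / P := by ring
    rw [e1, div_le_iff₀ hP0]
    have e2 : (1 / (65536 * n)) ^ 2 * P = P / (2 ^ 32 * n ^ 2) := by
      field_simp
      norm_num
    rw [e2, le_div_iff₀ (by positivity)]
    have e3 : 16640 * n ^ 4 * et ^ 2 * A * l ≤ 16640 * n ^ 5 * (et * A) ^ 2 := by
      have : 16640 * n ^ 4 * et ^ 2 * A * l ≤ 16640 * n ^ 4 * et ^ 2 * A * (A * n) :=
        mul_le_mul_of_nonneg_left hl (by positivity)
      refine this.trans (le_of_eq ?_)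
      ring
    have e4 : (et * A) ^ 2 ≤ (32 * X) ^ 2 := pow_le_pow_left₀ (by positivity) hetA 2
    have e5 : 16640 * n ^ 5 * (et * A) ^ 2 ≤ 16640 * n ^ 5 * (32 * X) ^ 2 :=
      mul_le_mul_of_nonneg_left e4 (by positivity)
    have e6 : 16640 * n ^ 5 * (32 * X) ^ 2 * (2 ^ 32 * n ^ 2)
        = (16640 * 1024 * 2 ^ 32) * (n ^ 7 * X ^ 2) := by ring
    have e7 : n ^ 7 ≤ X ^ 7 := pow_le_pow_left₀ hn0.le hn 7
    have e8 : n ^ 7 * X ^ 2 ≤ X ^ 9 := by
      have : n ^ 7 * X ^ 2 ≤ X ^ 7 * X ^ 2 := mul_le_mul_of_nonneg_right e7 (by positivity)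
      refine this.trans (le_of_eq ?_)
      ring
    calc 16640 * n ^ 4 * et ^ 2 * A * l * (2 ^ 32 * n ^ 2)
        ≤ 16640 * n ^ 5 * (32 * X) ^ 2 * (2 ^ 32 * n ^ 2) :=
          mul_le_mul_of_nonneg_right (e3.trans e5) (by positivity)
      _ = (16640 * 1024 * 2 ^ 32) * (n ^ 7 * X ^ 2) := e6
      _ ≤ (16640 * 1024 * 2 ^ 32) * X ^ 9 := mul_le_mul_of_nonneg_left e8 (by norm_num)
      _ ≤ 2 ^ 57 * X ^ 9 := mul_le_mul_of_nonneg_right (by norm_num) (by positivity)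
      _ ≤ P := hP
  have h3 : Real.sqrt (2 * n ^ 2 + 2 * U ^ 2)
      * Real.sqrt (l * n ^ 2 * (et * (16640 * n ^ 2 * et * A / P)))
      ≤ 2 * (n + U) * (1 / (65536 * n)) :=
    mul_le_mul h1 h2 (Real.sqrt_nonneg _) (by positivity)
  have h4 : 2 * (n + U) * (1 / (65536 * n)) = 1 / 32768 + U / (32768 * n) := by
    field_simp
    ring
  have h5 : U / (32768 * n) ≤ U := by
    refine div_le_self hU ?_
    linarith
  rw [h4] at h3
  linarith

/-- the lower bound for all approximants -/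
theorem sup_lower (K s : ℕ) (hK : 2 ≤ K) (hn : JJ K * s ≤ K + 1) (hs : 1 ≤ s)
    (ε : Fin (JJ K * s) → Finset (YK K)) (hε : ε ∉ BadU K (JJ K) s) (L : Finset (Fin 2 → ℤ))
    (hL : 8 * #L ≤ n2 K * (JJ K * s)) (d : (Fin 2 → ℤ) → ℂ) (U : ℝ)
    (hU : ∀ x, ‖(TT K (JJ K * s) (aa K (ext ε)) - tp L d) x‖ ≤ U) :
    (s : ℝ) / 98304 ≤ U := by
  have hJ : 2 ≤ JJ K := by unfold JJ; omega
  obtain ⟨G, c, hRH, hG, hv4, hv3⟩ := good_factors K (JJ K) s hK hJ hn ε hε L hL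
  have hU0 : 0 ≤ U := (norm_nonneg _).trans (hU 0)
  obtain ⟨het0, het⟩ := et_bound K hK
  have hJp := JJ_pow K
  have hA : (0 : ℝ) < 8 ^ K := by positivity
  have hX : (2 : ℝ) ≤ (K : ℝ) + 2 := by
    have : (0 : ℝ) ≤ K := Nat.cast_nonneg K
    linarith
  have hnX : ((JJ K * s : ℕ) : ℝ) ≤ (K : ℝ) + 2 := by
    have : JJ K * s ≤ K + 2 := by omega
    exact_mod_cast this
  have hn1 : (1 : ℝ) ≤ ((JJ K * s : ℕ) : ℝ) := by
    have : 1 ≤ JJ K * s := Nat.mul_pos (by omega) hs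
    exact_mod_cast this
  have hP0 : (0 : ℝ) < 8 ^ JJ K := by positivity
  have hρ : rho2 K (JJ K * s) (JJ K) (et K) ≤ 2 := by
    unfold rho2
    rw [div_le_iff₀ hP0]
    set X : ℝ := (K : ℝ) + 2 with hXdef
    set n : ℝ := ((JJ K * s : ℕ) : ℝ) with hndef
    have hn0 : 0 ≤ n := by linarith
    have e1 : 16640 * n ^ 2 * et K * 8 ^ K = 16640 * n ^ 2 * (et K * 8 ^ K) := by ring
    rw [e1]
    have e2 : n ^ 2 ≤ X ^ 2 := pow_le_pow_left₀ hn0 hnX 2
    have e3 : 16640 * n ^ 2 * (et K * 8 ^ K) ≤ 16640 * X ^ 2 * (32 * X) :=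
      mul_le_mul (mul_le_mul_of_nonneg_left e2 (by norm_num)) het (by positivity) (by positivity)
    have e4 : X ^ 3 ≤ X ^ 9 := pow_le_pow_right₀ (by linarith) (by norm_num)
    have e5 : 0 ≤ X ^ 9 := by positivity
    nlinarith
  have hmain := main_pair hRH het0 hρ (aa K (ext ε)) (aa_sq K (ext ε)) (1 / 8192) hv4 L hv3 d U hU
  refine final_num ((K : ℝ) + 2) ((JJ K * s : ℕ) : ℝ) (et K) (8 ^ JJ K) s U #G #L (8 ^ K) hX hn1
    hnX het0 hA het hJp ?_ (by exact_mod_cast hs) hU0 (by exact_mod_cast hG) ?_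
  · have h1 : #L ≤ 8 ^ K * (JJ K * s) := by
      have h2 : n2 K ≤ 8 ^ K := by
        unfold n2
        have : 8 ^ K = 8 ^ (K - 2) * 64 := by
          rw [show (64 : ℕ) = 8 ^ 2 by norm_num, ← pow_add]
          congr 1
          omega
        omega
      have h3 : n2 K * (JJ K * s) ≤ 8 ^ K * (JJ K * s) := Nat.mul_le_mul_right _ h2
      omega
    exact_mod_cast h1
  · unfold rho2 at hmain
    exact hmain

end

end Pool.Agent.H75.MT
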