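import Pool.Agent.H75.MT.Comb

set_option autoImplicit false

/-! Numerical estimates. -/

open Finset

namespace Pool.Agent.H75.MT

lemma bsum_le (N d : ℕ) (x : ℝ) (hx0 : 0 < x) (hx1 : x ≤ 1) :
    (bsum N d : ℝ) ≤ Real.exp (N * x) * (1 / x) ^ d := by
  have h1 : (bsum N d : ℝ) * x ^ d ≤ (1 + x) ^ N := by
    unfold bsum
    push_cast
    rw [Finset.sum_mul]
    have h2 : ∑ k ∈ Finset.Iic d, (N.choose k : ℝ) * x ^ d
        ≤ ∑ k ∈ Finset.Iic d, (N.choose k : ℝ) * x ^ k := by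
      refine Finset.sum_le_sum (fun k hk => ?_)
      rw [mem_Iic] at hk
      exact mul_le_mul_of_nonneg_left (pow_le_pow_of_le_one hx0.le hx1 hk) (by positivity)
    refine h2.trans ?_
    have h3 : ∑ k ∈ Finset.Iic d, (N.choose k : ℝ) * x ^ k
        ≤ ∑ k ∈ Finset.range (N + d + 1), (N.choose k : ℝ) * x ^ k := by
      refine Finset.sum_le_sum_of_subset_of_nonneg ?_ (fun k _ _ => by positivity)
      intro k hk
      rw [mem_Iic] at hk
      rw [mem_range]
      omega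
    refine h3.trans (le_of_eq ?_)
    have h4 : ∑ k ∈ Finset.range (N + 1), (N.choose k : ℝ) * x ^ k
        = ∑ k ∈ Finset.range (N + d + 1), (N.choose k : ℝ) * x ^ k := by
      refine Finset.sum_subset ?_ ?_
      · intro k hk
        rw [mem_range] at hk ⊢
        omega
      · intro k _ hk
        rw [mem_range, not_lt] at hk
        rw [Nat.choose_eq_zero_of_lt (by omega)]
        simp
    rw [← h4, add_comm (1 : ℝ) x, add_pow]
    refine Finset.sum_congr rfl (fun k _ => ?_)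
    rw [one_pow, mul_one, mul_comm]
  have h5 : (1 + x) ^ N ≤ Real.exp (N * x) := by
    rw [Real.exp_nat_mul]
    refine pow_le_pow_left₀ (by positivity) ?_ N
    rw [add_comm]
    exact Real.add_one_le_exp x
  have h6 := h1.trans h5
  rw [one_div, inv_pow]
  rw [← div_eq_mul_inv, le_div_iff₀ (by positivity)]
  exact h6

lemma exp_bound (a b n : ℕ) (h : Real.exp a ≤ 2 ^ b) : Real.exp (((a * n : ℕ) : ℝ)) ≤ 2 ^ (b * n) := by
  have h1 : ((a * n : ℕ) : ℝ) = (n : ℝ) * (a : ℝ) := by push_cast; ring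
  rw [h1, Real.exp_nat_mul, pow_mul]
  exact pow_le_pow_left₀ (Real.exp_pos _).le h n

lemma exp_one_lt' : Real.exp 1 < 2.7182818286 := Real.exp_one_lt_d9

lemma exp16 : Real.exp ((16 : ℕ) : ℝ) ≤ 2 ^ 24 := by
  have h1 : Real.exp ((16 : ℕ) : ℝ) = (Real.exp 1) ^ 16 := by
    rw [← Real.exp_nat_mul, mul_one]
  rw [h1]
  have h2 : (Real.exp 1) ^ 16 ≤ (2.7182818286 : ℝ) ^ 16 :=
    pow_le_pow_left₀ (Real.exp_pos _).le exp_one_lt'.le 16
  refine h2.trans ?_
  norm_num

lemma exp25 : Real.exp ((25 : ℕ) : ℝ) ≤ 2 ^ 37 := by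
  have h1 : Real.exp ((25 : ℕ) : ℝ) = (Real.exp 1) ^ 25 := by
    rw [← Real.exp_nat_mul, mul_one]
  rw [h1]
  have h2 : (Real.exp 1) ^ 25 ≤ (2.7182818286 : ℝ) ^ 25 :=
    pow_le_pow_left₀ (Real.exp_pos _).le exp_one_lt'.le 25
  refine h2.trans ?_
  norm_num

lemma step_num (M n' : ℕ) (B : ℕ) (hB : B ≤ 2 ^ (16 * M)) :
    B ^ (n' / M) * (bsum (512 * n') (n' + n' / M) * bsum (512 * n') n') ≤ 2 ^ (128 * n') := by
  have h1 : B ^ (n' / M) ≤ 2 ^ (16 * n') := by
    refine (Nat.pow_le_pow_left hB _).trans ?_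
    rw [← pow_mul]
    refine Nat.pow_le_pow_right (by norm_num) ?_
    have := Nat.mul_div_le n' M
    nlinarith
  have h2 : bsum (512 * n') (n' + n' / M) ≤ 2 ^ (34 * n') := by
    have h3 : n' + n' / M ≤ 2 * n' := by
      have := Nat.div_le_self n' M
      omega
    refine (bsum_mono _ h3).trans ?_
    have h4 := bsum_le (512 * n') (2 * n') (1 / 32) (by norm_num) (by norm_num)
    have h5 : (((512 * n' : ℕ) : ℝ) * (1 / 32)) = ((16 * n' : ℕ) : ℝ) := by
      push_cast
      ring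
    rw [h5] at h4
    have h6 : (bsum (512 * n') (2 * n') : ℝ) ≤ ((2 ^ (34 * n') : ℕ) : ℝ) := by
      refine h4.trans ?_
      have h7 : (1 / (1 / 32) : ℝ) ^ (2 * n') = 2 ^ (10 * n') := by
        rw [one_div_one_div, show (32 : ℝ) = 2 ^ 5 by norm_num, ← pow_mul]
        congr 1
        ring
      rw [h7]
      have h8 := mul_le_mul_of_nonneg_right (exp_bound 16 24 n' exp16)
        (show (0 : ℝ) ≤ 2 ^ (10 * n') by positivity)
      refine h8.trans (le_of_eq ?_)
      rw [← pow_add]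
      push_cast
      congr 1
      ring
    exact_mod_cast h6
  have h3 : bsum (512 * n') n' ≤ 2 ^ (29 * n') := by
    have h4 := bsum_le (512 * n') n' (1 / 32) (by norm_num) (by norm_num)
    have h5 : (((512 * n' : ℕ) : ℝ) * (1 / 32)) = ((16 * n' : ℕ) : ℝ) := by
      push_cast
      ring
    rw [h5] at h4
    have h6 : (bsum (512 * n') n' : ℝ) ≤ ((2 ^ (29 * n') : ℕ) : ℝ) := by
      refine h4.trans ?_
      have h7 : (1 / (1 / 32) : ℝ) ^ n' = 2 ^ (5 * n') := by
        rw [one_div_one_div, show (32 : ℝ) = 2 ^ 5 by norm_num, ← pow_mul]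
      rw [h7]
      have h8 := mul_le_mul_of_nonneg_right (exp_bound 16 24 n' exp16)
        (show (0 : ℝ) ≤ 2 ^ (5 * n') by positivity)
      refine h8.trans (le_of_eq ?_)
      rw [← pow_add]
      push_cast
      congr 1
      ring
    exact_mod_cast h6
  calc B ^ (n' / M) * (bsum (512 * n') (n' + n' / M) * bsum (512 * n') n')
      ≤ 2 ^ (16 * n') * (2 ^ (34 * n') * 2 ^ (29 * n')) :=
        Nat.mul_le_mul h1 (Nat.mul_le_mul h2 h3)
    _ = 2 ^ (79 * n') := by
        rw [← pow_add, ← pow_add]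
        congr 1
        ring
    _ ≤ 2 ^ (128 * n') := Nat.pow_le_pow_right (by norm_num) (by omega)

lemma lam_num (n'' : ℕ) (h : 1 ≤ n'') : 1 + bsum (25 * (1024 * n'')) n'' ≤ 2 ^ (128 * n'') := by
  have h2 : bsum (25 * (1024 * n'')) n'' ≤ 2 ^ (83 * n'') := by
    have h4 := bsum_le (25 * (1024 * n'')) n'' (1 / 512) (by norm_num) (by norm_num)
    have h5 : (((25 * (1024 * n'') : ℕ) : ℝ) * (1 / 512)) = ((25 * (2 * n'') : ℕ) : ℝ) := by
      push_cast
      ring
    rw [h5] at h4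
    have h6 : (bsum (25 * (1024 * n'')) n'' : ℝ) ≤ ((2 ^ (83 * n'') : ℕ) : ℝ) := by
      refine h4.trans ?_
      have h7 : (1 / (1 / 512) : ℝ) ^ n'' = 2 ^ (9 * n'') := by
        rw [one_div_one_div, show (512 : ℝ) = 2 ^ 9 by norm_num, ← pow_mul]
      rw [h7]
      have h8 := mul_le_mul_of_nonneg_right (exp_bound 25 37 (2 * n'') exp25)
        (show (0 : ℝ) ≤ 2 ^ (9 * n'') by positivity)
      refine h8.trans (le_of_eq ?_)
      rw [← pow_add]
      push_cast
      congr 1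
      ring
    exact_mod_cast h6
  have h3 : 2 ^ (83 * n'') + 1 ≤ 2 ^ (128 * n'') := by
    have : 2 ^ (83 * n'') < 2 ^ (128 * n'') := Nat.pow_lt_pow_right (by norm_num) (by omega)
    omega
  omega

end Pool.Agent.H75.MT
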