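import Pool.Agent.H75.MT.Riesz

set_option autoImplicit false
set_option linter.unusedSectionVars false

/-! The final pairing. -/

open Finset ComplexConjugate MeasureTheory UnitAddTorus

namespace Pool.Agent.H75.MT

noncomputable section

local instance : MeasureSpace UnitAddCircle := ⟨AddCircle.haarAddCircle⟩

local instance : Measure.IsAddHaarMeasure (volume : Measure UnitAddCircle) :=
  inferInstanceAs (Measure.IsAddHaarMeasure AddCircle.haarAddCircle)

local instance : IsProbabilityMeasure (volume : Measure UnitAddCircle) :=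
  inferInstanceAs (IsProbabilityMeasure AddCircle.haarAddCircle)

/-- a real trigonometric polynomial -/
def rp (S : Finset (Fin 2 → ℤ)) (a : (Fin 2 → ℤ) → ℂ) : C(T2, ℂ) :=
  ∑ k ∈ S, ((1 / 2 * a k) • mFourier k + (1 / 2 * conj (a k)) • mFourier (-k))

/-- the extremal polynomial -/
def TT (K n : ℕ) (a : ℕ → (Fin 2 → ℤ) → ℂ) : C(T2, ℂ) := ∑ b ∈ Finset.range n, rp (RB K b) (a b)

lemma pair_add (P Q G : C(T2, ℂ)) :
    ∫ x, (P + Q) x * conj (G x) = (∫ x, P x * conj (G x)) + ∫ x, Q x * conj (G x) := by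
  have hP : Integrable (fun x : T2 => P x * conj (G x)) := by
    have hc : Continuous (fun x : T2 => P x * conj (G x)) := by
      have := P.continuous
      have := G.continuous
      fun_prop
    exact hc.integrable_of_hasCompactSupport (HasCompactSupport.of_compactSpace _)
  have hQ : Integrable (fun x : T2 => Q x * conj (G x)) := by
    have hc : Continuous (fun x : T2 => Q x * conj (G x)) := by
      have := Q.continuous
      have := G.continuous
      fun_prop
    exact hc.integrable_of_hasCompactSupport (HasCompactSupport.of_compactSpace _)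
  rw [← integral_add hP hQ]
  congr 1
  ext x
  rw [ContinuousMap.add_apply]
  ring

lemma pair_smul (a : ℂ) (P G : C(T2, ℂ)) :
    ∫ x, (a • P) x * conj (G x) = a * ∫ x, P x * conj (G x) := by
  rw [← integral_const_mul]
  congr 1
  ext x
  rw [ContinuousMap.smul_apply, smul_eq_mul]
  ring

lemma pair_sum {ι : Type*} (s : Finset ι) (f : ι → C(T2, ℂ)) (G : C(T2, ℂ)) :
    ∫ x, (∑ i ∈ s, f i) x * conj (G x) = ∑ i ∈ s, ∫ x, (f i) x * conj (G x) := by
  classical
  induction s using Finset.induction_on with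
  | empty => simp
  | insert a s ha ih => rw [Finset.sum_insert ha, Finset.sum_insert ha, pair_add, ih]

lemma pair_rp (G : C(T2, ℂ)) (hG : ∀ x, (G x).im = 0) (S : Finset (Fin 2 → ℤ))
    (a : (Fin 2 → ℤ) → ℂ) :
    ∫ x, (rp S a) x * conj (G x) = (((∑ k ∈ S, a k * conj (co G k)).re : ℝ) : ℂ) := by
  unfold rp
  rw [pair_sum, Complex.re_sum, Complex.ofReal_sum]
  refine Finset.sum_congr rfl (fun k _ => ?_)
  rw [pair_add, pair_smul, pair_smul, pair_mF, pair_mF, co_neg_of_real G hG, Complex.conj_conj]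
  have h1 := Complex.add_conj (a k * conj (co G k))
  rw [map_mul, Complex.conj_conj] at h1
  have h2 : (((a k * conj (co G k)).re : ℝ) : ℂ)
      = (1 / 2) * (a k * conj (co G k) + conj (a k) * co G k) := by
    rw [h1]
    push_cast
    ring
  rw [h2]
  ring

lemma co_rp (S : Finset (Fin 2 → ℤ)) (a : (Fin 2 → ℤ) → ℂ) (l : Fin 2 → ℤ) :
    co (rp S a) l = 1 / 2 * (if l ∈ S then a l else 0)
      + 1 / 2 * (if -l ∈ S then conj (a (-l)) else 0) := by
  unfold rp
  rw [co_sum]
  have h1 : ∀ k, co ((1 / 2 * a k) • mFourier k + (1 / 2 * conj (a k)) • mFourier (-k)) l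
      = 1 / 2 * (if l = k then a k else 0) + 1 / 2 * (if -l = k then conj (a k) else 0) := by
    intro k
    rw [co_add, co_smul, co_smul, co_mF, co_mF]
    have h2 : (-k = l) ↔ (-l = k) := by
      constructor
      · intro h; rw [← h, neg_neg]
      · intro h; rw [← h, neg_neg]
    simp only [h2, eq_comm (a := k) (b := l)]
    split_ifs <;> ring
  rw [Finset.sum_congr rfl (fun k _ => h1 k), Finset.sum_add_distrib, ← Finset.mul_sum,
    ← Finset.mul_sum, Finset.sum_ite_eq, Finset.sum_ite_eq]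

lemma sum_co_rp (S L : Finset (Fin 2 → ℤ)) (a : (Fin 2 → ℤ) → ℂ) :
    ∑ k ∈ L, ‖co (rp S a) k‖ ^ 2 ≤ ∑ k ∈ S, ‖a k‖ ^ 2 := by
  have h1 : ∀ k, ‖co (rp S a) k‖ ^ 2 ≤ 1 / 2 * (if k ∈ S then ‖a k‖ ^ 2 else 0)
      + 1 / 2 * (if -k ∈ S then ‖a (-k)‖ ^ 2 else 0) := by
    intro k
    rw [co_rp]
    set x : ℂ := if k ∈ S then a k else 0 with hx
    set y : ℂ := if -k ∈ S then conj (a (-k)) else 0 with hy
    have e1 : (if k ∈ S then ‖a k‖ ^ 2 else 0) = ‖x‖ ^ 2 := by
      rw [hx]; split_ifs <;> simp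
    have e2 : (if -k ∈ S then ‖a (-k)‖ ^ 2 else 0) = ‖y‖ ^ 2 := by
      rw [hy]
      split_ifs
      · rw [RCLike.norm_conj]
      · simp
    rw [e1, e2]
    have h2 : ‖1 / 2 * x + 1 / 2 * y‖ ≤ 1 / 2 * ‖x‖ + 1 / 2 * ‖y‖ := by
      refine (norm_add_le _ _).trans (le_of_eq ?_)
      rw [norm_mul, norm_mul]
      simp
    have h3 := pow_le_pow_left₀ (norm_nonneg _) h2 2
    nlinarith [sq_nonneg (‖x‖ - ‖y‖)]
  refine (Finset.sum_le_sum (fun k _ => h1 k)).trans ?_
  rw [Finset.sum_add_distrib, ← Finset.mul_sum, ← Finset.mul_sum]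
  have h4 : ∑ k ∈ L, (if k ∈ S then ‖a k‖ ^ 2 else 0) ≤ ∑ k ∈ S, ‖a k‖ ^ 2 := by
    rw [← Finset.sum_filter]
    refine Finset.sum_le_sum_of_subset_of_nonneg ?_ (fun _ _ _ => by positivity)
    intro k hk
    exact (mem_filter.1 hk).2
  have h5 : ∑ k ∈ L, (if -k ∈ S then ‖a (-k)‖ ^ 2 else 0) ≤ ∑ k ∈ S, ‖a k‖ ^ 2 := by
    rw [← Finset.sum_filter]
    have h6 : ∑ k ∈ L.filter (fun k => -k ∈ S), ‖a (-k)‖ ^ 2
        = ∑ k ∈ (L.filter (fun k => -k ∈ S)).image (fun k => -k), ‖a k‖ ^ 2 := by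
      rw [Finset.sum_image (fun a _ b _ hab => neg_injective hab)]
    rw [h6]
    refine Finset.sum_le_sum_of_subset_of_nonneg ?_ (fun _ _ _ => by positivity)
    intro k hk
    rw [mem_image] at hk
    obtain ⟨k', hk', rfl⟩ := hk
    exact (mem_filter.1 hk').2
  linarith

variable {K n J : ℕ} {G : Finset ℕ} {η2 : ℝ} {c : ℕ → (Fin 2 → ℤ) → ℂ}

lemma tp_real (h : RH K n J G η2 c) (b : ℕ) (x : T2) :
    (tp (SB K b) (c b) x).im = 0 ∧ |(tp (SB K b) (c b) x).re| ≤ 1 := by
  obtain ⟨y, rfl⟩ := exists_real x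
  rw [tp_apply]
  have h1 : ∑ k ∈ SB K b, c b k * mFourier k (fun i => (y i : UnitAddCircle))
      = ∑ k ∈ SB K b, Ek y k * c b k := by
    refine Finset.sum_congr rfl (fun k _ => ?_)
    rw [mF_coe, mul_comm]
  rw [h1]
  by_cases hb : b ∈ G
  · exact h.v1 b hb y
  · have : ∑ k ∈ SB K b, Ek y k * c b k = 0 := by
      refine Finset.sum_eq_zero (fun k _ => ?_)
      rw [h.hc0 b hb, mul_zero]
    rw [this]
    simp

lemma st_real (h : RH K n J G η2 c) (b : ℕ) (x : T2) :
    (st K c b x).im = 0 ∧ 0 ≤ (st K c b x).re := by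
  induction b with
  | zero =>
    show ((1 : C(T2, ℂ)) x).im = 0 ∧ 0 ≤ ((1 : C(T2, ℂ)) x).re
    simp
  | succ b ih =>
    show ((st K c b * (1 + tp (SB K b) (c b))) x).im = 0
      ∧ 0 ≤ ((st K c b * (1 + tp (SB K b) (c b))) x).re
    obtain ⟨t1, t2⟩ := tp_real h b x
    rw [ContinuousMap.mul_apply, ContinuousMap.add_apply, ContinuousMap.one_apply,
      Complex.mul_im, Complex.mul_re, Complex.add_im, Complex.add_re, Complex.one_im,
      Complex.one_re, t1, ih.1]
    refine ⟨by ring, ?_⟩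
    have := (abs_le.1 t2).1
    have h3 : 0 ≤ (st K c b x).re * (1 + (tp (SB K b) (c b) x).re) :=
      mul_nonneg ih.2 (by linarith)
    linarith

lemma co_st_zero (h : RH K n J G η2 c) (b : ℕ) : co (st K c b) 0 = 1 := by
  rw [co_st, if_pos rfl]
  have : ∑ j ∈ Finset.range b, co (Fn K c j) 0 = 0 := by
    refine Finset.sum_eq_zero (fun j _ => ?_)
    by_contra hne
    have hjG : j ∈ G := by
      by_contra hjG
      exact hne (Fn_zero h hjG _)
    obtain ⟨m1, -, -, -⟩ := supp h j hjG 0 hne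
    have : (0 : ℤ) < 8 ^ j := by positivity
    simp at m1
    linarith
  rw [this, add_zero]

lemma int_norm (h : RH K n J G η2 c) : ∫ x, ‖(st K c n - 1) x‖ ≤ 2 := by
  have h1 : ∫ x, ‖(st K c n - 1) x‖ ≤ ∫ x : T2, ((st K c n x).re + 1) := by
    refine integral_mono (rint _ (by fun_prop)) (rint _ (by fun_prop)) (fun x => ?_)
    obtain ⟨t1, t2⟩ := st_real h n x
    have h2 : ‖st K c n x‖ = (st K c n x).re := by
      have : st K c n x = (((st K c n x).re : ℝ) : ℂ) := by
        apply Complex.ext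
        · simp
        · simpa using t1
      rw [this, Complex.norm_real, Real.norm_eq_abs, Complex.ofReal_re, abs_of_nonneg t2]
    simp only [ContinuousMap.sub_apply, ContinuousMap.one_apply]
    refine (norm_sub_le _ _).trans ?_
    rw [h2, norm_one]
  refine h1.trans ?_
  have h3 : ∫ x : T2, ((st K c n x).re + 1) = (∫ x : T2, (st K c n x)).re + 1 := by
    rw [integral_add (rint _ (by fun_prop)) (integrable_const _)]
    congr 1
    · exact integral_re (cint (st K c n))
    · simp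
  have h4 : ∫ x : T2, (st K c n x) = 1 := by
    have h5 := co_st_zero h n
    rw [co_def, neg_zero, mFourier_zero, one_mul] at h5
    exact h5
  rw [h3, h4]
  norm_num

lemma co_main (h : RH K n J G η2 c) (b : ℕ) (hb : b < n) (k : Fin 2 → ℤ) (hk : k ∈ RB K b) :
    co (st K c n - 1) k = c b k := by
  have h1 : co (st K c n - 1) k = ∑ j ∈ Finset.range n, co (Fn K c j) k := by
    rw [co_sub, co_st, co_one]
    ring
  rw [h1, Finset.sum_eq_single b]
  · by_cases hbG : b ∈ G
    · exact near h b hbG k (Bp_sub _ _ (Rm_sub _ _ hk))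
    · rw [Fn_zero h hbG, h.hc0 b hbG]
  · intro j hj hjb
    by_contra hne
    have hjG : j ∈ G := by
      by_contra hjG
      exact hne (Fn_zero h hjG _)
    obtain ⟨m1, m2, -, -⟩ := supp h j hjG k hne
    unfold RB Rm Zf at hk
    rw [mem_bx] at hk
    push_cast at hk
    obtain ⟨⟨k1, k2⟩, -⟩ := hk
    have hp : (0 : ℤ) < 8 ^ b := by positivity
    have habs : |k 0| = k 0 := abs_of_nonneg (by linarith)
    rw [habs] at m1 m2
    rcases lt_or_gt_of_ne hjb with hlt | hgt
    · have g := pow_gap b j 1 (by omega)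
      norm_num at g
      linarith
    · have g := pow_gap j b 1 (by omega)
      norm_num at g
      linarith
  · intro hb'
    exact absurd (mem_range.2 hb) hb'

theorem main_pair (h : RH K n J G η2 c) (hη : 0 ≤ η2) (hρ : rho2 K n J η2 ≤ 2)
    (a : ℕ → (Fin 2 → ℤ) → ℂ) (ha : ∀ b, ∑ k ∈ RB K b, ‖a b k‖ ^ 2 ≤ 1) (c1 : ℝ)
    (hv4 : ∀ b ∈ G, c1 ≤ (∑ k ∈ RB K b, a b k * conj (c b k)).re) (L : Finset (Fin 2 → ℤ))
    (hv3 : ∀ b ∈ G, ∀ k ∈ L, k ∈ SB K b → c b k = 0) (d : (Fin 2 → ℤ) → ℂ) (U : ℝ)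
    (hU : ∀ x, ‖(TT K n a - tp L d) x‖ ≤ U) :
    c1 * #G ≤ 2 * U + Real.sqrt (2 * n ^ 2 + 2 * U ^ 2)
      * Real.sqrt (#L * n ^ 2 * (η2 * rho2 K n J η2)) := by
  set G0 : C(T2, ℂ) := st K c n - 1 with hG0
  have hG0r : ∀ x, (G0 x).im = 0 := by
    intro x
    rw [hG0, ContinuousMap.sub_apply, ContinuousMap.one_apply, Complex.sub_im, Complex.one_im,
      (st_real h n x).1, sub_zero]
  have hU0 : 0 ≤ U := (norm_nonneg _).trans (hU 0)
  have hρ0 : 0 ≤ rho2 K n J η2 := by
    unfold rho2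
    positivity
  have hcoG0 : ∀ k, co G0 k = ∑ j ∈ Finset.range n, co (Fn K c j) k := by
    intro k
    rw [hG0, co_sub, co_st, co_one]
    ring
  have hfar : ∀ l ∈ L, ‖co G0 l‖ ^ 2 ≤ n ^ 2 * (η2 * rho2 K n J η2) := by
    intro l hl
    rw [hcoG0]
    have h1 : ∀ j ∈ Finset.range n, ‖co (Fn K c j) l‖ ^ 2 ≤ η2 * rho2 K n J η2 := by
      intro j _
      by_cases hjG : j ∈ G
      · by_cases hl' : l ∈ SB K j
        · rw [near h j hjG l hl', hv3 j hjG l hl hl']
          simp only [norm_zero, ne_eq, OfNat.ofNat_ne_zero, not_false_eq_true, zero_pow]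
          positivity
        · exact far h hη hρ j hjG l hl'
      · rw [Fn_zero h hjG]
        simp only [norm_zero, ne_eq, OfNat.ofNat_ne_zero, not_false_eq_true, zero_pow]
        positivity
    have h6 : ‖∑ j ∈ Finset.range n, co (Fn K c j) l‖
        ≤ ∑ j ∈ Finset.range n, ‖co (Fn K c j) l‖ := norm_sum_le _ _
    have h7 := sq_sum_le_card_mul_sum_sq (s := Finset.range n)
      (f := fun j => ‖co (Fn K c j) l‖)
    rw [card_range] at h7
    have h8 := Finset.sum_le_sum h1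
    rw [Finset.sum_const, card_range, nsmul_eq_mul] at h8
    refine (pow_le_pow_left₀ (norm_nonneg _) h6 2).trans (h7.trans ?_)
    have h9 := mul_le_mul_of_nonneg_left h8 (Nat.cast_nonneg (α := ℝ) n)
    refine h9.trans (le_of_eq ?_)
    ring
  have hfarsum : ∑ l ∈ L, ‖co G0 l‖ ^ 2 ≤ #L * n ^ 2 * (η2 * rho2 K n J η2) := by
    refine (Finset.sum_le_sum hfar).trans (le_of_eq ?_)
    rw [Finset.sum_const, nsmul_eq_mul]
    ring
  have hd : ∑ k ∈ L, ‖d k‖ ^ 2 ≤ 2 * n ^ 2 + 2 * U ^ 2 := by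
    have h1 : ∀ k ∈ L, ‖d k‖ ^ 2 ≤ 2 * ‖co (TT K n a) k‖ ^ 2
        + 2 * ‖co (TT K n a - tp L d) k‖ ^ 2 := by
      intro k hk
      have h2 : d k = co (TT K n a) k - co (TT K n a - tp L d) k := by
        rw [co_sub, co_tp, if_pos hk]
        ring
      rw [h2]
      have h3 := pow_le_pow_left₀ (norm_nonneg _)
        (norm_sub_le (co (TT K n a) k) (co (TT K n a - tp L d) k)) 2
      nlinarith [sq_nonneg (‖co (TT K n a) k‖ - ‖co (TT K n a - tp L d) k‖)]
    refine (Finset.sum_le_sum h1).trans ?_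
    rw [Finset.sum_add_distrib, ← Finset.mul_sum, ← Finset.mul_sum]
    have h4 := bessel_T (TT K n a - tp L d) L U hU
    have h5 : ∑ k ∈ L, ‖co (TT K n a) k‖ ^ 2 ≤ n ^ 2 := by
      have h6 : ∀ k ∈ L, ‖co (TT K n a) k‖ ^ 2
          ≤ n * ∑ b ∈ Finset.range n, ‖co (rp (RB K b) (a b)) k‖ ^ 2 := by
        intro k _
        unfold TT
        rw [co_sum]
        have h7 := sq_sum_le_card_mul_sum_sq (s := Finset.range n)
          (f := fun b => ‖co (rp (RB K b) (a b)) k‖)
        rw [card_range] at h7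
        exact (pow_le_pow_left₀ (norm_nonneg _) (norm_sum_le _ _) 2).trans h7
      refine (Finset.sum_le_sum h6).trans ?_
      rw [← Finset.mul_sum, Finset.sum_comm]
      have h8 : ∑ b ∈ Finset.range n, ∑ k ∈ L, ‖co (rp (RB K b) (a b)) k‖ ^ 2
          ≤ ∑ b ∈ Finset.range n, (1 : ℝ) :=
        Finset.sum_le_sum (fun b _ => (sum_co_rp (RB K b) L (a b)).trans (ha b))
      rw [Finset.sum_const, card_range, nsmul_eq_mul, mul_one] at h8
      have h9 := mul_le_mul_of_nonneg_left h8 (Nat.cast_nonneg (α := ℝ) n)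
      refine h9.trans (le_of_eq ?_)
      ring
    linarith
  -- the pairing
  have hI := pair_le (TT K n a - tp L d) G0 U hU 2 (int_norm h)
  have hsplit : ∫ x, (TT K n a - tp L d) x * conj (G0 x)
      = ∑ b ∈ Finset.range n, ((((∑ k ∈ RB K b, a b k * conj (co G0 k)).re : ℝ)) : ℂ)
        - ∑ k ∈ L, d k * conj (co G0 k) := by
    have h1 : (TT K n a - tp L d) = TT K n a + (-1 : ℂ) • tp L d := by
      ext x
      rw [ContinuousMap.sub_apply, ContinuousMap.add_apply, ContinuousMap.smul_apply, smul_eq_mul]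
      ring
    rw [h1, pair_add, pair_smul, pair_tp]
    unfold TT
    rw [pair_sum]
    have h2 : ∀ b ∈ Finset.range n, ∫ x, (rp (RB K b) (a b)) x * conj (G0 x)
        = ((((∑ k ∈ RB K b, a b k * conj (co G0 k)).re : ℝ)) : ℂ) :=
      fun b _ => pair_rp G0 hG0r _ _
    rw [Finset.sum_congr rfl h2]
    ring
  have hmain : c1 * #G ≤ ∑ b ∈ Finset.range n, (∑ k ∈ RB K b, a b k * conj (co G0 k)).re := by
    have h1 : ∀ b ∈ Finset.range n, (∑ k ∈ RB K b, a b k * conj (co G0 k)).re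
        = (∑ k ∈ RB K b, a b k * conj (c b k)).re := by
      intro b hb
      congr 1
      refine Finset.sum_congr rfl (fun k hk => ?_)
      rw [co_main h b (mem_range.1 hb) k hk]
    rw [Finset.sum_congr rfl h1]
    have h2 : ∑ b ∈ Finset.range n, (∑ k ∈ RB K b, a b k * conj (c b k)).re
        = ∑ b ∈ G, (∑ k ∈ RB K b, a b k * conj (c b k)).re := by
      symm
      refine Finset.sum_subset ?_ ?_
      · intro b hb
        exact mem_range.2 (h.hG b hb)
      · intro b _ hb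
        have : ∑ k ∈ RB K b, a b k * conj (c b k) = 0 := by
          refine Finset.sum_eq_zero (fun k _ => ?_)
          rw [h.hc0 b hb, map_zero, mul_zero]
        rw [this, Complex.zero_re]
    rw [h2]
    have h3 := Finset.sum_le_sum hv4
    rw [Finset.sum_const, nsmul_eq_mul] at h3
    linarith
  have herr : ‖∑ k ∈ L, d k * conj (co G0 k)‖ ≤ Real.sqrt (2 * n ^ 2 + 2 * U ^ 2)
      * Real.sqrt (#L * n ^ 2 * (η2 * rho2 K n J η2)) := by
    refine (norm_sum_le _ _).trans ?_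
    have h1 : ∑ k ∈ L, ‖d k * conj (co G0 k)‖ = ∑ k ∈ L, ‖d k‖ * ‖co G0 k‖ := by
      refine Finset.sum_congr rfl (fun k _ => ?_)
      rw [norm_mul, RCLike.norm_conj]
    rw [h1]
    refine (Real.sum_mul_le_sqrt_mul_sqrt _ _ _).trans ?_
    exact mul_le_mul (Real.sqrt_le_sqrt hd) (Real.sqrt_le_sqrt hfarsum) (Real.sqrt_nonneg _)
      (Real.sqrt_nonneg _)
  have hre : (∫ x, (TT K n a - tp L d) x * conj (G0 x)).re
      = ∑ b ∈ Finset.range n, (∑ k ∈ RB K b, a b k * conj (co G0 k)).re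
        - (∑ k ∈ L, d k * conj (co G0 k)).re := by
    rw [hsplit, Complex.sub_re, Complex.re_sum]
    simp only [Complex.ofReal_re]
  have h1 := (Complex.re_le_norm (∫ x, (TT K n a - tp L d) x * conj (G0 x))).trans hI
  have h2 := (Complex.re_le_norm (∑ k ∈ L, d k * conj (co G0 k))).trans herr
  linarith

end

end Pool.Agent.H75.MT
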