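import Pool.Agent.H75.MT.Lower
import Pool.Agent.H75.MT.Khin

set_option autoImplicit false
set_option linter.unusedSectionVars false

/-! The preimage under the Bernoulli kernel and its integral norms. -/

open Finset ComplexConjugate MeasureTheory UnitAddTorus

namespace Pool.Agent.H75.MT

noncomputable section

local instance : MeasureSpace UnitAddCircle := ⟨AddCircle.haarAddCircle⟩

local instance : Measure.IsAddHaarMeasure (volume : Measure UnitAddCircle) :=
  inferInstanceAs (Measure.IsAddHaarMeasure AddCircle.haarAddCircle)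

local instance : IsProbabilityMeasure (volume : Measure UnitAddCircle) :=
  inferInstanceAs (IsProbabilityMeasure AddCircle.haarAddCircle)

/-- the multiplier -/
def mu (r : ℝ) (K : ℕ) (k : Fin 2 → ℤ) : ℂ :=
  (((((k 0 : ℝ) * (k 1 : ℝ)) / 8 ^ (K + 2)) ^ r : ℝ) : ℂ) * Complex.exp ((Real.pi * r : ℝ) * Complex.I)

lemma mu_norm (r : ℝ) (hr : 0 < r) (K b : ℕ) (hb : b ≤ K) (k : Fin 2 → ℤ) (hk : k ∈ RB K b) :
    ‖mu r K k‖ ≤ 4 ^ r := by
  unfold mu
  rw [norm_mul, Complex.norm_exp_ofReal_mul_I, mul_one, Complex.norm_real, Real.norm_eq_abs]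
  unfold RB Rm at hk
  rw [mem_bx] at hk
  have hZ : (0 : ℝ) < Zf b := by exact_mod_cast Zf_pos b
  have hZ' : (0 : ℝ) < Zs K b := by exact_mod_cast Zs_pos K b
  have h1 : (2 * (Zf b : ℝ)) ≤ k 0 := by exact_mod_cast hk.1.1
  have h2 : (k 0 : ℝ) ≤ 4 * (Zf b : ℝ) := by exact_mod_cast hk.1.2.le
  have h3 : (2 * (Zs K b : ℝ)) ≤ k 1 := by exact_mod_cast hk.2.1
  have h4 : (k 1 : ℝ) ≤ 4 * (Zs K b : ℝ) := by exact_mod_cast hk.2.2.le
  have h5 : (8 : ℝ) ^ (K + 2) = 2 * Zf b * (2 * Zs K b) := by exact_mod_cast card_eq K b hb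
  have h6 : (0 : ℝ) ≤ ((k 0 : ℝ) * (k 1 : ℝ)) / 8 ^ (K + 2) :=
    div_nonneg (mul_nonneg (by linarith) (by linarith)) (by positivity)
  rw [abs_of_nonneg (Real.rpow_nonneg h6 _)]
  refine Real.rpow_le_rpow h6 ?_ hr.le
  rw [h5, div_le_iff₀ (by positivity)]
  have h7 : (k 0 : ℝ) * k 1 ≤ (4 * Zf b) * (4 * Zs K b) :=
    mul_le_mul h2 h4 (by linarith) (by positivity)
  linarith

lemma rp_apply (S : Finset (Fin 2 → ℤ)) (a : (Fin 2 → ℤ) → ℂ) (x : T2) :
    rp S a x = ((∑ k ∈ S, (a k * mFourier k x).re : ℝ) : ℂ) := by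
  unfold rp
  rw [ContinuousMap.coe_sum, Finset.sum_apply, Complex.ofReal_sum]
  refine Finset.sum_congr rfl (fun k _ => ?_)
  rw [ContinuousMap.add_apply, ContinuousMap.smul_apply, ContinuousMap.smul_apply, smul_eq_mul,
    smul_eq_mul, mFourier_neg]
  have h1 := Complex.add_conj (a k * mFourier k x)
  rw [map_mul] at h1
  have h2 : (((a k * mFourier k x).re : ℝ) : ℂ)
      = (1 / 2) * (a k * mFourier k x + conj (a k) * conj (mFourier k x)) := by
    rw [h1]
    push_cast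
    ring
  rw [h2]
  ring

/-- the coefficients of the preimage -/
def pa (r : ℝ) (K : ℕ) (ε : ℕ → Finset (YK K)) (b : ℕ) (k : Fin 2 → ℤ) : ℂ :=
  mu r K k * aa K ε b k

/-- the kernel of the Rademacher sum -/
def kf (r : ℝ) (K : ℕ) (x : T2) (b : ℕ) (y : YK K) : ℝ :=
  if hb : b ≤ K then
    (∑ k ∈ RB K b, (1 / ((2 * Zf b : ℕ) * (2 * Zs K b : ℕ) : ℝ) : ℝ) *
      (mu r K k * mFourier k x * conj (chi (Zf b) (Zs K b) (eb K b hb) k y))).re
  else 0

lemma TT_real (K n : ℕ) (a : ℕ → (Fin 2 → ℤ) → ℂ) (x : T2) : (TT K n a x).im = 0 := by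
  unfold TT
  rw [ContinuousMap.coe_sum, Finset.sum_apply, Complex.im_sum]
  refine Finset.sum_eq_zero (fun b _ => ?_)
  rw [rp_apply, Complex.ofReal_im]

lemma phi_rad (r : ℝ) (K n : ℕ) (x : T2) (ε : Fin n → Finset (YK K)) :
    (TT K n (pa r K (ext ε)) x).re = rad (fun (b : Fin n) y => kf r K x b y) ε := by
  unfold TT rad
  rw [ContinuousMap.coe_sum, Finset.sum_apply, Complex.re_sum, Finset.sum_range]
  refine Finset.sum_congr rfl (fun b _ => ?_)
  rw [rp_apply, Complex.ofReal_re, ← Complex.re_sum]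
  have hext : ext ε (b : ℕ) = ε b := by
    unfold ext
    rw [dif_pos b.2]
  by_cases hb : (b : ℕ) ≤ K
  · have h1 : ∑ k ∈ RB K b, pa r K (ext ε) b k * mFourier k x
        = ∑ y, (sg (ε b) y : ℂ) * ∑ k ∈ RB K b,
          (1 / ((2 * Zf b : ℕ) * (2 * Zs K b : ℕ) : ℝ) : ℝ) *
          (mu r K k * mFourier k x * conj (chi (Zf b) (Zs K b) (eb K b hb) k y)) := by
      have h2 : ∀ k, pa r K (ext ε) b k * mFourier k x
          = ∑ y, (sg (ε b) y : ℂ) * ((1 / ((2 * Zf b : ℕ) * (2 * Zs K b : ℕ) : ℝ) : ℝ) *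
          (mu r K k * mFourier k x * conj (chi (Zf b) (Zs K b) (eb K b hb) k y))) := by
        intro k
        unfold pa aa
        rw [dif_pos hb, hext]
        unfold hat
        rw [Finset.mul_sum, Finset.mul_sum, Finset.sum_mul]
        refine Finset.sum_congr rfl (fun y _ => ?_)
        ring
      rw [Finset.sum_congr rfl (fun k _ => h2 k), Finset.sum_comm]
      refine Finset.sum_congr rfl (fun y _ => ?_)
      rw [Finset.mul_sum]
    rw [h1, Complex.re_sum]
    refine Finset.sum_congr rfl (fun y _ => ?_)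
    rw [Complex.re_ofReal_mul]
    have h3 : kf r K x b y = (∑ k ∈ RB K b, (1 / ((2 * Zf b : ℕ) * (2 * Zs K b : ℕ) : ℝ) : ℝ) *
      (mu r K k * mFourier k x * conj (chi (Zf b) (Zs K b) (eb K b hb) k y))).re := by
      unfold kf
      rw [dif_pos hb]
    show _ = sg (ε b) y * kf r K x b y
    rw [h3]
  · have h1 : ∀ k, pa r K (ext ε) b k = 0 := by
      intro k
      unfold pa aa
      rw [dif_neg hb, mul_zero]
    have h2 : ∀ y, kf r K x b y = 0 := by
      intro y
      unfold kf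
      rw [dif_neg hb]
    simp only [h1, h2, zero_mul, mul_zero, Finset.sum_const_zero, Complex.zero_re]

lemma mF_norm_apply (k : Fin 2 → ℤ) (x : T2) : ‖mFourier k x‖ = 1 := by
  obtain ⟨y, rfl⟩ := exists_real x
  rw [mF_coe, Ek_norm]

lemma RB_card (K b : ℕ) : (#(RB K b) : ℝ) = ((2 * Zf b : ℕ) * (2 * Zs K b : ℕ) : ℝ) := by
  unfold RB Rm
  rw [card_bx]
  have h1 : (4 * (Zf b : ℤ) - 2 * Zf b).toNat = 2 * Zf b := by omega
  have h2 : (4 * (Zs K b : ℤ) - 2 * Zs K b).toNat = 2 * Zs K b := by omega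
  rw [h1, h2]
  push_cast
  rfl

lemma kf_sq (r : ℝ) (hr : 0 < r) (K : ℕ) (x : T2) (b : ℕ) :
    ∑ y, (kf r K x b y) ^ 2 ≤ (4 ^ r) ^ 2 := by
  by_cases hb : b ≤ K
  · set N : ℝ := ((2 * Zf b : ℕ) * (2 * Zs K b : ℕ) : ℝ) with hNdef
    have hN : 0 < N := by
      rw [hNdef]
      have := Zf_pos b
      have := Zs_pos K b
      positivity
    have h1 : ∀ y, (kf r K x b y) ^ 2 ≤ (1 / N) ^ 2 *
        ‖∑ k ∈ bx (2 * Zf b) (4 * Zf b) (2 * Zs K b) (4 * Zs K b),
          conj (mu r K k * mFourier k x) * chi (Zf b) (Zs K b) (eb K b hb) k y‖ ^ 2 := by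
      intro y
      unfold kf
      rw [dif_pos hb]
      have h2 : ∑ k ∈ RB K b, ((1 / N : ℝ) : ℂ) *
          (mu r K k * mFourier k x * conj (chi (Zf b) (Zs K b) (eb K b hb) k y))
          = ((1 / N : ℝ) : ℂ) * conj (∑ k ∈ bx (2 * Zf b) (4 * Zf b) (2 * Zs K b) (4 * Zs K b),
          conj (mu r K k * mFourier k x) * chi (Zf b) (Zs K b) (eb K b hb) k y) := by
        rw [← Finset.mul_sum, map_sum]
        congr 1
        refine Finset.sum_congr rfl (fun k _ => ?_)
        rw [map_mul, Complex.conj_conj]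
      rw [h2]
      have h3 := Complex.abs_re_le_norm (((1 / N : ℝ) : ℂ)
        * conj (∑ k ∈ bx (2 * Zf b) (4 * Zf b) (2 * Zs K b) (4 * Zs K b),
          conj (mu r K k * mFourier k x) * chi (Zf b) (Zs K b) (eb K b hb) k y))
      have h5 : |1 / N| = 1 / N := abs_of_pos (by positivity)
      rw [norm_mul, RCLike.norm_conj, Complex.norm_real, Real.norm_eq_abs, h5] at h3
      have h4 := pow_le_pow_left₀ (abs_nonneg _) h3 2
      rw [sq_abs, mul_pow] at h4
      exact h4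
    refine (Finset.sum_le_sum (fun y _ => h1 y)).trans ?_
    rw [← Finset.mul_sum]
    have h5 := bessel_two (Zf b) (Zs K b) (eb K b hb) (Zf_pos b) (Zs_pos K b) 1 1 (2 * Zf b)
      (4 * Zf b) (2 * Zs K b) (4 * Zs K b) (by push_cast; linarith) (by push_cast; linarith)
      (fun k => conj (mu r K k * mFourier k x))
    have h6 : ∑ k ∈ bx (2 * Zf b) (4 * Zf b) (2 * Zs K b) (4 * Zs K b),
        ‖conj (mu r K k * mFourier k x)‖ ^ 2 ≤ N * (4 ^ r) ^ 2 := by
      have h7 : ∀ k ∈ bx (2 * Zf b) (4 * Zf b) (2 * Zs K b) (4 * Zs K b),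
          ‖conj (mu r K k * mFourier k x)‖ ^ 2 ≤ (4 ^ r) ^ 2 := by
        intro k hk
        rw [RCLike.norm_conj, norm_mul, mF_norm_apply, mul_one]
        exact pow_le_pow_left₀ (norm_nonneg _) (mu_norm r hr K b hb k hk) 2
      refine (Finset.sum_le_sum h7).trans (le_of_eq ?_)
      rw [Finset.sum_const, nsmul_eq_mul]
      have := RB_card K b
      unfold RB Rm at this
      rw [this]
    rw [← hNdef] at h5
    have h8 : (1 / N) ^ 2 * ∑ y, ‖∑ k ∈ bx (2 * Zf b) (4 * Zf b) (2 * Zs K b) (4 * Zs K b),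
          conj (mu r K k * mFourier k x) * chi (Zf b) (Zs K b) (eb K b hb) k y‖ ^ 2
        ≤ (1 / N) ^ 2 * (N * (1 * 1 : ℕ) * (N * (4 ^ r) ^ 2)) :=
      mul_le_mul_of_nonneg_left (h5.trans (mul_le_mul_of_nonneg_left h6 (by positivity)))
        (by positivity)
    refine h8.trans (le_of_eq ?_)
    push_cast
    field_simp
  · have h2 : ∀ y, kf r K x b y = 0 := by
      intro y
      unfold kf
      rw [dif_neg hb]
    simp only [h2]
    simp
    positivity

/-- moment of the preimage at a point -/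
lemma phi_moment (r : ℝ) (hr : 0 < r) (K n : ℕ) (hn : 1 ≤ n) (x : T2) (m : ℕ) :
    ∑ ε : Fin n → Finset (YK K), |(TT K n (pa r K (ext ε)) x).re| ^ m
      ≤ (2 ^ Fintype.card (YK K)) ^ n * (4 * m.factorial * (Real.sqrt (n * (4 ^ r) ^ 2)) ^ m) := by
  have hn' : (0 : ℝ) < n := by exact_mod_cast hn
  have h1 := moment (fun (b : Fin n) y => kf r K x b y) (n * (4 ^ r) ^ 2) (by positivity) ?_ m
  · simp only [phi_rad]
    exact h1
  · have h2 : ∀ b : Fin n, ∑ y, (kf r K x b y) ^ 2 ≤ (4 ^ r) ^ 2 := fun b => kf_sq r hr K x b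
    refine (Finset.sum_le_sum (fun b _ => h2 b)).trans (le_of_eq ?_)
    rw [Finset.sum_const, Finset.card_univ, Fintype.card_fin, nsmul_eq_mul]

open Classical in
/-- a sign sequence which is good in both respects -/
lemma exists_good (r : ℝ) (hr : 0 < r) (K s : ℕ) (hK : 2 ≤ K) (hn : JJ K * s ≤ K + 1)
    (hs : 1 ≤ s) (m : ℕ) :
    ∃ ε : Fin (JJ K * s) → Finset (YK K), ε ∉ BadU K (JJ K) s ∧
      ∫ x : T2, |(TT K (JJ K * s) (pa r K (ext ε)) x).re| ^ m
        ≤ 2 * (4 * m.factorial * (Real.sqrt (((JJ K * s : ℕ) : ℝ) * (4 ^ r) ^ 2)) ^ m) := by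
  set n := JJ K * s with hndef
  set C : ℝ := 4 * m.factorial * (Real.sqrt ((n : ℝ) * (4 ^ r) ^ 2)) ^ m with hC
  have hn1 : 1 ≤ n := Nat.mul_pos (by unfold JJ; omega) hs
  have hn0 : (0 : ℝ) < n := by exact_mod_cast hn1
  have hCpos : 0 < C := by positivity
  have hint : ∀ ε : Fin n → Finset (YK K),
      Integrable (fun x : T2 => |(TT K n (pa r K (ext ε)) x).re| ^ m) := by
    intro ε
    exact rint _ (by fun_prop)
  have hsum : ∑ ε : Fin n → Finset (YK K), ∫ x : T2, |(TT K n (pa r K (ext ε)) x).re| ^ m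
      ≤ (2 ^ Fintype.card (YK K)) ^ n * C := by
    rw [← integral_finsetSum _ (fun ε _ => hint ε)]
    have h1 : ∫ x : T2, ∑ ε : Fin n → Finset (YK K), |(TT K n (pa r K (ext ε)) x).re| ^ m
        ≤ ∫ _x : T2, (2 ^ Fintype.card (YK K)) ^ n * C := by
      refine integral_mono (integrable_finsetSum _ (fun ε _ => hint ε)) (integrable_const _)
        (fun x => ?_)
      exact phi_moment r hr K n hn1 x m
    refine h1.trans (le_of_eq ?_)
    simp
  by_contra hcon
  push Not at hcon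
  have h2 : ∀ ε ∈ (univ : Finset (Fin n → Finset (YK K))) \ BadU K (JJ K) s,
      2 * C ≤ ∫ x : T2, |(TT K n (pa r K (ext ε)) x).re| ^ m := by
    intro ε hε
    rw [mem_sdiff] at hε
    exact (hcon ε hε.2).le
  have h3 := Finset.sum_le_sum h2
  rw [Finset.sum_const, nsmul_eq_mul] at h3
  have h4 : ∑ ε ∈ (univ : Finset (Fin n → Finset (YK K))) \ BadU K (JJ K) s,
      ∫ x : T2, |(TT K n (pa r K (ext ε)) x).re| ^ m
      ≤ ∑ ε : Fin n → Finset (YK K), ∫ x : T2, |(TT K n (pa r K (ext ε)) x).re| ^ m :=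
    Finset.sum_le_sum_of_subset_of_nonneg (Finset.subset_univ _)
      (fun ε _ _ => integral_nonneg (fun x => by positivity))
  have h5 := h3.trans (h4.trans hsum)
  have hTot : #(univ : Finset (Fin n → Finset (YK K))) = (2 ^ Fintype.card (YK K)) ^ n := by
    rw [Finset.card_univ, Fintype.card_fun, Fintype.card_finset, Fintype.card_fin (n := n)]
  have hBad := BadU_card K (JJ K) s hK hn hs
  have h6 : #((univ : Finset (Fin n → Finset (YK K))) \ BadU K (JJ K) s)
      = (2 ^ Fintype.card (YK K)) ^ n - #(BadU K (JJ K) s) := by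
    rw [Finset.card_sdiff_of_subset (Finset.subset_univ _), hTot]
  have h7 : (2 ^ Fintype.card (YK K)) ^ n = 2 ^ (1024 * n2 K * n) := by
    have : Fintype.card (YK K) = 1024 * n2 K := by rw [Fintype.card_fin, N_eq2 K hK]
    rw [this, ← pow_mul]
  rw [← h7] at hBad
  set T := (2 ^ Fintype.card (YK K)) ^ n with hT
  have hTpos : 0 < T := by positivity
  have h8 : (#((univ : Finset (Fin n → Finset (YK K))) \ BadU K (JJ K) s) : ℝ)
      = (T : ℝ) - #(BadU K (JJ K) s) := by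
    rw [h6, Nat.cast_sub (by omega)]
  rw [h8] at h5
  have h9 : (4 : ℝ) * #(BadU K (JJ K) s) ≤ T := by exact_mod_cast hBad
  have h10 : (0 : ℝ) < T := by exact_mod_cast hTpos
  have h11 : ((2 ^ Fintype.card (YK K) : ℝ)) ^ n = (T : ℝ) := by
    rw [hT]
    push_cast
    rfl
  rw [h11] at h5
  nlinarith [mul_pos h10 hCpos]

end

end Pool.Agent.H75.MT
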