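import Pool.Agent.H75.MT.Step

set_option autoImplicit false
set_option linter.unusedSectionVars false

/-! Existence of the factor for most sign vectors. -/

open Finset ComplexConjugate

namespace Pool.Agent.H75.MT

section Grid3

variable {Y : Type*} [Fintype Y] [DecidableEq Y] (Z Z' : ℕ) (e : Y ≃ Fin (2 * Z) × Fin (2 * Z'))

/-- the conditions on one factor -/
structure Valid (big : Finset (Fin 2 → ℤ)) (η2 c1 : ℝ) (ψ : (Fin 2 → ℤ) → ℂ)
    (lam : Finset (Fin 2 → ℤ)) (s : Finset Y) (c : (Fin 2 → ℤ) → ℂ) : Prop where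
  v1 : ∀ x : Fin 2 → ℝ, (∑ k ∈ sB Z Z', Ek x k * c k).im = 0 ∧
    |(∑ k ∈ sB Z Z', Ek x k * c k).re| ≤ 1
  v2 : ∀ k, k ∉ sB Z Z' → c k = 0
  v3 : ∀ k ∈ lam, c k = 0
  v4 : c1 ≤ (∑ k ∈ Rm Z Z', hat Z Z' e (sg s) k * conj (c k)).re
  v5 : ∀ l ∈ big, ‖∑ k ∈ sB Z Z', ψ (l - k) * c k‖ ^ 2
    ≤ η2 * ∑ k ∈ sB Z Z', ‖ψ (l - k)‖ ^ 2

/-- the functionals to be kept small -/
noncomputable def om (ψ : (Fin 2 → ℤ) → ℂ) (l : Fin 2 → ℤ) (y : Y) : ℂ :=
  (1 / 16) * ∑ k ∈ Bp Z Z', ((KK Z Z' k : ℂ) * ψ (l - k) * conj (chi Z Z' e k y)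
    + (KK Z Z' k : ℂ) * ψ (l + k) * chi Z Z' e k y)

variable (hZ : 0 < Z) (hZ' : 0 < Z')

include hZ in
lemma sum_pm (g : (Fin 2 → ℤ) → ℝ) (hg : ∀ k, 0 ≤ g k) :
    ∑ k ∈ Bp Z Z', (g k + g (-k)) ≤ ∑ k ∈ sB Z Z', g k := by
  have hdisj : Disjoint (Bp Z Z') ((Bp Z Z').image (fun k => -k)) := by
    rw [Finset.disjoint_left]
    intro k hk hk'
    rw [mem_image] at hk'
    obtain ⟨k', hk', rfl⟩ := hk'
    exact Bp_neg Z Z' hZ hk' hk
  have hsub : (Bp Z Z') ∪ ((Bp Z Z').image (fun k => -k)) ⊆ sB Z Z' := by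
    refine Finset.union_subset (Bp_sub Z Z') ?_
    intro k hk
    rw [mem_image] at hk
    obtain ⟨k', hk', rfl⟩ := hk
    exact neg_mem_sB Z Z' (Bp_sub Z Z' hk')
  refine le_trans (le_of_eq ?_) (Finset.sum_le_sum_of_subset_of_nonneg hsub (fun k _ _ => hg k))
  rw [Finset.sum_union hdisj, Finset.sum_image (fun a _ b _ hab => neg_injective hab),
    ← Finset.sum_add_distrib]

lemma conj_hat (h : Y → ℝ) (k : Fin 2 → ℤ) : conj (hat Z Z' e h k)
    = (1 / ((2 * Z : ℕ) * (2 * Z' : ℕ) : ℝ) : ℝ) * ∑ y, (h y : ℂ) * chi Z Z' e k y := by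
  unfold hat
  rw [map_mul, Complex.conj_ofReal, map_sum]
  simp only [map_mul, Complex.conj_ofReal, Complex.conj_conj]

include hZ in
lemma pair_om (ψ : (Fin 2 → ℤ) → ℂ) (l : Fin 2 → ℤ) (h : Y → ℝ) :
    ∑ k ∈ sB Z Z', ψ (l - k) * cf Z Z' e h k
      = (1 / ((2 * Z : ℕ) * (2 * Z' : ℕ) : ℝ) : ℝ) * ∑ y, (h y : ℂ) * om Z Z' e ψ l y := by
  rw [sum_cf Z Z' e hZ h (fun k => ψ (l - k))]
  have h1 : ∀ k, ψ (l - k) * CC Z Z' e h k + ψ (l - -k) * conj (CC Z Z' e h k)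
      = (1 / ((2 * Z : ℕ) * (2 * Z' : ℕ) : ℝ) : ℝ) * ∑ y, (h y : ℂ) * ((1 / 16)
        * ((KK Z Z' k : ℂ) * ψ (l - k) * conj (chi Z Z' e k y)
          + (KK Z Z' k : ℂ) * ψ (l + k) * chi Z Z' e k y)) := by
    intro k
    unfold CC
    rw [map_mul, map_mul, Complex.conj_ofReal, conj_hat]
    unfold hat
    rw [sub_neg_eq_add]
    have e1 : conj (1 / 16 : ℂ) = 1 / 16 := by
      rw [map_div₀, map_one, Complex.conj_ofNat]
    rw [e1]
    have e2 : ∑ y, (h y : ℂ) * ((1 / 16)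
        * ((KK Z Z' k : ℂ) * ψ (l - k) * conj (chi Z Z' e k y)
          + (KK Z Z' k : ℂ) * ψ (l + k) * chi Z Z' e k y))
        = (1 / 16) * (KK Z Z' k : ℂ) * ψ (l - k) * ∑ y, (h y : ℂ) * conj (chi Z Z' e k y)
          + (1 / 16) * (KK Z Z' k : ℂ) * ψ (l + k) * ∑ y, (h y : ℂ) * chi Z Z' e k y := by
      rw [Finset.mul_sum, Finset.mul_sum, ← Finset.sum_add_distrib]
      refine Finset.sum_congr rfl (fun y _ => ?_)
      ring
    rw [e2]
    ring
  rw [Finset.sum_congr rfl (fun k _ => h1 k), ← Finset.mul_sum, Finset.sum_comm]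
  congr 1
  refine Finset.sum_congr rfl (fun y _ => ?_)
  unfold om
  rw [Finset.mul_sum, Finset.mul_sum]

include hZ hZ' in
lemma om_sq (ψ : (Fin 2 → ℤ) → ℂ) (l : Fin 2 → ℤ) :
    ∑ y, ‖om Z Z' e ψ l y‖ ^ 2
      ≤ (((2 * Z : ℕ) * (2 * Z' : ℕ) : ℝ) / 32) * ∑ k ∈ sB Z Z', ‖ψ (l - k)‖ ^ 2 := by
  set P : Y → ℂ := fun y => ∑ k ∈ Bp Z Z', conj ((KK Z Z' k : ℂ) * ψ (l - k)) * chi Z Z' e k y
    with hP
  set Q : Y → ℂ := fun y => ∑ k ∈ Bp Z Z', ((KK Z Z' k : ℂ) * ψ (l + k)) * chi Z Z' e k y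
    with hQ
  have hom : ∀ y, ‖om Z Z' e ψ l y‖ ^ 2 ≤ (1 / 128) * ‖P y‖ ^ 2 + (1 / 128) * ‖Q y‖ ^ 2 := by
    intro y
    have h1 : om Z Z' e ψ l y = (1 / 16) * (conj (P y) + Q y) := by
      unfold om
      rw [Finset.sum_add_distrib, hP, hQ]
      simp only [map_sum, map_mul, Complex.conj_conj]
    rw [h1, norm_mul, mul_pow]
    have h2 : ‖(1 / 16 : ℂ)‖ = 1 / 16 := by
      rw [norm_div, norm_one, RCLike.norm_ofNat]
    rw [h2]
    have h3 : ‖conj (P y) + Q y‖ ≤ ‖P y‖ + ‖Q y‖ := by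
      refine (norm_add_le _ _).trans (le_of_eq ?_)
      rw [RCLike.norm_conj]
    have h4 : ‖conj (P y) + Q y‖ ^ 2 ≤ (‖P y‖ + ‖Q y‖) ^ 2 :=
      pow_le_pow_left₀ (norm_nonneg _) h3 2
    nlinarith [sq_nonneg (‖P y‖ - ‖Q y‖)]
  have hK : ∀ k z, ‖(KK Z Z' k : ℂ) * z‖ ^ 2 ≤ ‖z‖ ^ 2 := by
    intro k z
    refine pow_le_pow_left₀ (norm_nonneg _) ?_ 2
    rw [norm_mul, Complex.norm_real, Real.norm_eq_abs, abs_of_nonneg (KK_nonneg Z Z' k)]
    exact mul_le_of_le_one_left (norm_nonneg _) (KK_le_one Z Z' k)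
  have bP : ∑ y, ‖P y‖ ^ 2 ≤ ((2 * Z : ℕ) * (2 * Z' : ℕ) : ℝ) * (2 * 2 : ℕ)
      * ∑ k ∈ Bp Z Z', ‖ψ (l - k)‖ ^ 2 := by
    have h1 := bessel_two Z Z' e hZ hZ' 2 2 Z (5 * Z) Z' (5 * Z') (by push_cast; linarith)
      (by push_cast; linarith) (fun k => conj ((KK Z Z' k : ℂ) * ψ (l - k)))
    refine h1.trans ?_
    refine mul_le_mul_of_nonneg_left ?_ (by positivity)
    refine Finset.sum_le_sum (fun k _ => ?_)
    rw [RCLike.norm_conj]
    exact hK k _
  have bQ : ∑ y, ‖Q y‖ ^ 2 ≤ ((2 * Z : ℕ) * (2 * Z' : ℕ) : ℝ) * (2 * 2 : ℕ)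
      * ∑ k ∈ Bp Z Z', ‖ψ (l + k)‖ ^ 2 := by
    have h1 := bessel_two Z Z' e hZ hZ' 2 2 Z (5 * Z) Z' (5 * Z') (by push_cast; linarith)
      (by push_cast; linarith) (fun k => ((KK Z Z' k : ℂ) * ψ (l + k)))
    refine h1.trans ?_
    refine mul_le_mul_of_nonneg_left ?_ (by positivity)
    refine Finset.sum_le_sum (fun k _ => ?_)
    exact hK k _
  have hs := sum_pm Z Z' hZ (fun k => ‖ψ (l - k)‖ ^ 2) (fun k => by positivity)
  simp only [sub_neg_eq_add] at hs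
  rw [Finset.sum_add_distrib] at hs
  refine (Finset.sum_le_sum (fun y _ => hom y)).trans ?_
  rw [Finset.sum_add_distrib, ← Finset.mul_sum, ← Finset.mul_sum]
  have hN : (0 : ℝ) ≤ ((2 * Z : ℕ) * (2 * Z' : ℕ) : ℝ) := by positivity
  have h5 := mul_le_mul_of_nonneg_left hs hN
  push_cast at bP bQ h5 ⊢
  nlinarith

include hZ hZ' in
lemma cf_v1 (h : Y → ℝ) (hh : ∀ y, |h y| ≤ 1) (x : Fin 2 → ℝ) :
    (∑ k ∈ sB Z Z', Ek x k * cf Z Z' e h k).im = 0 ∧
      |(∑ k ∈ sB Z Z', Ek x k * cf Z Z' e h k).re| ≤ 1 := by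
  rw [sum_cf Z Z' e hZ h (fun k => Ek x k)]
  have h1 : ∀ k, Ek x k * CC Z Z' e h k + Ek x (-k) * conj (CC Z Z' e h k)
      = ((2 * (Ek x k * CC Z Z' e h k).re : ℝ) : ℂ) := by
    intro k
    rw [Ek_neg, ← map_mul, Complex.add_conj]
  rw [Finset.sum_congr rfl (fun k _ => h1 k), ← Complex.ofReal_sum]
  refine ⟨Complex.ofReal_im _, ?_⟩
  rw [Complex.ofReal_re, ← Finset.mul_sum, ← Complex.re_sum]
  have h2 : ∑ k ∈ Bp Z Z', Ek x k * CC Z Z' e h k
      = (1 / 16) * ((1 / ((2 * Z : ℕ) * (2 * Z' : ℕ) : ℝ) : ℝ) * ∑ y, (h y : ℂ) *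
        ∑ k ∈ Bp Z Z', (KK Z Z' k : ℂ) * (Ek x k * conj (chi Z Z' e k y))) := by
    have e1 : ∀ k, Ek x k * CC Z Z' e h k = (1 / 16) * ((1 / ((2 * Z : ℕ) * (2 * Z' : ℕ) : ℝ) : ℝ)
        * ∑ y, (h y : ℂ) * ((KK Z Z' k : ℂ) * (Ek x k * conj (chi Z Z' e k y)))) := by
      intro k
      unfold CC hat
      have e2 : ∑ y, (h y : ℂ) * ((KK Z Z' k : ℂ) * (Ek x k * conj (chi Z Z' e k y)))
          = (KK Z Z' k : ℂ) * Ek x k * ∑ y, (h y : ℂ) * conj (chi Z Z' e k y) := by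
        rw [Finset.mul_sum]
        refine Finset.sum_congr rfl (fun y _ => ?_)
        ring
      rw [e2]
      ring
    rw [Finset.sum_congr rfl (fun k _ => e1 k), ← Finset.mul_sum, ← Finset.mul_sum,
      Finset.sum_comm]
    congr 2
    refine Finset.sum_congr rfl (fun y _ => ?_)
    rw [Finset.mul_sum]
  have hN : (0 : ℝ) < ((2 * Z : ℕ) * (2 * Z' : ℕ) : ℝ) := by positivity
  have h3 : ‖∑ k ∈ Bp Z Z', Ek x k * CC Z Z' e h k‖ ≤ (1 / 16) * (25 / 4) := by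
    rw [h2, norm_mul, norm_mul]
    have e2 : ‖(1 / 16 : ℂ)‖ = 1 / 16 := by
      rw [norm_div, norm_one, RCLike.norm_ofNat]
    rw [e2]
    refine mul_le_mul_of_nonneg_left ?_ (by norm_num)
    rw [Complex.norm_real, Real.norm_eq_abs, abs_of_pos (by positivity), one_div,
      inv_mul_le_iff₀ hN]
    refine (norm_sum_le _ _).trans ?_
    have h4 := kernel_two Z Z' e hZ hZ' x
    refine le_trans (Finset.sum_le_sum (fun y _ => ?_)) (h4.trans (le_of_eq (by ring)))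
    rw [norm_mul, Complex.norm_real, Real.norm_eq_abs]
    exact mul_le_of_le_one_left (norm_nonneg _) (hh y)
  have h5 := (Complex.abs_re_le_norm _).trans h3
  rw [abs_mul, abs_two]
  linarith

include hZ hZ' in
lemma cf_v4 (h : Y → ℝ) (s : Y → ℝ) :
    (∑ k ∈ Rm Z Z', hat Z Z' e s k * conj (cf Z Z' e h k)).re
      = (∑ y, h y * s y) / (16 * ((2 * Z : ℕ) * (2 * Z' : ℕ) : ℝ)) := by
  have hN : (((2 * Z : ℕ) * (2 * Z' : ℕ) : ℝ)) ≠ 0 := by positivity
  set N : ℝ := ((2 * Z : ℕ) * (2 * Z' : ℕ) : ℝ) with hNdef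
  have h1 : ∑ k ∈ Rm Z Z', hat Z Z' e s k * conj (cf Z Z' e h k)
      = (((∑ y, h y * s y) / (16 * N) : ℝ) : ℂ) := by
    have e1 : ∀ k ∈ Rm Z Z', hat Z Z' e s k * conj (cf Z Z' e h k)
        = (1 / 16) * ((1 / N : ℝ) * ((1 / N : ℝ) * ∑ y, ∑ y', ((s y : ℂ) * (h y' : ℂ))
          * (chi Z Z' e k y' * conj (chi Z Z' e k y)))) := by
      intro k hk
      unfold cf
      rw [if_pos (Rm_sub Z Z' hk)]
      unfold CC
      rw [KK_eq_one Z Z' hZ hZ' hk, map_mul, map_mul, conj_hat, Complex.conj_ofReal]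
      unfold hat
      rw [← hNdef]
      have e3 : conj (1 / 16 : ℂ) = 1 / 16 := by
        rw [map_div₀, map_one, Complex.conj_ofNat]
      rw [e3]
      have e4 : ∑ y, ∑ y', ((s y : ℂ) * (h y' : ℂ)) * (chi Z Z' e k y' * conj (chi Z Z' e k y))
          = (∑ y, (s y : ℂ) * conj (chi Z Z' e k y)) * ∑ y', (h y' : ℂ) * chi Z Z' e k y' := by
        rw [Finset.sum_mul_sum]
        refine Finset.sum_congr rfl (fun y _ => Finset.sum_congr rfl (fun y' _ => ?_))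
        ring
      rw [e4]
      push_cast
      ring
    rw [Finset.sum_congr rfl e1, ← Finset.mul_sum, ← Finset.mul_sum, ← Finset.mul_sum,
      Finset.sum_comm]
    have e5 : ∀ y, ∑ k ∈ Rm Z Z', ∑ y', ((s y : ℂ) * (h y' : ℂ))
        * (chi Z Z' e k y' * conj (chi Z Z' e k y)) = (s y : ℂ) * (h y : ℂ) * (N : ℂ) := by
      intro y
      rw [Finset.sum_comm]
      have e6 : ∀ y', ∑ k ∈ Rm Z Z', ((s y : ℂ) * (h y' : ℂ))
          * (chi Z Z' e k y' * conj (chi Z Z' e k y))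
          = if y' = y then (s y : ℂ) * (h y : ℂ) * (N : ℂ) else 0 := by
        intro y'
        rw [← Finset.mul_sum, chi_dual Z Z' e hZ hZ' y' y]
        split_ifs with h7
        · rw [h7]
        · rw [mul_zero]
      rw [Finset.sum_congr rfl (fun y' _ => e6 y')]
      simp
    rw [Finset.sum_congr rfl (fun y _ => e5 y), ← Finset.sum_mul]
    have hN' : (N : ℂ) ≠ 0 := by exact_mod_cast hN
    push_cast
    rw [Finset.sum_congr rfl (fun y _ => mul_comm (s y : ℂ) (h y : ℂ))]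
    field_simp
  rw [h1, Complex.ofReal_re]

/-- the real functionals coming from the frequencies to be avoided -/
noncomputable def lf (lam : Finset (Fin 2 → ℤ)) (z : lam × Bool) (y : Y) : ℝ :=
  if z.2 then (chi Z Z' e z.1 y).re else (chi Z Z' e z.1 y).im

/-- the normalised real functionals -/
noncomputable def wf (big : Finset (Fin 2 → ℤ)) (ψ : (Fin 2 → ℤ) → ℂ) (z : big × Bool)
    (y : Y) : ℝ :=
  (if z.2 then (om Z Z' e ψ z.1 y).re else (om Z Z' e ψ z.1 y).im)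
    / Real.sqrt (∑ k ∈ sB Z Z', ‖ψ (z.1 - k)‖ ^ 2)

include hZ hZ' in
lemma wf_sq (big : Finset (Fin 2 → ℤ)) (ψ : (Fin 2 → ℤ) → ℂ) (z : big × Bool) :
    ∑ y, (wf Z Z' e big ψ z y) ^ 2 ≤ ((2 * Z : ℕ) * (2 * Z' : ℕ) : ℝ) := by
  set E := ∑ k ∈ sB Z Z', ‖ψ (z.1 - k)‖ ^ 2 with hE
  have hE0 : 0 ≤ E := Finset.sum_nonneg (fun k _ => by positivity)
  have hN : (0 : ℝ) < ((2 * Z : ℕ) * (2 * Z' : ℕ) : ℝ) := by positivity
  rcases hE0.eq_or_lt with h0 | hpos
  · have : ∀ y, wf Z Z' e big ψ z y = 0 := by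
      intro y
      unfold wf
      rw [← hE, ← h0, Real.sqrt_zero, div_zero]
    simp only [this]
    simp only [ne_eq, OfNat.ofNat_ne_zero, not_false_eq_true, zero_pow, sum_const_zero]
    exact hN.le
  · have h1 : ∀ y, (wf Z Z' e big ψ z y) ^ 2 ≤ ‖om Z Z' e ψ z.1 y‖ ^ 2 / E := by
      intro y
      unfold wf
      rw [div_pow, ← hE, Real.sq_sqrt hE0]
      refine div_le_div_of_nonneg_right ?_ hE0
      have h2 := Complex.sq_norm (om Z Z' e ψ z.1 y)
      rw [Complex.normSq_apply] at h2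
      split_ifs
      · nlinarith [sq_nonneg (om Z Z' e ψ z.1 y).im]
      · nlinarith [sq_nonneg (om Z Z' e ψ z.1 y).re]
    refine (Finset.sum_le_sum (fun y _ => h1 y)).trans ?_
    rw [← Finset.sum_div, div_le_iff₀ hpos]
    refine (om_sq Z Z' e hZ hZ' ψ z.1).trans ?_
    rw [← hE]
    have : ((2 * Z : ℕ) * (2 * Z' : ℕ) : ℝ) / 32 ≤ ((2 * Z : ℕ) * (2 * Z' : ℕ) : ℝ) := by linarith
    exact mul_le_mul_of_nonneg_right this hE0

include hZ hZ' in
lemma valid_of_witness (big : Finset (Fin 2 → ℤ)) (ψ : (Fin 2 → ℤ) → ℂ)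
    (lam : Finset (Fin 2 → ℤ)) (q : ℕ) (hq : 0 < q) (r : ℕ) (s : Finset Y)
    (hW : Witness (Submodule.span ℝ (Set.range (lf Z Z' e lam))) (wf Z Z' e big ψ)
      (((2 * Z : ℕ) * (2 * Z' : ℕ) : ℝ) / Real.sqrt q) r s) :
    ∃ c, Valid Z Z' e big (2 / q) (r / (16 * ((2 * Z : ℕ) * (2 * Z' : ℕ) : ℝ))) ψ lam s c := by
  obtain ⟨h, hh1, hh2, hh3, hh4⟩ := hW
  have hN : (0 : ℝ) < ((2 * Z : ℕ) * (2 * Z' : ℕ) : ℝ) := by positivity
  have hq' : (0 : ℝ) < q := by exact_mod_cast hq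
  refine ⟨cf Z Z' e h, ?_, ?_, ?_, ?_, ?_⟩
  · exact fun x => cf_v1 Z Z' e hZ hZ' h hh1 x
  · intro k hk
    unfold cf
    rw [if_neg (fun h' => hk (Bp_sub Z Z' h')), if_neg]
    intro h'
    apply hk
    have := neg_mem_sB Z Z' (Bp_sub Z Z' h')
    rwa [neg_neg] at this
  · intro k hk
    have h1 : ∑ y, (h y : ℂ) * chi Z Z' e k y = 0 := by
      have h2 := hh2 _ (Submodule.subset_span ⟨((⟨k, hk⟩ : lam), true), rfl⟩)
      have h3 := hh2 _ (Submodule.subset_span ⟨((⟨k, hk⟩ : lam), false), rfl⟩)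
      unfold lf at h2 h3
      simp only [if_true] at h2
      simp only [Bool.false_eq_true, if_false] at h3
      apply Complex.ext
      · rw [Complex.re_sum, Complex.zero_re, ← h2]
        refine Finset.sum_congr rfl (fun y _ => ?_)
        rw [Complex.re_ofReal_mul]
      · rw [Complex.im_sum, Complex.zero_im, ← h3]
        refine Finset.sum_congr rfl (fun y _ => ?_)
        rw [Complex.im_ofReal_mul]
    have h4 : ∑ y, (h y : ℂ) * conj (chi Z Z' e k y) = 0 := by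
      have h5 := congrArg conj h1
      rw [map_sum, map_zero] at h5
      rw [← h5]
      refine Finset.sum_congr rfl (fun y _ => ?_)
      rw [map_mul, Complex.conj_ofReal]
    unfold cf
    split_ifs
    · unfold CC hat
      rw [h4, mul_zero, mul_zero]
    · unfold CC hat
      simp only [chi_neg, Complex.conj_conj]
      rw [h1, mul_zero, mul_zero, map_zero]
    · rfl
  · rw [cf_v4 Z Z' e hZ hZ' h (sg s)]
    exact div_le_div_of_nonneg_right hh4 (by positivity)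
  · intro l hl
    rw [pair_om Z Z' e hZ ψ l h, norm_mul, mul_pow, Complex.norm_real, Real.norm_eq_abs, sq_abs]
    set E := ∑ k ∈ sB Z Z', ‖ψ (l - k)‖ ^ 2 with hE
    have hE0 : 0 ≤ E := Finset.sum_nonneg (fun k _ => by positivity)
    set N : ℝ := ((2 * Z : ℕ) * (2 * Z' : ℕ) : ℝ) with hNdef
    have key : ‖∑ y, (h y : ℂ) * om Z Z' e ψ l y‖ ^ 2 ≤ 2 * (N ^ 2 / q) * E := by
      rcases hE0.eq_or_lt with h0 | hpos
      · have h6 := om_sq Z Z' e hZ hZ' ψ l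
        rw [← hE, ← h0, mul_zero] at h6
        have h7 := (Finset.sum_eq_zero_iff_of_nonneg (fun y _ => by positivity)).1
          (le_antisymm h6 (Finset.sum_nonneg (fun y _ => by positivity)))
        have h8 : ∀ y, om Z Z' e ψ l y = 0 := by
          intro y
          have := h7 y (mem_univ _)
          simpa using this
        simp only [h8, mul_zero, Finset.sum_const_zero, norm_zero, ← h0]
        simp
      · have hs : 0 < Real.sqrt E := Real.sqrt_pos.2 hpos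
        have hw : ∀ b : Bool, |∑ y, h y * (if b then (om Z Z' e ψ l y).re
            else (om Z Z' e ψ l y).im)| ^ 2 ≤ (N ^ 2 / q) * E := by
          intro b
          have h9 := hh3 ((⟨l, hl⟩ : big), b)
          unfold wf at h9
          simp only [← hE] at h9
          have h10 : ∑ y, h y * ((if b then (om Z Z' e ψ l y).re
              else (om Z Z' e ψ l y).im) / Real.sqrt E)
              = (∑ y, h y * (if b then (om Z Z' e ψ l y).re
                else (om Z Z' e ψ l y).im)) / Real.sqrt E := by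
            rw [Finset.sum_div]
            refine Finset.sum_congr rfl (fun y _ => ?_)
            rw [mul_div_assoc]
          rw [h10, abs_div, abs_of_pos hs, div_le_iff₀ hs] at h9
          have h11 := pow_le_pow_left₀ (abs_nonneg _) h9 2
          refine h11.trans (le_of_eq ?_)
          rw [mul_pow, div_pow, Real.sq_sqrt hE0, Real.sq_sqrt hq'.le]
        have h12 := hw true
        have h13 := hw false
        simp only [if_true] at h12
        simp only [Bool.false_eq_true, if_false] at h13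
        have h14 := Complex.sq_norm (∑ y, (h y : ℂ) * om Z Z' e ψ l y)
        rw [Complex.normSq_apply, Complex.re_sum, Complex.im_sum] at h14
        simp only [Complex.re_ofReal_mul, Complex.im_ofReal_mul] at h14
        rw [h14]
        rw [sq_abs] at h12 h13
        nlinarith
    have h15 : (1 / N) ^ 2 * ‖∑ y, (h y : ℂ) * om Z Z' e ψ l y‖ ^ 2
        ≤ (1 / N) ^ 2 * (2 * (N ^ 2 / q) * E) :=
      mul_le_mul_of_nonneg_left key (by positivity)
    refine h15.trans (le_of_eq ?_)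
    field_simp

include hZ hZ' in
open Classical in
theorem step_card (big : Finset (Fin 2 → ℤ)) (hbig : big.Nonempty) (ψ : (Fin 2 → ℤ) → ℂ)
    (lam : Finset (Fin 2 → ℤ)) (d0 : ℕ) (hd0 : 2 * lam.card ≤ d0) (q : ℕ) (hq : 0 < q)
    (r : ℕ) (hr : 0 < r) :
    #(univ.filter (fun s : Finset Y => ¬ ∃ c, Valid Z Z' e big (2 / q)
      (r / (16 * ((2 * Z : ℕ) * (2 * Z' : ℕ) : ℝ))) ψ lam s c))
      ≤ (2 * big.card) ^ q * (bsum (2 * Z * (2 * Z')) (d0 + q) * bsum (2 * Z * (2 * Z')) r) := by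
  have hcard : Fintype.card Y = 2 * Z * (2 * Z') := by
    rw [Fintype.card_congr e, Fintype.card_prod, Fintype.card_fin, Fintype.card_fin]
  have hq' : (0 : ℝ) < q := by exact_mod_cast hq
  have : Nonempty (big × Bool) := by
    obtain ⟨b, hb⟩ := hbig
    exact ⟨(⟨b, hb⟩, true)⟩
  have hcN : (Fintype.card Y : ℝ) = ((2 * Z : ℕ) * (2 * Z' : ℕ) : ℝ) := by
    rw [hcard]
    push_cast
    ring
  have h1 := bad_card (Submodule.span ℝ (Set.range (lf Z Z' e lam))) d0 ?_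
    (wf Z Z' e big ψ) (fun z => ?_) (((2 * Z : ℕ) * (2 * Z' : ℕ) : ℝ) / Real.sqrt q)
    (by positivity) q hq ?_ r hr
  · have h2 : Fintype.card (big × Bool) = 2 * big.card := by
      rw [Fintype.card_prod, Fintype.card_coe, Fintype.card_bool, mul_comm]
    rw [h2, hcard] at h1
    refine le_trans (Finset.card_le_card ?_) h1
    intro s hs
    rw [mem_filter] at hs ⊢
    refine ⟨hs.1, fun hW => hs.2 ?_⟩
    exact valid_of_witness Z Z' e hZ hZ' big ψ lam q hq r s hW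
  · refine le_trans ?_ hd0
    have := finrank_range_le_card (R := ℝ) (lf Z Z' e lam)
    rw [Fintype.card_prod, Fintype.card_coe, Fintype.card_bool, mul_comm] at this
    simpa [Set.finrank] using this
  · rw [hcN]
    exact wf_sq Z Z' e hZ hZ' big ψ z
  · rw [hcN, div_pow, Real.sq_sqrt hq'.le]
    refine le_of_eq ?_
    field_simp

end Grid3

end Pool.Agent.H75.MT
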