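import Pool.Agent.H75.MT.Pair
import Pool.Agent.H75.MT.Valid
import Pool.Agent.H75.MT.Num
import Pool.Agent.H75.MT.Count

set_option autoImplicit false
set_option linter.unusedSectionVars false

/-! The random construction: choice of the factors and counting. -/

open Finset ComplexConjugate MeasureTheory UnitAddTorus

namespace Pool.Agent.H75.MT

noncomputable section

/-- the grid index set -/
abbrev YK (K : ℕ) := Fin (8 ^ (K + 2))

lemma card_eq (K b : ℕ) (hb : b ≤ K) : 8 ^ (K + 2) = 2 * Zf b * (2 * Zs K b) := by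
  unfold Zf Zs
  have : K + 2 = b + (K - b) + 2 := by omega
  rw [this, pow_add, pow_add]
  ring

/-- the grid of block `b` -/
def eb (K b : ℕ) (hb : b ≤ K) : YK K ≃ Fin (2 * Zf b) × Fin (2 * Zs K b) :=
  (finCongr (card_eq K b hb)).trans finProdFinEquiv.symm

/-- `N / 512` -/
def nn (K : ℕ) : ℕ := 8 ^ (K - 1)

/-- `N / 1024` -/
def n2 (K : ℕ) : ℕ := 4 * 8 ^ (K - 2)

lemma nn_eq (K : ℕ) (hK : 2 ≤ K) : nn K = 2 * n2 K := by
  unfold nn n2
  have : K - 1 = K - 2 + 1 := by omega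
  rw [this, pow_succ]
  ring

lemma N_eq (K : ℕ) (hK : 2 ≤ K) : 8 ^ (K + 2) = 512 * nn K := by
  unfold nn
  have : K + 2 = K - 1 + 3 := by omega
  rw [this, pow_add]
  ring

lemma N_eq2 (K : ℕ) (hK : 2 ≤ K) : 8 ^ (K + 2) = 1024 * n2 K := by
  rw [N_eq K hK, nn_eq K hK]
  ring

/-- the length in the averaging step -/
def qq (K : ℕ) : ℕ := nn K / (K + 2)

lemma qq_pos (K : ℕ) (hK : 2 ≤ K) : 0 < qq K := by
  unfold qq nn
  refine Nat.div_pos ?_ (by omega)
  have h1 : ∀ m : ℕ, m + 4 ≤ 8 ^ (m + 1) := by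
    intro m
    induction m with
    | zero => norm_num
    | succ m ih => rw [pow_succ]; omega
  have h2 := h1 (K - 2)
  have : K - 1 = K - 2 + 1 := by omega
  rw [this]
  omega

/-- the flatness constant -/
def et (K : ℕ) : ℝ := 2 / qq K

/-- the correlation constant -/
def cor (K b : ℕ) : ℝ := nn K / (16 * ((2 * Zf b : ℕ) * (2 * Zs K b : ℕ) : ℝ))

lemma cor_eq (K b : ℕ) (hK : 2 ≤ K) (hb : b ≤ K) : cor K b = 1 / 8192 := by
  unfold cor
  have h1 : ((2 * Zf b : ℕ) * (2 * Zs K b : ℕ) : ℝ) = ((8 ^ (K + 2) : ℕ) : ℝ) := by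
    rw [card_eq K b hb]
    push_cast
    ring
  rw [h1, N_eq K hK]
  have h2 : (nn K : ℝ) ≠ 0 := by
    unfold nn
    positivity
  push_cast
  field_simp
  norm_num

/-- validity of a factor -/
def VK (K b : ℕ) (ψ : (Fin 2 → ℤ) → ℂ) (lam : Finset (Fin 2 → ℤ)) (s : Finset (YK K))
    (c : (Fin 2 → ℤ) → ℂ) : Prop :=
  ∃ hb : b ≤ K, Valid (Zf b) (Zs K b) (eb K b hb) (bigK K) (et K) (cor K b) ψ lam s c

lemma Zf_pos (b : ℕ) : 0 < Zf b := by unfold Zf; positivity

lemma Zs_pos (K b : ℕ) : 0 < Zs K b := by unfold Zs; positivity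

lemma bigK_card (K : ℕ) : 2 * #(bigK K) ≤ 2 ^ (16 * (K + 2)) := by
  unfold bigK
  rw [card_bx]
  have e1 : ((24 * 8 ^ K + 1 : ℤ) - -(24 * 8 ^ K)).toNat = 48 * 8 ^ K + 1 := by
    have : ((24 * 8 ^ K + 1 : ℤ) - -(24 * 8 ^ K)) = ((48 * 8 ^ K + 1 : ℕ) : ℤ) := by
      push_cast
      ring
    rw [this, Int.toNat_natCast]
  rw [e1]
  have h1 : 1 ≤ 8 ^ K := Nat.one_le_pow _ _ (by norm_num)
  have h2 : (48 * 8 ^ K + 1) ≤ 64 * 8 ^ K := by omega
  have h3 : (48 * 8 ^ K + 1) * (48 * 8 ^ K + 1) ≤ (64 * 8 ^ K) * (64 * 8 ^ K) :=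
    Nat.mul_le_mul h2 h2
  have h4 : 2 * ((64 * 8 ^ K) * (64 * 8 ^ K)) = 2 ^ (13 + 6 * K) := by
    have : (8 : ℕ) ^ K = 2 ^ (3 * K) := by
      rw [pow_mul]
      norm_num
    rw [this, pow_add]
    have h5 : 6 * K = 3 * K + 3 * K := by ring
    rw [h5, pow_add]
    ring
  calc 2 * ((48 * 8 ^ K + 1) * (48 * 8 ^ K + 1)) ≤ 2 * ((64 * 8 ^ K) * (64 * 8 ^ K)) :=
        Nat.mul_le_mul_left _ h3
    _ = 2 ^ (13 + 6 * K) := h4
    _ ≤ 2 ^ (16 * (K + 2)) := Nat.pow_le_pow_right (by norm_num) (by omega)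

lemma bigK_nonempty (K : ℕ) : (bigK K).Nonempty := by
  refine ⟨0, ?_⟩
  unfold bigK
  rw [mem_bx]
  have : (0 : ℤ) < 8 ^ K := by positivity
  simp only [Pi.zero_apply]
  refine ⟨⟨by linarith, by linarith⟩, ⟨by linarith, by linarith⟩⟩

open Classical in
lemma step_bad (K b : ℕ) (hK : 2 ≤ K) (hb : b ≤ K) (ψ : (Fin 2 → ℤ) → ℂ)
    (lam : Finset (Fin 2 → ℤ)) (hlam : lam.card ≤ n2 K) :
    #(univ.filter (fun s : Finset (YK K) => ¬ ∃ c, VK K b ψ lam s c)) ≤ 2 ^ (256 * n2 K) := by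
  have h1 := step_card (Zf b) (Zs K b) (eb K b hb) (Zf_pos b) (Zs_pos K b) (bigK K)
    (bigK_nonempty K) ψ lam (nn K) (by rw [nn_eq K hK]; omega) (qq K) (qq_pos K hK) (nn K)
    (by unfold nn; positivity)
  have h2 : univ.filter (fun s : Finset (YK K) => ¬ ∃ c, VK K b ψ lam s c)
      ⊆ univ.filter (fun s : Finset (YK K) => ¬ ∃ c, Valid (Zf b) (Zs K b) (eb K b hb) (bigK K)
        (2 / qq K) (nn K / (16 * ((2 * Zf b : ℕ) * (2 * Zs K b : ℕ) : ℝ))) ψ lam s c) := by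
    intro s hs
    rw [mem_filter] at hs ⊢
    refine ⟨hs.1, fun ⟨c, hc⟩ => hs.2 ⟨c, hb, hc⟩⟩
  refine (Finset.card_le_card h2).trans (h1.trans ?_)
  rw [← card_eq K b hb, N_eq K hK]
  have h3 := step_num (K + 2) (nn K) (2 * #(bigK K)) (bigK_card K)
  refine h3.trans ?_
  rw [nn_eq K hK]
  exact Nat.pow_le_pow_right (by norm_num) (by omega)

/-- parameters: the frequencies to be avoided in the active blocks -/
abbrev PP := ℕ → Option (Finset (Fin 2 → ℤ))

/-- a good step -/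
def goodK (K : ℕ) (p : PP) (b : ℕ) (P : C(T2, ℂ)) (s : Finset (YK K)) : Prop :=
  ∃ c, ∃ lam, p b = some lam ∧ VK K b (co P) lam s c

open Classical in
/-- choice of a factor -/
def pick (K : ℕ) (p : PP) (b : ℕ) (P : C(T2, ℂ)) (s : Finset (YK K)) : (Fin 2 → ℤ) → ℂ :=
  if h : goodK K p b P s then h.choose else 0

/-- the partial products as a process -/
def sst (K : ℕ) (p : PP) (ε : ℕ → Finset (YK K)) : ℕ → C(T2, ℂ)
  | 0 => 1
  | b + 1 => sst K p ε b * (1 + tp (SB K b) (pick K p b (sst K p ε b) (ε b)))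

/-- the chosen coefficients -/
def cc (K : ℕ) (p : PP) (ε : ℕ → Finset (YK K)) (b : ℕ) : (Fin 2 → ℤ) → ℂ :=
  pick K p b (sst K p ε b) (ε b)

lemma sst_eq (K : ℕ) (p : PP) (ε : ℕ → Finset (YK K)) (b : ℕ) :
    sst K p ε b = st K (cc K p ε) b := by
  induction b with
  | zero => rfl
  | succ b ih =>
    show sst K p ε b * (1 + tp (SB K b) (cc K p ε b)) = st K (cc K p ε) b * _
    rw [ih]

lemma sst_congr (K : ℕ) (p : PP) (ε ε' : ℕ → Finset (YK K)) (b : ℕ)
    (h : ∀ i < b, ε i = ε' i) : sst K p ε b = sst K p ε' b := by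
  induction b with
  | zero => rfl
  | succ b ih =>
    have h1 := ih (fun i hi => h i (by omega))
    show sst K p ε b * (1 + tp (SB K b) (pick K p b (sst K p ε b) (ε b)))
      = sst K p ε' b * (1 + tp (SB K b) (pick K p b (sst K p ε' b) (ε' b)))
    rw [h1, h b (by omega)]

/-- a bad step -/
def badK (K : ℕ) (p : PP) (b : ℕ) (P : C(T2, ℂ)) (s : Finset (YK K)) : Prop :=
  b ≤ K ∧ ∃ lam, p b = some lam ∧ lam.card ≤ n2 K ∧ ¬ ∃ c, VK K b (co P) lam s c

open Classical in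
/-- the good steps -/
def GK (K n : ℕ) (p : PP) (ε : ℕ → Finset (YK K)) : Finset ℕ :=
  (Finset.range n).filter (fun b => goodK K p b (sst K p ε b) (ε b))

lemma GK_spec {K n : ℕ} {p : PP} {ε : ℕ → Finset (YK K)} {b : ℕ} (hb : b ∈ GK K n p ε) :
    ∃ lam, p b = some lam ∧ VK K b (co (sst K p ε b)) lam (ε b) (cc K p ε b) := by
  classical
  unfold GK at hb
  rw [mem_filter] at hb
  unfold cc pick
  rw [dif_pos hb.2]
  exact hb.2.choose_spec

lemma rh_of_process (K n J : ℕ) (hn : n ≤ K + 1) (hJ : 2 ≤ J) (r : ℕ) (p : PP)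
    (hp : ∀ b, p b ≠ none → b % J = r) (hpn : ∀ b, p b ≠ none → b < n)
    (ε : ℕ → Finset (YK K)) : RH K n J (GK K n p ε) (et K) (cc K p ε) := by
  classical
  have hmod : ∀ b ∈ GK K n p ε, b % J = r := by
    intro b hb
    obtain ⟨lam, hlam, -⟩ := GK_spec hb
    exact hp b (by rw [hlam]; simp)
  refine ⟨hn, hJ, ?_, ?_, ?_, ?_, ?_⟩
  · intro b hb
    unfold GK at hb
    exact mem_range.1 (mem_filter.1 hb).1
  · intro i hi j hj hji
    have h1 := hmod i hi
    have h2 := hmod j hj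
    have h3 : (i : ℕ) ≡ j [MOD J] := by
      unfold Nat.ModEq
      rw [h1, h2]
    have h4 : J ∣ i - j := (Nat.modEq_iff_dvd' hji.le).1 h3.symm
    have h5 := Nat.le_of_dvd (by omega) h4
    omega
  · intro b hb k
    unfold cc pick
    rw [dif_neg]
    · rfl
    · rintro ⟨c, lam, hlam, hV⟩
      apply hb
      unfold GK
      rw [mem_filter]
      refine ⟨mem_range.2 (hpn b (by rw [hlam]; simp)), c, lam, hlam, hV⟩
  · intro b hb x
    obtain ⟨lam, -, hbK, hV⟩ := GK_spec hb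
    exact hV.v1 x
  · intro b hb l hl
    obtain ⟨lam, -, hbK, hV⟩ := GK_spec hb
    have h1 := hV.v5 l hl
    rw [← sst_eq]
    exact h1

open Classical in
lemma card_GK (K n : ℕ) (hn : n ≤ K + 1) (p : PP) (hpl : ∀ b lam, p b = some lam → lam.card ≤ n2 K)
    (ε : ℕ → Finset (YK K)) :
    #((Finset.range n).filter (fun b => p b ≠ none)) ≤ #(GK K n p ε)
      + nbad (sst K p) (badK K p) n ε := by
  unfold GK nbad
  refine le_trans (Finset.card_le_card ?_) (Finset.card_union_le _ _)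
  intro b hb
  rw [mem_filter, mem_range] at hb
  rw [mem_union, mem_filter, mem_filter, mem_range]
  obtain ⟨lam, hlam⟩ := Option.ne_none_iff_exists'.1 hb.2
  by_cases hg : goodK K p b (sst K p ε b) (ε b)
  · exact Or.inl ⟨hb.1, hg⟩
  · refine Or.inr ⟨hb.1, by omega, lam, hlam, hpl b lam hlam, fun ⟨c, hc⟩ => hg ?_⟩
    exact ⟨c, lam, hlam, hc⟩

open Classical in
lemma badK_card (K : ℕ) (hK : 2 ≤ K) (p : PP) (b : ℕ) (P : C(T2, ℂ)) :
    #(univ.filter (fun s : Finset (YK K) => badK K p b P s)) ≤ 2 ^ (256 * n2 K) := by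
  by_cases h : b ≤ K ∧ ∃ lam, p b = some lam ∧ lam.card ≤ n2 K
  · obtain ⟨hb, lam, hlam, hc⟩ := h
    refine le_trans (Finset.card_le_card ?_) (step_bad K b hK hb (co P) lam hc)
    intro s hs
    rw [mem_filter] at hs ⊢
    obtain ⟨-, -, lam', hlam', -, hno⟩ := hs
    rw [hlam, Option.some_inj] at hlam'
    subst hlam'
    exact ⟨mem_univ _, hno⟩
  · have : univ.filter (fun s : Finset (YK K) => badK K p b P s) = ∅ := by
      refine Finset.filter_false_of_mem ?_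
      intro s _ hs
      obtain ⟨hb, lam, hlam, hc, -⟩ := hs
      exact h ⟨hb, lam, hlam, hc⟩
    rw [this, Finset.card_empty]
    exact Nat.zero_le _

open Classical in
/-- few sign sequences have many bad steps -/
lemma many_bad (K : ℕ) (hK : 2 ≤ K) (p : PP) (n q : ℕ) :
    #(univ.filter (fun ε : Fin n → Finset (YK K) => q ≤ nbad (sst K p) (badK K p) n (ext ε)))
        * 2 ^ (768 * n2 K * q)
      ≤ 2 ^ (1024 * n2 K * n) * 2 ^ #((Finset.range n).filter (fun b => p b ≠ none)) := by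
  have h1 := count_many (Y := YK K) (sst K p) (fun ε ε' b h => sst_congr K p ε ε' b h)
    (badK K p) (2 ^ (256 * n2 K)) (2 ^ (768 * n2 K)) (fun b x => badK_card K hK p b x)
    (by
      rw [← pow_add, Fintype.card_fin, N_eq2 K hK]
      refine Nat.pow_le_pow_right (by norm_num) (by omega))
    (fun b => p b ≠ none)
    (fun b x s hs => by
      obtain ⟨-, lam, hlam, -⟩ := hs
      rw [hlam]
      simp)
    n q (Nat.one_le_pow _ _ (by norm_num))
  have h2 : Fintype.card (YK K) = 1024 * n2 K := by rw [Fintype.card_fin, N_eq2 K hK]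
  rw [h2, ← pow_mul, ← pow_mul] at h1
  convert h1

end

end Pool.Agent.H75.MT
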