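import Pool.Agent.H75.MT.Torus

set_option autoImplicit false
set_option linter.unusedSectionVars false

/-! Analysis of the product. -/

open Finset ComplexConjugate MeasureTheory UnitAddTorus

namespace Pool.Agent.H75.MT

noncomputable section

local instance : MeasureSpace UnitAddCircle := ⟨AddCircle.haarAddCircle⟩

local instance : Measure.IsAddHaarMeasure (volume : Measure UnitAddCircle) :=
  inferInstanceAs (Measure.IsAddHaarMeasure AddCircle.haarAddCircle)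

local instance : IsProbabilityMeasure (volume : Measure UnitAddCircle) :=
  inferInstanceAs (IsProbabilityMeasure AddCircle.haarAddCircle)

/-- half of the first side of block `b` -/
def Zf (b : ℕ) : ℕ := 4 * 8 ^ b

/-- half of the second side of block `b` -/
def Zs (K b : ℕ) : ℕ := 4 * 8 ^ (K - b)

/-- spectrum of the factor -/
def SB (K b : ℕ) : Finset (Fin 2 → ℤ) := sB (Zf b) (Zs K b)

/-- main spectrum -/
def RB (K b : ℕ) : Finset (Fin 2 → ℤ) := Rm (Zf b) (Zs K b)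

/-- a box containing all frequencies of the product -/
def bigK (K : ℕ) : Finset (Fin 2 → ℤ) :=
  bx (-(24 * 8 ^ K)) (24 * 8 ^ K + 1) (-(24 * 8 ^ K)) (24 * 8 ^ K + 1)

/-- the partial products -/
def st (K : ℕ) (c : ℕ → (Fin 2 → ℤ) → ℂ) : ℕ → C(T2, ℂ)
  | 0 => 1
  | b + 1 => st K c b * (1 + tp (SB K b) (c b))

/-- the increments -/
def Fn (K : ℕ) (c : ℕ → (Fin 2 → ℤ) → ℂ) (b : ℕ) : C(T2, ℂ) := st K c b * tp (SB K b) (c b)

lemma st_succ (K : ℕ) (c : ℕ → (Fin 2 → ℤ) → ℂ) (b : ℕ) :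
    st K c (b + 1) = st K c b + Fn K c b := by
  show st K c b * (1 + tp (SB K b) (c b)) = _
  unfold Fn
  rw [mul_add, mul_one]

lemma co_st (K : ℕ) (c : ℕ → (Fin 2 → ℤ) → ℂ) (b : ℕ) (l : Fin 2 → ℤ) :
    co (st K c b) l = (if l = 0 then 1 else 0) + ∑ j ∈ Finset.range b, co (Fn K c j) l := by
  induction b with
  | zero =>
    rw [Finset.sum_range_zero, add_zero]
    exact co_one l
  | succ b ih => rw [st_succ, co_add, ih, Finset.sum_range_succ, add_assoc]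

lemma co_Fn (K : ℕ) (c : ℕ → (Fin 2 → ℤ) → ℂ) (b : ℕ) (l : Fin 2 → ℤ) :
    co (Fn K c b) l = ∑ k ∈ SB K b, co (st K c b) (l - k) * c b k := co_mul_tp _ _ _ _

/-- the hypotheses on the sequence of factors -/
structure RH (K n J : ℕ) (G : Finset ℕ) (η2 : ℝ) (c : ℕ → (Fin 2 → ℤ) → ℂ) : Prop where
  hn : n ≤ K + 1
  hJ : 2 ≤ J
  hG : ∀ b ∈ G, b < n
  hsp : ∀ i ∈ G, ∀ j ∈ G, j < i → j + J ≤ i
  hc0 : ∀ b, b ∉ G → ∀ k, c b k = 0
  v1 : ∀ b ∈ G, ∀ x : Fin 2 → ℝ, (∑ k ∈ SB K b, Ek x k * c b k).im = 0 ∧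
    |(∑ k ∈ SB K b, Ek x k * c b k).re| ≤ 1
  v5 : ∀ b ∈ G, ∀ l ∈ bigK K, ‖∑ k ∈ SB K b, co (st K c b) (l - k) * c b k‖ ^ 2
    ≤ η2 * ∑ k ∈ SB K b, ‖co (st K c b) (l - k)‖ ^ 2

variable {K n J : ℕ} {G : Finset ℕ} {η2 : ℝ} {c : ℕ → (Fin 2 → ℤ) → ℂ}

lemma Fn_zero (h : RH K n J G η2 c) {b : ℕ} (hb : b ∉ G) (l : Fin 2 → ℤ) :
    co (Fn K c b) l = 0 := by
  rw [co_Fn]
  refine Finset.sum_eq_zero (fun k _ => ?_)
  rw [h.hc0 b hb, mul_zero]

/-- the support condition -/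
def InS (K b : ℕ) (l : Fin 2 → ℤ) : Prop :=
  (4 * 8 ^ b : ℤ) ≤ 2 * |l 0| ∧ |l 0| ≤ 6 * (4 * 8 ^ b) ∧ (4 * 8 ^ (K - b) : ℤ) ≤ 2 * |l 1| ∧
    |l 1| + 3 * 8 ^ (K - b) ≤ 24 * 8 ^ K

lemma mem_SB {K b : ℕ} {k : Fin 2 → ℤ} : k ∈ SB K b ↔
    ((4 * 8 ^ b : ℤ) ≤ |k 0| ∧ |k 0| < 5 * (4 * 8 ^ b)) ∧
      ((4 * 8 ^ (K - b) : ℤ) ≤ |k 1| ∧ |k 1| < 5 * (4 * 8 ^ (K - b))) := by
  unfold SB
  rw [mem_sB]
  unfold Zf Zs
  push_cast
  rfl

lemma pow_gap (i j d : ℕ) (h : j + d ≤ i) : (8 : ℤ) ^ d * 8 ^ j ≤ 8 ^ i := by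
  rw [← pow_add]
  exact pow_le_pow_right₀ (by norm_num) (by omega)

lemma pow_gap' (K i j d : ℕ) (h : j + d ≤ i) (hi : i ≤ K) :
    (8 : ℤ) ^ d * 8 ^ (K - i) ≤ 8 ^ (K - j) := by
  rw [← pow_add]
  exact pow_le_pow_right₀ (by norm_num) (by omega)

lemma supp (h : RH K n J G η2 c) (b : ℕ) (hb : b ∈ G) (l : Fin 2 → ℤ)
    (hl : co (Fn K c b) l ≠ 0) : InS K b l := by
  induction b using Nat.strong_induction_on generalizing l with
  | _ b ih =>
    rw [co_Fn] at hl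
    obtain ⟨k, hk, hne⟩ := Finset.exists_ne_zero_of_sum_ne_zero hl
    have hst : co (st K c b) (l - k) ≠ 0 := fun h0 => hne (by rw [h0, zero_mul])
    rw [mem_SB] at hk
    have hbK : b ≤ K := by
      have := h.hG b hb
      have := h.hn
      omega
    have hK : (8 : ℤ) ^ (K - b) ≤ 8 ^ K := pow_le_pow_right₀ (by norm_num) (by omega)
    have hp1 : (0 : ℤ) < 8 ^ b := by positivity
    have hp2 : (0 : ℤ) < 8 ^ (K - b) := by positivity
    rw [co_st] at hst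
    by_cases hlk : l - k = 0
    · have : l = k := sub_eq_zero.1 hlk
      subst this
      unfold InS
      obtain ⟨⟨a1, a2⟩, ⟨a3, a4⟩⟩ := hk
      refine ⟨by linarith [abs_nonneg (l 0)], by linarith, by linarith [abs_nonneg (l 1)],
        by linarith⟩
    · rw [if_neg hlk, zero_add] at hst
      obtain ⟨j, hj, hjne⟩ := Finset.exists_ne_zero_of_sum_ne_zero hst
      rw [mem_range] at hj
      have hjG : j ∈ G := by
        by_contra hjG
        exact hjne (Fn_zero h hjG _)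
      obtain ⟨m1, m2, m3, m4⟩ := ih j hj hjG (l - k) hjne
      have hgap := h.hsp b hb j hjG hj
      have hJ := h.hJ
      have g1 := pow_gap b j 2 (by omega)
      have g2 := pow_gap' K b j 2 (by omega) hbK
      norm_num at g1 g2
      obtain ⟨⟨a1, a2⟩, ⟨a3, a4⟩⟩ := hk
      simp only [Pi.sub_apply] at m1 m2 m3 m4
      have t1 : |k 0| ≤ |l 0| + |l 0 - k 0| := by
        have := abs_sub_abs_le_abs_sub (k 0) (l 0)
        rw [abs_sub_comm] at this
        linarith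
      have t2 : |l 0| ≤ |k 0| + |l 0 - k 0| := by
        have := abs_sub_abs_le_abs_sub (l 0) (k 0)
        linarith
      have t3 : |l 1 - k 1| ≤ |l 1| + |k 1| := abs_sub _ _
      have t4 : |l 1| ≤ |k 1| + |l 1 - k 1| := by
        have := abs_sub_abs_le_abs_sub (l 1) (k 1)
        linarith
      unfold InS
      refine ⟨by linarith, by linarith, by linarith, by linarith⟩

lemma near (h : RH K n J G η2 c) (i : ℕ) (hi : i ∈ G) (l : Fin 2 → ℤ) (hl : l ∈ SB K i) :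
    co (Fn K c i) l = c i l := by
  rw [co_Fn]
  have hiK : i ≤ K := by
    have := h.hG i hi
    have := h.hn
    omega
  have h1 : ∀ k ∈ SB K i, co (st K c i) (l - k) * c i k = if l = k then c i l else 0 := by
    intro k hk
    rw [co_st]
    have h2 : ∑ j ∈ Finset.range i, co (Fn K c j) (l - k) = 0 := by
      refine Finset.sum_eq_zero (fun j hj => ?_)
      rw [mem_range] at hj
      by_contra hne
      have hjG : j ∈ G := by
        by_contra hjG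
        exact hne (Fn_zero h hjG _)
      obtain ⟨-, -, m3, -⟩ := supp h j hjG (l - k) hne
      have hgap := h.hsp i hi j hjG hj
      have hJ := h.hJ
      have g2 := pow_gap' K i j 2 (by omega) hiK
      norm_num at g2
      rw [mem_SB] at hk hl
      simp only [Pi.sub_apply] at m3
      have t3 : |l 1 - k 1| ≤ |l 1| + |k 1| := abs_sub _ _
      have hp2 : (0 : ℤ) < 8 ^ (K - i) := by positivity
      linarith [hk.2.2, hl.2.2]
    rw [h2, add_zero]
    by_cases hlk : l = k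
    · rw [if_pos hlk, if_pos (by rw [hlk, sub_self]), one_mul, hlk]
    · rw [if_neg hlk, if_neg (fun h' => hlk (sub_eq_zero.1 h')), zero_mul]
  rw [Finset.sum_congr rfl h1, Finset.sum_ite_eq, if_pos hl]

lemma out_big (h : RH K n J G η2 c) (b : ℕ) (hb : b ∈ G) (l : Fin 2 → ℤ) (hl : l ∉ bigK K) :
    co (Fn K c b) l = 0 := by
  by_contra hne
  obtain ⟨-, m2, -, m4⟩ := supp h b hb l hne
  apply hl
  have hbK : b ≤ K := by
    have := h.hG b hb
    have := h.hn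
    omega
  have hK : (8 : ℤ) ^ b ≤ 8 ^ K := pow_le_pow_right₀ (by norm_num) hbK
  have hp : (0 : ℤ) < 8 ^ (K - b) := by positivity
  unfold bigK
  rw [mem_bx]
  have b1 : |l 0| ≤ 24 * 8 ^ K := by linarith
  have b2 : |l 1| ≤ 24 * 8 ^ K := by linarith
  rw [abs_le] at b1 b2
  refine ⟨⟨b1.1, by linarith [b1.2]⟩, ⟨b2.1, by linarith [b2.2]⟩⟩

/-- local mass of the partial product -/
def EE (K : ℕ) (c : ℕ → (Fin 2 → ℤ) → ℂ) (i : ℕ) (l : Fin 2 → ℤ) : ℝ :=
  ∑ k ∈ SB K i, ‖co (st K c i) (l - k)‖ ^ 2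

lemma EE_nonneg (K : ℕ) (c : ℕ → (Fin 2 → ℤ) → ℂ) (i : ℕ) (l : Fin 2 → ℤ) : 0 ≤ EE K c i l :=
  Finset.sum_nonneg (fun _ _ => by positivity)

lemma flat0 (h : RH K n J G η2 c) (hη : 0 ≤ η2) (b : ℕ) (hb : b ∈ G) (l : Fin 2 → ℤ) :
    ‖co (Fn K c b) l‖ ^ 2 ≤ η2 * EE K c b l := by
  by_cases hl : l ∈ bigK K
  · rw [co_Fn]
    exact h.v5 b hb l hl
  · rw [out_big h b hb l hl]
    have := mul_nonneg hη (EE_nonneg K c b l)
    simpa using this

open Classical in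
lemma count_supp (h : RH K n J G η2 c) (i j : ℕ) (hi : i ∈ G) (hj : j ∈ G) (hji : j < i)
    (l : Fin 2 → ℤ) :
    (#((SB K i).filter (fun k => co (Fn K c j) (l - k) ≠ 0)) : ℝ) * 8 ^ J ≤ 2080 * 8 ^ K := by
  have hsub : (SB K i).filter (fun k => co (Fn K c j) (l - k) ≠ 0)
      ⊆ bx (l 0 - 6 * (4 * 8 ^ j)) (l 0 + 6 * (4 * 8 ^ j) + 1)
        (-(5 * (4 * 8 ^ (K - i)))) (5 * (4 * 8 ^ (K - i))) := by
    intro k hk
    rw [mem_filter] at hk
    obtain ⟨-, m2, -, -⟩ := supp h j hj (l - k) hk.2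
    have hk1 := hk.1
    rw [mem_SB] at hk1
    rw [mem_bx]
    simp only [Pi.sub_apply] at m2
    rw [abs_le] at m2
    have h3 := abs_lt.1 hk1.2.2
    refine ⟨⟨by linarith [m2.2], by linarith [m2.1]⟩, ⟨by linarith [h3.1], h3.2⟩⟩
  have hcard := Finset.card_le_card hsub
  rw [card_bx] at hcard
  have e1 : (l 0 + 6 * (4 * 8 ^ j) + 1 - (l 0 - 6 * (4 * 8 ^ j))).toNat = 48 * 8 ^ j + 1 := by
    have : (l 0 + 6 * (4 * 8 ^ j) + 1 - (l 0 - 6 * (4 * 8 ^ j)) : ℤ)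
        = ((48 * 8 ^ j + 1 : ℕ) : ℤ) := by
      push_cast
      ring
    rw [this, Int.toNat_natCast]
  have e2 : (5 * (4 * 8 ^ (K - i)) - -(5 * (4 * 8 ^ (K - i))) : ℤ).toNat = 40 * 8 ^ (K - i) := by
    have : (5 * (4 * 8 ^ (K - i)) - -(5 * (4 * 8 ^ (K - i))) : ℤ)
        = ((40 * 8 ^ (K - i) : ℕ) : ℤ) := by
      push_cast
      ring
    rw [this, Int.toNat_natCast]
  rw [e1, e2] at hcard
  have h1 : (48 * 8 ^ j + 1) * (40 * 8 ^ (K - i)) * 8 ^ J ≤ 2080 * 8 ^ K := by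
    have h2 : 1 ≤ 8 ^ j := Nat.one_le_pow _ _ (by norm_num)
    have h3 : (48 * 8 ^ j + 1) * (40 * 8 ^ (K - i)) * 8 ^ J
        ≤ (52 * 8 ^ j) * (40 * 8 ^ (K - i)) * 8 ^ J :=
      Nat.mul_le_mul_right _ (Nat.mul_le_mul_right _ (by omega))
    refine h3.trans ?_
    have h4 : (52 * 8 ^ j) * (40 * 8 ^ (K - i)) * 8 ^ J = 2080 * 8 ^ (j + (K - i) + J) := by
      rw [pow_add, pow_add]
      ring
    rw [h4]
    refine Nat.mul_le_mul_left _ (Nat.pow_le_pow_right (by norm_num) ?_)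
    have hgap := h.hsp i hi j hj hji
    have := h.hG i hi
    have := h.hn
    omega
  have h5 := Nat.mul_le_mul_right (8 ^ J) hcard
  have h6 := h5.trans h1
  exact_mod_cast h6

/-- the far bound -/
def rho2 (K n J : ℕ) (η2 : ℝ) : ℝ := 16640 * n ^ 2 * η2 * 8 ^ K / 8 ^ J

open Classical in
lemma EE_le (h : RH K n J G η2 c) (hη : 0 ≤ η2) (i : ℕ) (hi : i ∈ G)
    (hprev : ∀ j ∈ G, j < i → ∀ l, ‖co (Fn K c j) l‖ ^ 2 ≤ 4 * η2) (l : Fin 2 → ℤ) :
    EE K c i l ≤ (if l ∈ SB K i then 2 else 0) + rho2 K n J η2 := by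
  have hin : i < n := h.hG i hi
  have h1 : ∀ k, ‖co (st K c i) (l - k)‖ ^ 2 ≤ 2 * (if l = k then 1 else 0)
      + 2 * (i * ∑ j ∈ Finset.range i, ‖co (Fn K c j) (l - k)‖ ^ 2) := by
    intro k
    rw [co_st]
    set a : ℂ := (if l - k = 0 then 1 else 0) with ha
    set s : ℂ := ∑ j ∈ Finset.range i, co (Fn K c j) (l - k) with hs
    have h2 : ‖a + s‖ ^ 2 ≤ 2 * ‖a‖ ^ 2 + 2 * ‖s‖ ^ 2 := by
      have h3 := pow_le_pow_left₀ (norm_nonneg _) (norm_add_le a s) 2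
      nlinarith [sq_nonneg (‖a‖ - ‖s‖)]
    have h4 : ‖a‖ ^ 2 = if l = k then 1 else 0 := by
      rw [ha]
      by_cases hlk : l = k
      · rw [if_pos hlk, if_pos (by rw [hlk, sub_self])]
        simp
      · rw [if_neg hlk, if_neg (fun h' => hlk (sub_eq_zero.1 h'))]
        simp
    have h5 : ‖s‖ ^ 2 ≤ i * ∑ j ∈ Finset.range i, ‖co (Fn K c j) (l - k)‖ ^ 2 := by
      have h6 : ‖s‖ ≤ ∑ j ∈ Finset.range i, ‖co (Fn K c j) (l - k)‖ := norm_sum_le _ _
      have h7 := sq_sum_le_card_mul_sum_sq (s := Finset.range i)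
        (f := fun j => ‖co (Fn K c j) (l - k)‖)
      rw [card_range] at h7
      exact (pow_le_pow_left₀ (norm_nonneg _) h6 2).trans h7
    linarith
  unfold EE
  refine (Finset.sum_le_sum (fun k _ => h1 k)).trans ?_
  rw [Finset.sum_add_distrib]
  have h8 : ∑ k ∈ SB K i, (2 * (if l = k then (1 : ℝ) else 0)) = if l ∈ SB K i then 2 else 0 := by
    rw [← Finset.mul_sum, Finset.sum_ite_eq]
    split_ifs <;> norm_num
  rw [h8]
  refine add_le_add le_rfl ?_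
  rw [← Finset.mul_sum, ← Finset.mul_sum, Finset.sum_comm]
  have hP : (0 : ℝ) < 8 ^ J := by positivity
  have h9 : ∀ j ∈ Finset.range i, ∑ k ∈ SB K i, ‖co (Fn K c j) (l - k)‖ ^ 2
      ≤ 4 * η2 * (2080 * 8 ^ K / 8 ^ J) := by
    intro j hj
    rw [mem_range] at hj
    by_cases hjG : j ∈ G
    · have h10 := count_supp h i j hi hjG hj l
      rw [← le_div_iff₀ hP] at h10
      have h11 : ∑ k ∈ SB K i, ‖co (Fn K c j) (l - k)‖ ^ 2
          = ∑ k ∈ (SB K i).filter (fun k => co (Fn K c j) (l - k) ≠ 0),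
            ‖co (Fn K c j) (l - k)‖ ^ 2 := by
        symm
        refine Finset.sum_filter_of_ne (fun k _ hk => ?_)
        intro h0
        apply hk
        rw [h0]
        simp
      rw [h11]
      refine (Finset.sum_le_sum (fun k _ => hprev j hjG hj (l - k))).trans ?_
      rw [Finset.sum_const, nsmul_eq_mul, mul_comm]
      exact mul_le_mul_of_nonneg_left h10 (by positivity)
    · have : ∀ k, ‖co (Fn K c j) (l - k)‖ ^ 2 = 0 := by
        intro k
        rw [Fn_zero h hjG]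
        simp
      simp only [this, Finset.sum_const_zero]
      positivity
  have h12 := Finset.sum_le_sum h9
  rw [Finset.sum_const, card_range, nsmul_eq_mul] at h12
  have hi' : (i : ℝ) ≤ n := by exact_mod_cast hin.le
  have h13 : 2 * ((i : ℝ) * ∑ j ∈ Finset.range i, ∑ k ∈ SB K i, ‖co (Fn K c j) (l - k)‖ ^ 2)
      ≤ 2 * (i * (i * (4 * η2 * (2080 * 8 ^ K / 8 ^ J)))) := by
    gcongr
  refine h13.trans ?_
  have h14 : 2 * ((i : ℝ) * (i * (4 * η2 * (2080 * 8 ^ K / 8 ^ J))))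
      ≤ 2 * (n * (n * (4 * η2 * (2080 * 8 ^ K / 8 ^ J)))) := by
    gcongr
  refine h14.trans (le_of_eq ?_)
  unfold rho2
  ring

lemma flat1 (h : RH K n J G η2 c) (hη : 0 ≤ η2) (hρ : rho2 K n J η2 ≤ 2) (i : ℕ) (hi : i ∈ G)
    (l : Fin 2 → ℤ) : ‖co (Fn K c i) l‖ ^ 2 ≤ 4 * η2 := by
  classical
  induction i using Nat.strong_induction_on generalizing l with
  | _ i ih =>
    have h1 := EE_le h hη i hi (fun j hj hji l => ih j hji hj l) l
    have h2 : EE K c i l ≤ 4 := by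
      refine h1.trans ?_
      split_ifs <;> linarith
    have h3 := flat0 h hη i hi l
    nlinarith

lemma far (h : RH K n J G η2 c) (hη : 0 ≤ η2) (hρ : rho2 K n J η2 ≤ 2) (i : ℕ) (hi : i ∈ G)
    (l : Fin 2 → ℤ) (hl : l ∉ SB K i) :
    ‖co (Fn K c i) l‖ ^ 2 ≤ η2 * rho2 K n J η2 := by
  classical
  have h1 := EE_le h hη i hi (fun j hj _ l => flat1 h hη hρ j hj l) l
  rw [if_neg hl, zero_add] at h1
  exact (flat0 h hη i hi l).trans (mul_le_mul_of_nonneg_left h1 hη)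

end

end Pool.Agent.H75.MT
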