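import Pool.Agent.H75.MT.Comb
import Pool.Agent.H75.MT.Grid

set_option autoImplicit false
set_option linter.unusedSectionVars false

/-! One step of the construction. -/

open Finset ComplexConjugate

namespace Pool.Agent.H75.MT

/-- a box of frequencies -/
noncomputable def bx (a b c d : ℤ) : Finset (Fin 2 → ℤ) :=
  Fintype.piFinset ![Finset.Ico a b, Finset.Ico c d]

lemma mem_bx {a b c d : ℤ} {k : Fin 2 → ℤ} :
    k ∈ bx a b c d ↔ (a ≤ k 0 ∧ k 0 < b) ∧ (c ≤ k 1 ∧ k 1 < d) := by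
  unfold bx
  rw [Fintype.mem_piFinset]
  simp [Fin.forall_fin_two]

lemma card_bx (a b c d : ℤ) : #(bx a b c d) = (b - a).toNat * (d - c).toNat := by
  unfold bx
  rw [Fintype.card_piFinset]
  simp [Fin.prod_univ_two]

lemma sum_bx (a b c d : ℤ) (f g : ℤ → ℂ) :
    ∑ k ∈ bx a b c d, f (k 0) * g (k 1)
      = (∑ i ∈ Finset.Ico a b, f i) * ∑ j ∈ Finset.Ico c d, g j := by
  have h := Finset.prod_univ_sum (![Finset.Ico a b, Finset.Ico c d]) (![f, g])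
  simp only [Fin.prod_univ_two] at h
  simpa [bx] using h.symm

/-- the exponential with frequency `k` at the real point `x` -/
noncomputable def Ek (x : Fin 2 → ℝ) (k : Fin 2 → ℤ) : ℂ := ee (k 0 * x 0) * ee (k 1 * x 1)

lemma Ek_neg (x : Fin 2 → ℝ) (k : Fin 2 → ℤ) : Ek x (-k) = conj (Ek x k) := by
  unfold Ek
  rw [map_mul, ee_conj, ee_conj]
  congr 2
  · simp
  · simp

lemma Ek_norm (x : Fin 2 → ℝ) (k : Fin 2 → ℤ) : ‖Ek x k‖ = 1 := by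
  unfold Ek
  rw [norm_mul, ee_norm, ee_norm, one_mul]

section Grid2

variable {Y : Type*} [Fintype Y] [DecidableEq Y] (Z Z' : ℕ) (e : Y ≃ Fin (2 * Z) × Fin (2 * Z'))

/-- the grid point -/
noncomputable def gp (y : Y) : Fin 2 → ℝ :=
  ![((e y).1 : ℝ) / ((2 * Z : ℕ) : ℝ), ((e y).2 : ℝ) / ((2 * Z' : ℕ) : ℝ)]

/-- the exponential on the grid -/
noncomputable def chi (k : Fin 2 → ℤ) (y : Y) : ℂ := Ek (gp Z Z' e y) k

lemma chi_def (k : Fin 2 → ℤ) (y : Y) : chi Z Z' e k y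
    = ee (k 0 * ((e y).1 : ℝ) / ((2 * Z : ℕ) : ℝ)) * ee (k 1 * ((e y).2 : ℝ) / ((2 * Z' : ℕ) : ℝ)) := by
  unfold chi Ek gp
  simp only [Matrix.cons_val_zero, Matrix.cons_val_one]
  rw [mul_div_assoc, mul_div_assoc]

lemma chi_neg (k : Fin 2 → ℤ) (y : Y) : chi Z Z' e (-k) y = conj (chi Z Z' e k y) := Ek_neg _ _

/-- the equivalence of residues -/
def RR (k k' : Fin 2 → ℤ) : Prop :=
  ((2 * Z : ℕ) : ℤ) ∣ k 0 - k' 0 ∧ ((2 * Z' : ℕ) : ℤ) ∣ k 1 - k' 1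

instance : DecidableRel (RR Z Z') := fun k k' => by unfold RR; infer_instance

lemma RR_symm (k k' : Fin 2 → ℤ) : RR Z Z' k k' ↔ RR Z Z' k' k := by
  unfold RR
  rw [← dvd_neg, neg_sub, ← dvd_neg (b := k 1 - k' 1), neg_sub]

variable (hZ : 0 < Z) (hZ' : 0 < Z')

include hZ hZ' in
lemma chi_orth (k k' : Fin 2 → ℤ) :
    ∑ y, chi Z Z' e k y * conj (chi Z Z' e k' y)
      = if RR Z Z' k k' then (((2 * Z : ℕ) * (2 * Z' : ℕ) : ℝ) : ℂ) else 0 := by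
  have h1 : ∀ y, chi Z Z' e k y * conj (chi Z Z' e k' y)
      = ee ((k 0 - k' 0 : ℤ) * ((e y).1 : ℝ) / ((2 * Z : ℕ) : ℝ))
        * ee ((k 1 - k' 1 : ℤ) * ((e y).2 : ℝ) / ((2 * Z' : ℕ) : ℝ)) := by
    intro y
    rw [chi_def, chi_def, map_mul, ee_conj, ee_conj, mul_mul_mul_comm, ← ee_add, ← ee_add]
    congr 2
    · push_cast; ring
    · push_cast; ring
  rw [Finset.sum_congr rfl (fun y _ => h1 y)]
  rw [Equiv.sum_comp e (fun z : Fin (2 * Z) × Fin (2 * Z') =>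
    ee ((k 0 - k' 0 : ℤ) * (z.1 : ℝ) / ((2 * Z : ℕ) : ℝ))
        * ee ((k 1 - k' 1 : ℤ) * (z.2 : ℝ) / ((2 * Z' : ℕ) : ℝ)))]
  rw [Fintype.sum_prod_type]
  dsimp only
  rw [← Finset.sum_mul_sum, sum_ee (2 * Z) (by omega), sum_ee (2 * Z') (by omega)]
  by_cases h2 : ((2 * Z : ℕ) : ℤ) ∣ k 0 - k' 0
  · by_cases h3 : ((2 * Z' : ℕ) : ℤ) ∣ k 1 - k' 1
    · rw [if_pos h2, if_pos h3, if_pos (show RR Z Z' k k' from ⟨h2, h3⟩)]
      push_cast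
      rfl
    · rw [if_neg h3, if_neg (fun h : RR Z Z' k k' => h3 (And.right h)), mul_zero]
  · rw [if_neg h2, if_neg (fun h : RR Z Z' k k' => h2 (And.left h)), zero_mul]

include hZ hZ' in
lemma mult_two (c c' : ℕ) (a b a' b' : ℤ) (h1 : b - a ≤ c * (2 * Z : ℕ))
    (h2 : b' - a' ≤ c' * (2 * Z' : ℕ)) (k : Fin 2 → ℤ) :
    #((bx a b a' b').filter (fun k' => RR Z Z' k k')) ≤ c * c' := by
  have hsub : (bx a b a' b').filter (fun k' => RR Z Z' k k')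
      ⊆ Fintype.piFinset ![(Finset.Ico a b).filter (fun j => ((2 * Z : ℕ) : ℤ) ∣ k 0 - j),
        (Finset.Ico a' b').filter (fun j => ((2 * Z' : ℕ) : ℤ) ∣ k 1 - j)] := by
    intro k' hk'
    rw [mem_filter, mem_bx] at hk'
    rw [Fintype.mem_piFinset]
    simp only [Fin.forall_fin_two, Matrix.cons_val_zero, Matrix.cons_val_one, mem_filter, mem_Ico]
    exact ⟨⟨hk'.1.1, hk'.2.1⟩, ⟨hk'.1.2, hk'.2.2⟩⟩
  refine (Finset.card_le_card hsub).trans ?_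
  rw [Fintype.card_piFinset]
  simp only [Fin.prod_univ_two, Matrix.cons_val_zero, Matrix.cons_val_one]
  exact Nat.mul_le_mul (mult_le (2 * Z) (by omega) a b c h1 (k 0))
    (mult_le (2 * Z') (by omega) a' b' c' h2 (k 1))

include hZ hZ' in
lemma bessel_two (c c' : ℕ) (a b a' b' : ℤ) (h1 : b - a ≤ c * (2 * Z : ℕ))
    (h2 : b' - a' ≤ c' * (2 * Z' : ℕ)) (u : (Fin 2 → ℤ) → ℂ) :
    ∑ y, ‖∑ k ∈ bx a b a' b', u k * chi Z Z' e k y‖ ^ 2
      ≤ ((2 * Z : ℕ) * (2 * Z' : ℕ) : ℝ) * (c * c' : ℕ) * ∑ k ∈ bx a b a' b', ‖u k‖ ^ 2 :=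
  bessel (chi Z Z' e) (bx a b a' b') (RR Z Z') _ (by positivity) (c * c')
    (fun k _ k' _ => chi_orth Z Z' e hZ hZ' k k') (RR_symm Z Z')
    (fun k _ => mult_two Z Z' hZ hZ' c c' a b a' b' h1 h2 k) u

/-- the positive part of the spectrum -/
noncomputable def Bp : Finset (Fin 2 → ℤ) := bx Z (5 * Z) Z' (5 * Z')

/-- the main part of the spectrum -/
noncomputable def Rm : Finset (Fin 2 → ℤ) := bx (2 * Z) (4 * Z) (2 * Z') (4 * Z')

/-- the symmetric spectrum -/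
noncomputable def sB : Finset (Fin 2 → ℤ) :=
  (bx (-(5 * Z)) (5 * Z) (-(5 * Z')) (5 * Z')).filter
    (fun k => (Z : ℤ) ≤ |k 0| ∧ |k 0| < 5 * Z ∧ (Z' : ℤ) ≤ |k 1| ∧ |k 1| < 5 * Z')

lemma mem_sB {k : Fin 2 → ℤ} : k ∈ sB Z Z' ↔
    ((Z : ℤ) ≤ |k 0| ∧ |k 0| < 5 * Z) ∧ ((Z' : ℤ) ≤ |k 1| ∧ |k 1| < 5 * Z') := by
  unfold sB
  rw [mem_filter, mem_bx]
  constructor
  · rintro ⟨-, h⟩
    exact ⟨⟨h.1, h.2.1⟩, ⟨h.2.2.1, h.2.2.2⟩⟩
  · rintro ⟨⟨h1, h2⟩, ⟨h3, h4⟩⟩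
    refine ⟨⟨⟨?_, ?_⟩, ⟨?_, ?_⟩⟩, h1, h2, h3, h4⟩
    · linarith [(abs_lt.1 h2).1]
    · exact (abs_lt.1 h2).2
    · linarith [(abs_lt.1 h4).1]
    · exact (abs_lt.1 h4).2

lemma card_sB_le : #(sB Z Z') ≤ 100 * (Z * Z') := by
  unfold sB
  refine (Finset.card_filter_le _ _).trans ?_
  rw [card_bx]
  have h1 : (5 * (Z : ℤ) - -(5 * Z)).toNat = 10 * Z := by omega
  have h2 : (5 * (Z' : ℤ) - -(5 * Z')).toNat = 10 * Z' := by omega
  rw [h1, h2]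
  exact le_of_eq (by ring)

lemma Bp_sub : Bp Z Z' ⊆ sB Z Z' := by
  intro k hk
  unfold Bp at hk
  rw [mem_bx] at hk
  rw [mem_sB]
  have h1 : (0 : ℤ) ≤ Z := Int.natCast_nonneg _
  have h2 : (0 : ℤ) ≤ Z' := Int.natCast_nonneg _
  rw [abs_of_nonneg (by linarith [hk.1.1]), abs_of_nonneg (by linarith [hk.2.1])]
  exact hk

lemma neg_mem_sB {k : Fin 2 → ℤ} (h : k ∈ sB Z Z') : -k ∈ sB Z Z' := by
  rw [mem_sB] at h ⊢
  simpa using h

lemma Rm_sub : Rm Z Z' ⊆ Bp Z Z' := by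
  intro k hk
  unfold Rm at hk
  unfold Bp
  rw [mem_bx] at hk ⊢
  have h1 : (0 : ℤ) ≤ Z := Int.natCast_nonneg _
  have h2 : (0 : ℤ) ≤ Z' := Int.natCast_nonneg _
  refine ⟨⟨by linarith [hk.1.1], by linarith [hk.1.2]⟩, ⟨by linarith [hk.2.1], by linarith [hk.2.2]⟩⟩

include hZ in
lemma Bp_neg {k : Fin 2 → ℤ} (h : k ∈ Bp Z Z') : -k ∉ Bp Z Z' := by
  unfold Bp at h ⊢
  rw [mem_bx] at h ⊢
  intro h'
  have h1 : (0 : ℤ) < Z := by exact_mod_cast hZ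
  have h2 := h.1.1
  have h3 := h'.1.1
  simp only [Pi.neg_apply] at h3
  linarith

/-- grid Fourier coefficient -/
noncomputable def hat (h : Y → ℝ) (k : Fin 2 → ℤ) : ℂ :=
  (1 / ((2 * Z : ℕ) * (2 * Z' : ℕ) : ℝ) : ℝ) * ∑ y, (h y : ℂ) * conj (chi Z Z' e k y)

/-- kernel in two variables -/
noncomputable def KK (k : Fin 2 → ℤ) : ℝ := kap Z (k 0) * kap Z' (k 1)

lemma KK_nonneg (k : Fin 2 → ℤ) : 0 ≤ KK Z Z' k := mul_nonneg (kap_nonneg _ _) (kap_nonneg _ _)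

lemma KK_le_one (k : Fin 2 → ℤ) : KK Z Z' k ≤ 1 :=
  mul_le_one₀ (kap_le_one _ _) (kap_nonneg _ _) (kap_le_one _ _)

include hZ hZ' in
lemma KK_eq_one {k : Fin 2 → ℤ} (hk : k ∈ Rm Z Z') : KK Z Z' k = 1 := by
  unfold Rm at hk
  rw [mem_bx] at hk
  unfold KK
  rw [kap_eq_one Z hZ _ hk.1.1 hk.1.2, kap_eq_one Z' hZ' _ hk.2.1 hk.2.2, one_mul]

/-- coefficients on the positive part -/
noncomputable def CC (h : Y → ℝ) (k : Fin 2 → ℤ) : ℂ := (1 / 16) * (KK Z Z' k : ℂ) * hat Z Z' e h k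

/-- the coefficients of the factor -/
noncomputable def cf (h : Y → ℝ) (k : Fin 2 → ℤ) : ℂ :=
  if k ∈ Bp Z Z' then CC Z Z' e h k
  else if -k ∈ Bp Z Z' then conj (CC Z Z' e h (-k)) else 0

include hZ in
lemma sum_cf (h : Y → ℝ) (F : (Fin 2 → ℤ) → ℂ) :
    ∑ k ∈ sB Z Z', F k * cf Z Z' e h k
      = ∑ k ∈ Bp Z Z', (F k * CC Z Z' e h k + F (-k) * conj (CC Z Z' e h k)) := by
  have hdisj : Disjoint (Bp Z Z') ((Bp Z Z').image (fun k => -k)) := by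
    rw [Finset.disjoint_left]
    intro k hk hk'
    rw [mem_image] at hk'
    obtain ⟨k', hk', rfl⟩ := hk'
    exact Bp_neg Z Z' hZ hk' hk
  have hsub : (Bp Z Z') ∪ ((Bp Z Z').image (fun k => -k)) ⊆ sB Z Z' := by
    refine Finset.union_subset (Bp_sub Z Z') ?_
    intro k hk
    rw [mem_image] at hk
    obtain ⟨k', hk', rfl⟩ := hk
    exact neg_mem_sB Z Z' (Bp_sub Z Z' hk')
  rw [← Finset.sum_subset hsub]
  · rw [Finset.sum_union hdisj, Finset.sum_image (fun a _ b _ hab => neg_injective hab),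
      ← Finset.sum_add_distrib]
    refine Finset.sum_congr rfl (fun k hk => ?_)
    congr 1
    · unfold cf
      rw [if_pos hk]
    · unfold cf
      rw [if_neg (Bp_neg Z Z' hZ hk), neg_neg, if_pos hk]
  · intro k _ hk
    rw [mem_union, not_or, mem_image] at hk
    unfold cf
    rw [if_neg hk.1, if_neg, mul_zero]
    intro hk'
    exact hk.2 ⟨-k, hk', neg_neg k⟩

include hZ hZ' in
lemma kernel_two (x : Fin 2 → ℝ) :
    ∑ y, ‖∑ k ∈ Bp Z Z', (KK Z Z' k : ℂ) * (Ek x k * conj (chi Z Z' e k y))‖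
      ≤ (25 / 4) * ((2 * Z : ℕ) * (2 * Z' : ℕ) : ℝ) := by
  have h1 : ∀ y, ∑ k ∈ Bp Z Z', (KK Z Z' k : ℂ) * (Ek x k * conj (chi Z Z' e k y))
      = (∑ k ∈ Finset.Ico (Z : ℤ) (5 * Z),
          (kap Z k : ℂ) * ee (k * (x 0 - ((e y).1 : ℝ) / ((2 * Z : ℕ) : ℝ))))
        * (∑ k ∈ Finset.Ico (Z' : ℤ) (5 * Z'),
          (kap Z' k : ℂ) * ee (k * (x 1 - ((e y).2 : ℝ) / ((2 * Z' : ℕ) : ℝ)))) := by
    intro y
    rw [← sum_bx]
    unfold Bp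
    refine Finset.sum_congr rfl (fun k _ => ?_)
    rw [chi_def, map_mul, ee_conj, ee_conj]
    unfold KK Ek
    have e1 : ee (k 0 * (x 0 - ((e y).1 : ℝ) / ((2 * Z : ℕ) : ℝ)))
        = ee (k 0 * x 0) * ee (-(k 0 * ((e y).1 : ℝ) / ((2 * Z : ℕ) : ℝ))) := by
      rw [← ee_add]
      congr 1
      ring
    have e2 : ee (k 1 * (x 1 - ((e y).2 : ℝ) / ((2 * Z' : ℕ) : ℝ)))
        = ee (k 1 * x 1) * ee (-(k 1 * ((e y).2 : ℝ) / ((2 * Z' : ℕ) : ℝ))) := by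
      rw [← ee_add]
      congr 1
      ring
    rw [e1, e2]
    push_cast
    ring
  simp only [h1, norm_mul]
  rw [Equiv.sum_comp e (fun z : Fin (2 * Z) × Fin (2 * Z') =>
    ‖∑ k ∈ Finset.Ico (Z : ℤ) (5 * Z),
          (kap Z k : ℂ) * ee (k * (x 0 - (z.1 : ℝ) / ((2 * Z : ℕ) : ℝ)))‖
        * ‖∑ k ∈ Finset.Ico (Z' : ℤ) (5 * Z'),
          (kap Z' k : ℂ) * ee (k * (x 1 - (z.2 : ℝ) / ((2 * Z' : ℕ) : ℝ)))‖)]
  rw [Fintype.sum_prod_type]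
  dsimp only
  rw [← Finset.sum_mul_sum]
  have b1 := kernel_bound Z hZ (x 0)
  have b2 := kernel_bound Z' hZ' (x 1)
  refine (mul_le_mul b1 b2 (Finset.sum_nonneg (fun _ _ => norm_nonneg _)) (by positivity)).trans
    (le_of_eq ?_)
  push_cast
  ring

/-- dual orthogonality in one variable -/
lemma dual_one (A : ℕ) (hA : 0 < A) (a : ℤ) (p q : Fin A) :
    ∑ k ∈ Finset.Ico a (a + A), ee (k * (p : ℝ) / A) * conj (ee (k * (q : ℝ) / A))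
      = if p = q then (A : ℂ) else 0 := by
  have h1 : ∑ k ∈ Finset.Ico a (a + A), ee (k * (p : ℝ) / A) * conj (ee (k * (q : ℝ) / A))
      = ∑ j : Fin A, ee ((a + (j : ℤ) : ℤ) * (p : ℝ) / A)
          * conj (ee ((a + (j : ℤ) : ℤ) * (q : ℝ) / A)) := by
    symm
    refine Finset.sum_bij (fun (j : Fin A) _ => a + (j : ℤ)) ?_ ?_ ?_ ?_
    · intro j _
      rw [mem_Ico]
      have := j.2
      omega
    · intro j _ j' _ h
      ext
      have h' : a + (j : ℤ) = a + (j' : ℤ) := h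
      omega
    · intro k hk
      rw [mem_Ico] at hk
      refine ⟨⟨(k - a).toNat, by omega⟩, mem_univ _, ?_⟩
      simp only
      omega
    · intro j _
      rfl
  rw [h1]
  have h2 : ∀ j : Fin A, ee ((a + (j : ℤ) : ℤ) * (p : ℝ) / A)
          * conj (ee ((a + (j : ℤ) : ℤ) * (q : ℝ) / A))
      = ee (a * ((p : ℝ) - q) / A) * ee (((p : ℤ) - (q : ℤ) : ℤ) * (j : ℝ) / A) := by
    intro j
    rw [ee_conj, ← ee_add, ← ee_add]
    congr 1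
    push_cast
    ring
  rw [Finset.sum_congr rfl (fun j _ => h2 j), ← Finset.mul_sum, sum_ee A hA]
  by_cases hpq : p = q
  · rw [if_pos hpq, if_pos (by rw [hpq, sub_self]; exact dvd_zero _), hpq, sub_self, mul_zero,
      zero_div, ee_zero, one_mul]
  · rw [if_neg hpq, if_neg, mul_zero]
    intro hd
    apply hpq
    have h3 : |((p : ℕ) : ℤ) - (q : ℕ)| < A := by
      have h4 := p.2
      have h5 := q.2
      rw [abs_lt]
      omega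
    have h6 := Int.eq_zero_of_abs_lt_dvd hd h3
    ext
    omega

include hZ hZ' in
lemma chi_dual (y y' : Y) :
    ∑ k ∈ Rm Z Z', chi Z Z' e k y * conj (chi Z Z' e k y')
      = if y = y' then (((2 * Z : ℕ) * (2 * Z' : ℕ) : ℝ) : ℂ) else 0 := by
  have h1 : ∀ k : Fin 2 → ℤ, chi Z Z' e k y * conj (chi Z Z' e k y')
      = (ee (k 0 * ((e y).1 : ℝ) / ((2 * Z : ℕ) : ℝ))
          * conj (ee (k 0 * ((e y').1 : ℝ) / ((2 * Z : ℕ) : ℝ))))
        * (ee (k 1 * ((e y).2 : ℝ) / ((2 * Z' : ℕ) : ℝ))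
          * conj (ee (k 1 * ((e y').2 : ℝ) / ((2 * Z' : ℕ) : ℝ)))) := by
    intro k
    rw [chi_def, chi_def, map_mul]
    ring
  rw [Finset.sum_congr rfl (fun k _ => h1 k)]
  unfold Rm
  rw [sum_bx (2 * Z) (4 * Z) (2 * Z') (4 * Z')
    (fun j => ee (j * ((e y).1 : ℝ) / ((2 * Z : ℕ) : ℝ))
          * conj (ee (j * ((e y').1 : ℝ) / ((2 * Z : ℕ) : ℝ))))
    (fun j => ee (j * ((e y).2 : ℝ) / ((2 * Z' : ℕ) : ℝ))
          * conj (ee (j * ((e y').2 : ℝ) / ((2 * Z' : ℕ) : ℝ))))]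
  have e1 : (4 * (Z : ℤ)) = 2 * Z + ((2 * Z : ℕ) : ℤ) := by push_cast; ring
  have e2 : (4 * (Z' : ℤ)) = 2 * Z' + ((2 * Z' : ℕ) : ℤ) := by push_cast; ring
  rw [e1, e2, dual_one (2 * Z) (by omega), dual_one (2 * Z') (by omega)]
  by_cases h : y = y'
  · subst h
    simp
  · rw [if_neg h]
    by_cases h2 : (e y).1 = (e y').1
    · have h3 : (e y).2 ≠ (e y').2 := by
        intro h3
        apply h
        exact e.injective (Prod.ext h2 h3)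
      rw [if_neg h3, mul_zero]
    · rw [if_neg h2, zero_mul]

end Grid2

end Pool.Agent.H75.MT
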