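import Pool.Agent.H75.MT.Step

set_option autoImplicit false
set_option linter.unusedSectionVars false

/-! Fourier coefficients of continuous functions on the two dimensional torus. -/

open Finset ComplexConjugate MeasureTheory UnitAddTorus

namespace Pool.Agent.H75.MT

noncomputable section

local instance : MeasureSpace UnitAddCircle := ⟨AddCircle.haarAddCircle⟩

local instance : Measure.IsAddHaarMeasure (volume : Measure UnitAddCircle) :=
  inferInstanceAs (Measure.IsAddHaarMeasure AddCircle.haarAddCircle)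

local instance : IsProbabilityMeasure (volume : Measure UnitAddCircle) :=
  inferInstanceAs (IsProbabilityMeasure AddCircle.haarAddCircle)

/-- the two dimensional torus -/
abbrev T2 := UnitAddTorus (Fin 2)

lemma cint (P : C(T2, ℂ)) : Integrable (fun x => P x) volume :=
  P.continuous.integrable_of_hasCompactSupport (HasCompactSupport.of_compactSpace _)

lemma rint (f : T2 → ℝ) (hf : Continuous f) : Integrable f volume :=
  hf.integrable_of_hasCompactSupport (HasCompactSupport.of_compactSpace _)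

/-- Fourier coefficient -/
def co (P : C(T2, ℂ)) (k : Fin 2 → ℤ) : ℂ := mFourierCoeff P k

lemma co_def (P : C(T2, ℂ)) (k : Fin 2 → ℤ) : co P k = ∫ x, (mFourier (-k) * P) x := by
  unfold co mFourierCoeff
  rfl

lemma co_add (P Q : C(T2, ℂ)) (k : Fin 2 → ℤ) : co (P + Q) k = co P k + co Q k := by
  rw [co_def, co_def, co_def, ← integral_add (cint _) (cint _)]
  congr 1
  ext x
  simp [mul_add]

lemma co_sub (P Q : C(T2, ℂ)) (k : Fin 2 → ℤ) : co (P - Q) k = co P k - co Q k := by
  rw [co_def, co_def, co_def, ← integral_sub (cint _) (cint _)]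
  congr 1
  ext x
  simp [mul_sub]

lemma co_smul (a : ℂ) (P : C(T2, ℂ)) (k : Fin 2 → ℤ) : co (a • P) k = a * co P k := by
  rw [co_def, co_def, ← integral_const_mul]
  congr 1
  ext x
  simp
  ring

lemma co_zero (k : Fin 2 → ℤ) : co 0 k = 0 := by
  rw [co_def]
  simp

lemma co_sum {ι : Type*} (s : Finset ι) (f : ι → C(T2, ℂ)) (k : Fin 2 → ℤ) :
    co (∑ i ∈ s, f i) k = ∑ i ∈ s, co (f i) k := by
  classical
  induction s using Finset.induction_on with
  | empty => simp [co_zero]
  | insert a s ha ih => rw [Finset.sum_insert ha, Finset.sum_insert ha, co_add, ih]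

lemma integral_mF (k : Fin 2 → ℤ) : ∫ x, mFourier k x = if k = 0 then (1 : ℂ) else 0 := by
  have h := (orthonormal_iff_ite.1 (orthonormal_mFourier (d := Fin 2))) 0 k
  rw [ContinuousMap.inner_toLp] at h
  have h1 : ∀ x : T2, mFourier k x * conj (mFourier (0 : Fin 2 → ℤ) x) = mFourier k x := by
    intro x
    rw [mFourier_zero]
    simp
  simp only [h1] at h
  rw [h]
  by_cases hk : k = 0
  · rw [if_pos hk, if_pos hk.symm]
  · rw [if_neg hk, if_neg (fun h => hk h.symm)]

lemma mF_mul (k l : Fin 2 → ℤ) : (mFourier k * mFourier l : C(T2, ℂ)) = mFourier (k + l) := by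
  ext x
  rw [ContinuousMap.mul_apply, mFourier_add]

lemma co_mF (k l : Fin 2 → ℤ) : co (mFourier k) l = if k = l then 1 else 0 := by
  rw [co_def, mF_mul, integral_mF]
  by_cases h : k = l
  · rw [if_pos h, if_pos (by rw [h]; simp)]
  · rw [if_neg h, if_neg]
    intro h'
    apply h
    have : k = l + (-l + k) := by abel
    rw [this, h', add_zero]

lemma co_one (l : Fin 2 → ℤ) : co 1 l = if l = 0 then 1 else 0 := by
  rw [← mFourier_zero, co_mF]
  by_cases h : l = 0
  · rw [if_pos h, if_pos h.symm]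
  · rw [if_neg h, if_neg (fun h' => h h'.symm)]

lemma co_mul_mF (P : C(T2, ℂ)) (k l : Fin 2 → ℤ) : co (P * mFourier k) l = co P (l - k) := by
  rw [co_def, co_def]
  congr 1
  ext x
  have h : (mFourier (-l) * (P * mFourier k) : C(T2, ℂ)) = mFourier (-(l - k)) * P := by
    rw [mul_comm P, ← mul_assoc, mF_mul]
    congr 2
    abel
  rw [h]

/-- a trigonometric polynomial -/
def tp (S : Finset (Fin 2 → ℤ)) (c : (Fin 2 → ℤ) → ℂ) : C(T2, ℂ) :=
  ∑ k ∈ S, c k • mFourier k

lemma tp_apply (S : Finset (Fin 2 → ℤ)) (c : (Fin 2 → ℤ) → ℂ) (x : T2) :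
    tp S c x = ∑ k ∈ S, c k * mFourier k x := by
  unfold tp
  rw [ContinuousMap.coe_sum, Finset.sum_apply]
  rfl

lemma co_mul_tp (P : C(T2, ℂ)) (S : Finset (Fin 2 → ℤ)) (c : (Fin 2 → ℤ) → ℂ)
    (l : Fin 2 → ℤ) : co (P * tp S c) l = ∑ k ∈ S, co P (l - k) * c k := by
  unfold tp
  rw [Finset.mul_sum, co_sum]
  refine Finset.sum_congr rfl (fun k _ => ?_)
  rw [mul_smul_comm, co_smul, co_mul_mF, mul_comm]

lemma co_tp (S : Finset (Fin 2 → ℤ)) (c : (Fin 2 → ℤ) → ℂ) (l : Fin 2 → ℤ) :
    co (tp S c) l = if l ∈ S then c l else 0 := by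
  have h := co_mul_tp 1 S c l
  rw [one_mul] at h
  rw [h]
  have h1 : ∀ k ∈ S, co 1 (l - k) * c k = if l = k then c l else 0 := by
    intro k _
    rw [co_one]
    by_cases h : l = k
    · rw [if_pos h, if_pos (by rw [h, sub_self]), one_mul, h]
    · rw [if_neg h, if_neg (fun h' => h (sub_eq_zero.1 h')), zero_mul]
  rw [Finset.sum_congr rfl h1, Finset.sum_ite_eq]

lemma mF_coe (k : Fin 2 → ℤ) (x : Fin 2 → ℝ) :
    mFourier k (fun i => (x i : UnitAddCircle)) = Ek x k := by
  unfold Ek ee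
  show ∏ i : Fin 2, fourier (k i) ((x i : ℝ) : UnitAddCircle) = _
  rw [Fin.prod_univ_two, fourier_coe_apply, fourier_coe_apply]
  congr 2
  · push_cast; ring
  · push_cast; ring

lemma exists_real (t : T2) : ∃ x : Fin 2 → ℝ, (fun i => (x i : UnitAddCircle)) = t := by
  choose x hx using fun i => QuotientAddGroup.mk_surjective (t i)
  exact ⟨x, funext hx⟩

/-- Bessel's inequality against the uniform norm -/
lemma bessel_T (P : C(T2, ℂ)) (S : Finset (Fin 2 → ℤ)) (U : ℝ) (hU : ∀ x, ‖P x‖ ≤ U) :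
    ∑ k ∈ S, ‖co P k‖ ^ 2 ≤ U ^ 2 := by
  have h1 := hasSum_sq_mFourierCoeff (ContinuousMap.toLp 2 (volume : Measure T2) ℂ P)
  have h2 := sum_le_hasSum S (fun k _ => sq_nonneg _) h1
  simp only [mFourierCoeff_toLp] at h2
  refine h2.trans ?_
  have h3 : ∫ t, ‖(ContinuousMap.toLp 2 (volume : Measure T2) ℂ P) t‖ ^ 2 = ∫ t, ‖P t‖ ^ 2 := by
    refine integral_congr_ae ?_
    filter_upwards [ContinuousMap.coeFn_toLp (p := 2) (𝕜 := ℂ) (volume : Measure T2) P] with t ht
    rw [ht]
  rw [h3]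
  have h4 : ∫ t : T2, ‖P t‖ ^ 2 ≤ ∫ _t : T2, U ^ 2 := by
    refine integral_mono (rint _ (by fun_prop)) (integrable_const _) (fun t => ?_)
    exact pow_le_pow_left₀ (norm_nonneg _) (hU t) 2
  refine h4.trans (le_of_eq ?_)
  simp

/-- pairing with a function of small integral norm -/
lemma pair_le (u G : C(T2, ℂ)) (U : ℝ) (hU : ∀ x, ‖u x‖ ≤ U) (V : ℝ)
    (hV : ∫ x, ‖G x‖ ≤ V) : ‖∫ x, u x * conj (G x)‖ ≤ U * V := by
  refine (norm_integral_le_integral_norm _).trans ?_
  have hU0 : 0 ≤ U := (norm_nonneg (u 0)).trans (hU 0)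
  have h1 : ∫ x, ‖u x * conj (G x)‖ ≤ ∫ x, U * ‖G x‖ := by
    refine integral_mono (rint _ (by fun_prop)) (rint _ (by fun_prop)) (fun x => ?_)
    simp only [norm_mul, RCLike.norm_conj]
    exact mul_le_mul_of_nonneg_right (hU x) (norm_nonneg _)
  refine h1.trans ?_
  rw [integral_const_mul]
  exact mul_le_mul_of_nonneg_left hV hU0

lemma pair_mF (G : C(T2, ℂ)) (k : Fin 2 → ℤ) :
    ∫ x, (mFourier k) x * conj (G x) = conj (co G k) := by
  rw [co_def, ← integral_conj]
  congr 1
  ext x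
  rw [ContinuousMap.mul_apply, map_mul, mFourier_neg, Complex.conj_conj]

lemma pair_tp (G : C(T2, ℂ)) (S : Finset (Fin 2 → ℤ)) (c : (Fin 2 → ℤ) → ℂ) :
    ∫ x, (tp S c) x * conj (G x) = ∑ k ∈ S, c k * conj (co G k) := by
  have h1 : ∀ x, (tp S c) x * conj (G x) = ∑ k ∈ S, c k * ((mFourier k) x * conj (G x)) := by
    intro x
    rw [tp_apply, Finset.sum_mul]
    refine Finset.sum_congr rfl (fun k _ => ?_)
    ring
  simp only [h1]
  rw [integral_finsetSum]
  · refine Finset.sum_congr rfl (fun k _ => ?_)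
    rw [integral_const_mul, pair_mF]
  · intro k _
    have hc : Continuous (fun x : T2 => c k * ((mFourier k) x * conj (G x))) := by
      have := (mFourier k).continuous
      have := G.continuous
      fun_prop
    exact hc.integrable_of_hasCompactSupport (HasCompactSupport.of_compactSpace _)

lemma co_neg_of_real (G : C(T2, ℂ)) (hG : ∀ x, (G x).im = 0) (k : Fin 2 → ℤ) :
    co G (-k) = conj (co G k) := by
  rw [co_def, co_def, ← integral_conj]
  congr 1
  ext x
  rw [ContinuousMap.mul_apply, ContinuousMap.mul_apply, map_mul, mFourier_neg,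
    Complex.conj_eq_iff_im.2 (hG x)]

end

end Pool.Agent.H75.MT
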