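import Pool.Agent.H75.MT.Proc

set_option autoImplicit false
set_option linter.unusedSectionVars false

/-! Union bound and choice of the class of blocks. -/

open Finset ComplexConjugate MeasureTheory UnitAddTorus

namespace Pool.Agent.H75.MT

noncomputable section

lemma class_card (J s r : ℕ) (hr : r < J) :
    #((Finset.range (J * s)).filter (fun b => b % J = r)) = s := by
  have h1 : (Finset.range (J * s)).filter (fun b => b % J = r)
      = (Finset.range s).image (fun i => r + J * i) := by
    ext b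
    rw [mem_filter, mem_range, mem_image]
    constructor
    · rintro ⟨hb, hbr⟩
      refine ⟨b / J, ?_, ?_⟩
      · rw [mem_range]
        exact Nat.div_lt_of_lt_mul hb
      · rw [← hbr]
        exact Nat.mod_add_div b J
    · rintro ⟨i, hi, rfl⟩
      rw [mem_range] at hi
      constructor
      · have : J * (i + 1) ≤ J * s := Nat.mul_le_mul_left _ hi
        rw [Nat.mul_add, Nat.mul_one] at this
        omega
      · rw [Nat.add_mul_mod_self_left, Nat.mod_eq_of_lt hr]
  rw [h1, Finset.card_image_of_injective, card_range]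
  intro i j hij
  have h2 : r + J * i = r + J * j := hij
  have h3 : J * i = J * j := by omega
  exact Nat.eq_of_mul_eq_mul_left (by omega) h3

open Classical in
/-- the finite set of parameters in a class -/
def PF (K J n r : ℕ) : Finset (Fin n → Option (Finset (Fin 2 → ℤ))) :=
  Fintype.piFinset (fun b : Fin n => if (b : ℕ) % J = r then
    insert none (((SB K b).powerset.filter (fun D => #D ≤ n2 K)).image some) else {none})

/-- extension of a parameter -/
def extP {n : ℕ} (P : Fin n → Option (Finset (Fin 2 → ℤ))) : PP :=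
  fun i => if h : i < n then P ⟨i, h⟩ else none

lemma card_small' {Y : Type*} (r : ℕ) (X : Finset Y) :
    #(X.powerset.filter (fun D => #D ≤ r)) ≤ bsum #X r := by
  classical
  have h1 : X.powerset.filter (fun D => #D ≤ r)
      ⊆ (Finset.Iic r).biUnion (fun k => X.powersetCard k) := by
    intro D hD
    simp only [mem_filter, mem_powerset] at hD
    simp only [mem_biUnion, mem_Iic, mem_powersetCard]
    exact ⟨#D, hD.2, hD.1, rfl⟩
  refine (Finset.card_le_card h1).trans (Finset.card_biUnion_le.trans ?_)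
  unfold bsum
  refine Finset.sum_le_sum (fun k _ => ?_)
  rw [Finset.card_powersetCard]

lemma bsum_mono_left {N N' : ℕ} (h : N ≤ N') (r : ℕ) : bsum N r ≤ bsum N' r := by
  unfold bsum
  exact Finset.sum_le_sum (fun k _ => Nat.choose_le_choose k h)

lemma SB_card (K b : ℕ) (hK : 2 ≤ K) (hb : b ≤ K) : #(SB K b) ≤ 25 * (1024 * n2 K) := by
  unfold SB
  refine (card_sB_le _ _).trans (le_of_eq ?_)
  rw [← N_eq2 K hK, card_eq K b hb]
  ring

lemma n2_pos (K : ℕ) : 1 ≤ n2 K := by
  unfold n2
  have : 1 ≤ 8 ^ (K - 2) := Nat.one_le_pow _ _ (by norm_num)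
  omega

open Classical in
lemma PF_card (K J s r : ℕ) (hK : 2 ≤ K) (hn : J * s ≤ K + 1) (hr : r < J) :
    #(PF K J (J * s) r) ≤ 2 ^ (128 * n2 K * s) := by
  unfold PF
  rw [Fintype.card_piFinset]
  have h1 : ∀ b : Fin (J * s), #(if (b : ℕ) % J = r then
      insert none (((SB K b).powerset.filter (fun D => #D ≤ n2 K)).image some) else {none})
      ≤ if (b : ℕ) % J = r then 2 ^ (128 * n2 K) else 1 := by
    intro b
    split_ifs
    · refine (Finset.card_insert_le _ _).trans ?_
      have h2 := card_small' (n2 K) (SB K b)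
      have h3 := bsum_mono_left (SB_card K b hK (by have := b.2; omega)) (n2 K)
      have h4 := lam_num (n2 K) (n2_pos K)
      have h5 : #(((SB K b).powerset.filter (fun D => #D ≤ n2 K)).image some)
          ≤ #((SB K b).powerset.filter (fun D => #D ≤ n2 K)) := Finset.card_image_le
      omega
    · simp
  refine (Finset.prod_le_prod' (fun b _ => h1 b)).trans ?_
  rw [Finset.prod_ite, Finset.prod_const, Finset.prod_const_one, mul_one]
  have h2 : #((univ : Finset (Fin (J * s))).filter
      (fun b : Fin (J * s) => (b : ℕ) % J = r)) = s := by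
    refine Eq.trans ?_ (class_card J s r hr)
    rw [← Finset.card_map Fin.valEmbedding]
    congr 1
    ext i
    simp only [mem_map, mem_filter, mem_univ, true_and, Fin.valEmbedding_apply, mem_range]
    constructor
    · rintro ⟨a, ha, rfl⟩
      exact ⟨a.2, ha⟩
    · rintro ⟨hi, hir⟩
      exact ⟨⟨i, hi⟩, hir, rfl⟩
  rw [h2, ← pow_mul]

open Classical in
/-- the exceptional sign sequences -/
def BadU (K J s : ℕ) : Finset (Fin (J * s) → Finset (YK K)) :=
  (Finset.range J).biUnion (fun r => (PF K J (J * s) r).biUnion (fun P =>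
    univ.filter (fun ε : Fin (J * s) → Finset (YK K) =>
      s / 4 + 1 ≤ nbad (sst K (extP P)) (badK K (extP P)) (J * s) (ext ε))))

lemma mem_PF_class {K J n r : ℕ} {P : Fin n → Option (Finset (Fin 2 → ℤ))}
    (hP : P ∈ PF K J n r) (b : ℕ) (hb : extP P b ≠ none) : b < n ∧ b % J = r := by
  classical
  unfold extP at hb
  split_ifs at hb with h
  · refine ⟨h, ?_⟩
    unfold PF at hP
    rw [Fintype.mem_piFinset] at hP
    have h1 := hP ⟨b, h⟩
    by_contra hne
    simp only [hne, if_false, mem_singleton] at h1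
    exact hb h1
  · exact absurd rfl hb

open Classical in
lemma BadU_card (K J s : ℕ) (hK : 2 ≤ K) (hn : J * s ≤ K + 1) (hs : 1 ≤ s) :
    4 * #(BadU K J s) ≤ 2 ^ (1024 * n2 K * (J * s)) := by
  have h1 : #(BadU K J s) * 2 ^ (768 * n2 K * (s / 4 + 1))
      ≤ J * (2 ^ (128 * n2 K * s) * (2 ^ (1024 * n2 K * (J * s)) * 2 ^ s)) := by
    unfold BadU
    refine (Nat.mul_le_mul_right _ Finset.card_biUnion_le).trans ?_
    rw [Finset.sum_mul]
    have h2 : ∀ r ∈ Finset.range J, #((PF K J (J * s) r).biUnion (fun P =>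
        univ.filter (fun ε : Fin (J * s) → Finset (YK K) =>
          s / 4 + 1 ≤ nbad (sst K (extP P)) (badK K (extP P)) (J * s) (ext ε))))
          * 2 ^ (768 * n2 K * (s / 4 + 1))
        ≤ 2 ^ (128 * n2 K * s) * (2 ^ (1024 * n2 K * (J * s)) * 2 ^ s) := by
      intro r hr
      rw [mem_range] at hr
      refine (Nat.mul_le_mul_right _ Finset.card_biUnion_le).trans ?_
      rw [Finset.sum_mul]
      have h3 : ∀ P ∈ PF K J (J * s) r, #(univ.filter (fun ε : Fin (J * s) → Finset (YK K) =>
          s / 4 + 1 ≤ nbad (sst K (extP P)) (badK K (extP P)) (J * s) (ext ε)))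
            * 2 ^ (768 * n2 K * (s / 4 + 1))
          ≤ 2 ^ (1024 * n2 K * (J * s)) * 2 ^ s := by
        intro P hP
        refine (many_bad K hK (extP P) (J * s) (s / 4 + 1)).trans ?_
        refine Nat.mul_le_mul_left _ (Nat.pow_le_pow_right (by norm_num) ?_)
        refine le_trans (Finset.card_le_card ?_) (class_card J s r hr).le
        intro b hb
        rw [mem_filter] at hb ⊢
        exact ⟨hb.1, (mem_PF_class hP b hb.2).2⟩
      refine (Finset.sum_le_sum h3).trans ?_
      rw [Finset.sum_const, smul_eq_mul]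
      exact Nat.mul_le_mul_right _ (PF_card K J s r hK hn hr)
    refine (Finset.sum_le_sum h2).trans ?_
    rw [Finset.sum_const, smul_eq_mul, card_range]
  have hJK : J ≤ K + 1 := by nlinarith
  have hn2K : K ≤ n2 K := by
    unfold n2
    have h1 : ∀ m : ℕ, m + 2 ≤ 4 * 8 ^ m := by
      intro m
      induction m with
      | zero => norm_num
      | succ m ih => rw [pow_succ]; omega
    have := h1 (K - 2)
    omega
  have h4 : 4 * J * 2 ^ (128 * n2 K * s) * 2 ^ s ≤ 2 ^ (768 * n2 K * (s / 4 + 1)) := by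
    have h5 : J ≤ 2 ^ J := Nat.lt_two_pow_self.le
    have h6 : 4 * J * 2 ^ (128 * n2 K * s) * 2 ^ s ≤ 2 ^ (2 + J + 128 * n2 K * s + s) := by
      rw [pow_add, pow_add, pow_add]
      refine Nat.mul_le_mul_right _ (Nat.mul_le_mul_right _ ?_)
      norm_num
      exact h5
    refine h6.trans (Nat.pow_le_pow_right (by norm_num) ?_)
    have h7 : s + 1 ≤ 4 * (s / 4 + 1) := by omega
    have h8 : 192 * n2 K * (s + 1) ≤ 192 * n2 K * (4 * (s / 4 + 1)) := Nat.mul_le_mul_left _ h7
    have h9 : s ≤ n2 K * s := Nat.le_mul_of_pos_left _ (n2_pos K)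
    nlinarith
  have h10 : 4 * #(BadU K J s) * 2 ^ (768 * n2 K * (s / 4 + 1))
      ≤ 2 ^ (1024 * n2 K * (J * s)) * 2 ^ (768 * n2 K * (s / 4 + 1)) := by
    calc 4 * #(BadU K J s) * 2 ^ (768 * n2 K * (s / 4 + 1))
        = 4 * (#(BadU K J s) * 2 ^ (768 * n2 K * (s / 4 + 1))) := by ring
      _ ≤ 4 * (J * (2 ^ (128 * n2 K * s) * (2 ^ (1024 * n2 K * (J * s)) * 2 ^ s))) :=
          Nat.mul_le_mul_left _ h1
      _ = 2 ^ (1024 * n2 K * (J * s)) * (4 * J * 2 ^ (128 * n2 K * s) * 2 ^ s) := by ring
      _ ≤ 2 ^ (1024 * n2 K * (J * s)) * 2 ^ (768 * n2 K * (s / 4 + 1)) :=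
          Nat.mul_le_mul_left _ h4
  exact Nat.le_of_mul_le_mul_right h10 (by positivity)

lemma SB_disjoint (K : ℕ) {i j : ℕ} (hij : i < j) : Disjoint (SB K i) (SB K j) := by
  rw [Finset.disjoint_left]
  intro k hk hk'
  rw [mem_SB] at hk hk'
  have g := pow_gap j i 1 (by omega)
  norm_num at g
  have hp : (0 : ℤ) < 8 ^ i := by positivity
  linarith [hk.1.2, hk'.1.1]

open Classical in
lemma exists_class (K J s : ℕ) (hJ : 1 ≤ J) (L : Finset (Fin 2 → ℤ))
    (hL : 8 * #L ≤ n2 K * (J * s)) :
    ∃ r < J, 8 * #((Finset.range (J * s)).filter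
      (fun b => n2 K < #(L.filter (fun k => k ∈ SB K b)) ∧ b % J = r)) ≤ s := by
  set O := (Finset.range (J * s)).filter (fun b => n2 K < #(L.filter (fun k => k ∈ SB K b)))
    with hO
  have h1 : #O * n2 K ≤ #L := by
    have h2 : #O * n2 K ≤ ∑ b ∈ O, #(L.filter (fun k => k ∈ SB K b)) := by
      rw [← smul_eq_mul, ← Finset.sum_const]
      refine Finset.sum_le_sum (fun b hb => ?_)
      rw [hO, mem_filter] at hb
      exact hb.2.le
    refine h2.trans ?_
    rw [← Finset.card_biUnion]
    · refine Finset.card_le_card ?_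
      intro k hk
      rw [mem_biUnion] at hk
      obtain ⟨b, -, hb⟩ := hk
      exact (mem_filter.1 hb).1
    · intro i _ j _ hij
      show Disjoint (L.filter (fun k => k ∈ SB K i)) (L.filter (fun k => k ∈ SB K j))
      rw [Finset.disjoint_left]
      intro k hk hk'
      rw [mem_filter] at hk hk'
      rcases lt_or_gt_of_ne hij with h | h
      · exact Finset.disjoint_left.1 (SB_disjoint K h) hk.2 hk'.2
      · exact Finset.disjoint_left.1 (SB_disjoint K h) hk'.2 hk.2
  have h3 : 8 * #O ≤ J * s := by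
    have h4 : (8 * #O) * n2 K ≤ (J * s) * n2 K := by nlinarith
    exact Nat.le_of_mul_le_mul_right h4 (n2_pos K)
  by_contra hcon
  push Not at hcon
  have h5 : ∀ r ∈ Finset.range J, s + 1 ≤ 8 * #(O.filter (fun b => b % J = r)) := by
    intro r hr
    have h6 := hcon r (mem_range.1 hr)
    have h7 : O.filter (fun b => b % J = r) = (Finset.range (J * s)).filter
        (fun b => n2 K < #(L.filter (fun k => k ∈ SB K b)) ∧ b % J = r) := by
      rw [hO, Finset.filter_filter]
    rw [h7]
    omega
  have h8 := Finset.sum_le_sum h5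
  rw [Finset.sum_const, card_range, smul_eq_mul, ← Finset.mul_sum] at h8
  have h9 : #O = ∑ r ∈ Finset.range J, #(O.filter (fun b => b % J = r)) :=
    Finset.card_eq_sum_card_fiberwise (fun b _ => by
      rw [Finset.coe_range, Set.mem_Iio]
      exact Nat.mod_lt _ hJ)
  rw [← h9] at h8
  nlinarith

open Classical in
/-- the parameter coming from a set of frequencies -/
def pL (K J n r : ℕ) (L : Finset (Fin 2 → ℤ)) (b : Fin n) : Option (Finset (Fin 2 → ℤ)) :=
  if (b : ℕ) % J = r ∧ #(L.filter (fun k => k ∈ SB K b)) ≤ n2 K then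
    some (L.filter (fun k => k ∈ SB K b)) else none

open Classical in
lemma pL_mem (K J n r : ℕ) (L : Finset (Fin 2 → ℤ)) : pL K J n r L ∈ PF K J n r := by
  unfold PF
  rw [Fintype.mem_piFinset]
  intro b
  unfold pL
  by_cases h1 : (b : ℕ) % J = r
  · rw [if_pos h1]
    by_cases h2 : #(L.filter (fun k => k ∈ SB K b)) ≤ n2 K
    · rw [if_pos ⟨h1, h2⟩, mem_insert, mem_image]
      right
      refine ⟨_, ?_, rfl⟩
      rw [mem_filter, mem_powerset]
      exact ⟨fun k hk => (mem_filter.1 hk).2, h2⟩
    · rw [if_neg (fun h => h2 h.2)]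
      exact mem_insert_self _ _
  · rw [if_neg h1, if_neg (fun h => h1 h.1)]
    exact mem_singleton_self _

/-- the coefficients of the extremal polynomial -/
def aa (K : ℕ) (ε : ℕ → Finset (YK K)) (b : ℕ) (k : Fin 2 → ℤ) : ℂ :=
  if hb : b ≤ K then hat (Zf b) (Zs K b) (eb K b hb) (sg (ε b)) k else 0

/-- outcome of the random construction -/
theorem good_factors (K J s : ℕ) (hK : 2 ≤ K) (hJ : 2 ≤ J) (hn : J * s ≤ K + 1)
    (ε : Fin (J * s) → Finset (YK K)) (hε : ε ∉ BadU K J s) (L : Finset (Fin 2 → ℤ))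
    (hL : 8 * #L ≤ n2 K * (J * s)) :
    ∃ (G : Finset ℕ) (c : ℕ → (Fin 2 → ℤ) → ℂ), RH K (J * s) J G (et K) c ∧ s ≤ 2 * #G ∧
      (∀ b ∈ G, 1 / 8192 ≤ (∑ k ∈ RB K b, aa K (ext ε) b k * conj (c b k)).re) ∧
      (∀ b ∈ G, ∀ k ∈ L, k ∈ SB K b → c b k = 0) := by
  classical
  obtain ⟨r, hr, hclass⟩ := exists_class K J s (by omega) L hL
  set P := pL K J (J * s) r L with hPdef
  have hPm : P ∈ PF K J (J * s) r := pL_mem K J (J * s) r L
  set p : PP := extP P with hp
  have hcl : ∀ b, p b ≠ none → b < J * s ∧ b % J = r := fun b hb => mem_PF_class hPm b hb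
  have hpval : ∀ b lam, p b = some lam → lam = L.filter (fun k => k ∈ SB K b) ∧ lam.card ≤ n2 K := by
    intro b lam hb
    rw [hp] at hb
    unfold extP at hb
    split_ifs at hb with h1
    · rw [hPdef] at hb
      unfold pL at hb
      split_ifs at hb with h2
      · rw [Option.some_inj] at hb
        rw [← hb]
        exact ⟨rfl, h2.2⟩
  refine ⟨GK K (J * s) p (ext ε), cc K p (ext ε), ?_, ?_, ?_, ?_⟩
  · exact rh_of_process K (J * s) J hn hJ r p (fun b hb => (hcl b hb).2)
      (fun b hb => (hcl b hb).1) (ext ε)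
  · have h1 := card_GK K (J * s) hn p (fun b lam hb => (hpval b lam hb).2) (ext ε)
    have h2 : nbad (sst K p) (badK K p) (J * s) (ext ε) ≤ s / 4 := by
      by_contra hcon
      push Not at hcon
      apply hε
      unfold BadU
      rw [mem_biUnion]
      refine ⟨r, mem_range.2 hr, ?_⟩
      rw [mem_biUnion]
      refine ⟨P, hPm, ?_⟩
      rw [mem_filter]
      exact ⟨mem_univ _, hcon⟩
    have h3 : s ≤ #((Finset.range (J * s)).filter (fun b => p b ≠ none))
        + #((Finset.range (J * s)).filter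
          (fun b => n2 K < #(L.filter (fun k => k ∈ SB K b)) ∧ b % J = r)) := by
      refine (class_card J s r hr).ge.trans ?_
      refine le_trans (Finset.card_le_card ?_) (Finset.card_union_le _ _)
      intro b hb
      rw [mem_filter, mem_range] at hb
      rw [mem_union, mem_filter, mem_filter, mem_range]
      by_cases h4 : #(L.filter (fun k => k ∈ SB K b)) ≤ n2 K
      · left
        refine ⟨hb.1, ?_⟩
        have h5 : p b = some (L.filter (fun k => k ∈ SB K b)) := by
          rw [hp]
          unfold extP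
          rw [dif_pos hb.1, hPdef]
          unfold pL
          exact if_pos ⟨hb.2, h4⟩
        rw [h5]
        simp
      · right
        exact ⟨hb.1, by omega, hb.2⟩
    have h6 : #((Finset.range (J * s)).filter (fun b => p b ≠ none))
        ≤ #(GK K (J * s) p (ext ε)) + s / 4 := by
      refine le_trans ?_ (h1.trans (Nat.add_le_add_left h2 _))
      exact le_of_eq (by congr)
    omega
  · intro b hb
    obtain ⟨lam, hlam, hbK, hV⟩ := GK_spec hb
    have h1 := hV.v4
    rw [cor_eq K b hK hbK] at h1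
    unfold RB
    have h2 : ∀ k, aa K (ext ε) b k = hat (Zf b) (Zs K b) (eb K b hbK) (sg (ext ε b)) k := by
      intro k
      unfold aa
      rw [dif_pos hbK]
    simp only [h2]
    exact h1
  · intro b hb k hkL hk
    obtain ⟨lam, hlam, hbK, hV⟩ := GK_spec hb
    refine hV.v3 k ?_
    rw [(hpval b lam hlam).1, mem_filter]
    exact ⟨hkL, hk⟩

end

end Pool.Agent.H75.MT
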